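import Pool.Agent.H479.V.Stm2
import Pool.Graph.R_pool_sql_team_seeded_63374d34.N278.PV_2

open MeasureTheory Filter Topology

namespace H479.V

open H479.P
open H479.U hiding mz_nonneg
open Pool.Agent.Y744 TH803TW
open Pool.Agent.N804 (SC CT)
open Pool.Agent.N804.PV (DT GV ph aT)

lemma subst_exp {a b : ℝ} (hab : a ≤ b) (g : ℝ → ℝ) :
    ∫ x in (Real.exp a)..(Real.exp b), g x = ∫ y in a..b, Real.exp y * g (Real.exp y) := by
  rw [intervalIntegral.integral_of_le (Real.exp_le_exp.2 hab), intervalIntegral.integral_of_le hab,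
    ← integral_Icc_eq_integral_Ioc, ← integral_Icc_eq_integral_Ioc]
  have himg : Real.exp '' (Set.Icc a b) = Set.Icc (Real.exp a) (Real.exp b) := by
    ext x
    constructor
    · rintro ⟨y, hy, rfl⟩
      exact ⟨Real.exp_le_exp.2 hy.1, Real.exp_le_exp.2 hy.2⟩
    · intro hx
      have hx0 : 0 < x := (Real.exp_pos a).trans_le hx.1
      refine ⟨Real.log x, ⟨?_, ?_⟩, Real.exp_log hx0⟩
      · rw [Real.le_log_iff_exp_le hx0]; exact hx.1
      · rw [Real.log_le_iff_le_exp hx0]; exact hx.2
  have h := integral_image_eq_integral_abs_deriv_smul (measurableSet_Icc (a := a) (b := b))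
    (fun x _ => (Real.hasDerivAt_exp x).hasDerivWithinAt) (Real.exp_injective.injOn) g
  rw [himg] at h
  rw [h]
  refine setIntegral_congr_fun measurableSet_Icc fun x _ => ?_
  show |Real.exp x| • g (Real.exp x) = _
  rw [abs_of_pos (Real.exp_pos x), smul_eq_mul]

theorem gvf : S_GVF := by
  intro T u v hT hu huv
  have hT0 : 0 < T := by linarith
  have hL : 0 < Real.log T := Real.log_pos hT
  unfold GV
  have e1 : ∀ s : ℝ, T ^ s = Real.exp (s * Real.log T) := fun s => by
    rw [Real.rpow_def_of_pos hT0, mul_comm]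
  rw [e1 u, e1 v, subst_exp (mul_le_mul_of_nonneg_right huv hL.le)]
  have e2 : ∀ y : ℝ, Real.exp y * ((Chebyshev.psi (Real.exp y + Real.exp y / T) - Chebyshev.psi (Real.exp y) -
      Real.exp y / T) ^ 2 / Real.exp y ^ 2) = DT T y ^ 2 := by
    intro y
    unfold DT
    rw [mul_pow, show Real.exp y + Real.exp y / T = Real.exp y * (1 + 1 / T) by ring]
    have h1 : Real.exp (-(y / 2)) ^ 2 = (Real.exp y)⁻¹ := by
      rw [← Real.exp_nat_mul, ← Real.exp_neg]
      congr 1
      push_cast
      ring
    rw [h1]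
    have := Real.exp_pos y
    field_simp
  simp_rw [e2]
  have e3 := intervalIntegral.integral_comp_mul_right (a := u) (b := v) (fun y : ℝ => DT T y ^ 2) hL.ne'
  unfold ft
  rw [intervalIntegral.integral_const_mul, e3, smul_eq_mul]
  field_simp

/-- `ft T` is locally bounded and measurable -/
lemma ft_ii {T : ℝ} (hT : 1 < T) (a b : ℝ) : IntervalIntegrable (ft T) volume a b := by
  have hL : 0 < Real.log T := Real.log_pos hT
  have hm : Measurable (ft T) := by
    unfold ft
    have := Pool.Agent.N278.PV.meas_DT T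
    fun_prop
  have hb : ∀ α : ℝ, |ft T α| ≤ T / Real.log T * (Pool.Agent.N278.PV.C1 ^ 2 * Real.exp (α * Real.log T)) := by
    intro α
    have h1 := Pool.Agent.N278.PV.DT_bound hT.le (α * Real.log T)
    have h2 := Pool.Agent.N278.PV.C1_pos
    unfold ft
    rw [abs_mul, abs_of_pos (by positivity : 0 < T / Real.log T), abs_pow]
    refine mul_le_mul_of_nonneg_left ?_ (by positivity)
    have h3 := pow_le_pow_left₀ (abs_nonneg _) h1 2
    refine h3.trans (le_of_eq ?_)
    rw [mul_pow, ← Real.exp_nat_mul]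
    congr 2
    push_cast
    ring
  have hc : IntervalIntegrable (fun α : ℝ => T / Real.log T * (Pool.Agent.N278.PV.C1 ^ 2 *
      Real.exp (α * Real.log T))) volume a b := by
    apply Continuous.intervalIntegrable
    fun_prop
  exact hc.mono_fun' hm.aestronglyMeasurable (Eventually.of_forall fun α => hb α)

lemma ft_nonneg {T : ℝ} (hT : 1 < T) (α : ℝ) : 0 ≤ ft T α := by
  have hL : 0 < Real.log T := Real.log_pos hT
  unfold ft
  positivity

end H479.V
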