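import Pool.Agent.H479.V.Stm

/-!
# Subtask H479-APP: smooth positive definite approximations of the tents

`w = b⁻¹ (f ⋆ f)`, `f` a smooth even bump equal to one on `[-b/2, b/2]` and supported in
`[-b/2-δ/4, b/2+δ/4]`.
-/

open MeasureTheory Filter Topology

namespace H479.V

open Pool.Agent.N804 (SC CT)

namespace APPaux

/-- self-convolution -/
noncomputable def cv (f : ℝ → ℝ) (x : ℝ) : ℝ := ∫ u : ℝ, f u * f (x - u)

lemma cv_sc {f : ℝ → ℝ} (H : SC f) : SC (cv f) := by
  have e : cv f = MeasureTheory.convolution f f (ContinuousLinearMap.mul ℝ ℝ) volume := by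
    funext x
    rfl
  rw [e]
  refine ⟨?_, ?_⟩
  · exact H.cs.contDiff_convolution_right (ContinuousLinearMap.mul ℝ ℝ)
      H.cont.locallyIntegrable H.sm
  · exact H.cs.convolution (ContinuousLinearMap.mul ℝ ℝ) H.cs

lemma cv_even {f : ℝ → ℝ} (he : ∀ x, f (-x) = f x) (x : ℝ) : cv f (-x) = cv f x := by
  unfold cv
  rw [← integral_neg_eq_self]
  refine integral_congr_ae (ae_of_all _ fun u => ?_)
  simp only
  rw [he, show -x - -u = -(x - u) by ring, he]

lemma ST_even {f : ℝ → ℝ} (he : ∀ x, f (-x) = f x) (x : ℝ) : Pool.Agent.N804.ST f x = 0 := by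
  unfold Pool.Agent.N804.ST
  have h : ∫ α : ℝ, f α * Real.sin (2 * Real.pi * α * x) =
      -∫ α : ℝ, f α * Real.sin (2 * Real.pi * α * x) := by
    conv_lhs => rw [← integral_neg_eq_self]
    rw [← integral_neg]
    refine integral_congr_ae (ae_of_all _ fun u => ?_)
    simp only
    rw [he, show 2 * Real.pi * -u * x = -(2 * Real.pi * u * x) by ring, Real.sin_neg]
    ring
  linarith

lemma CT_cv {f : ℝ → ℝ} (H : SC f) (he : ∀ x, f (-x) = f x) (x : ℝ) :
    CT (cv f) x = CT f x ^ 2 := by
  have hint : Integrable (Function.uncurry fun y u : ℝ =>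
      f u * f (y - u) * Real.cos (2 * Real.pi * y * x)) (volume.prod volume) := by
    refine Continuous.integrable_of_hasCompactSupport ?_ ?_
    · have := H.cont
      simp only [Function.uncurry_def]
      fun_prop
    · obtain ⟨R, hR⟩ := (Metric.isBounded_iff_subset_closedBall (0 : ℝ)).1 H.cs.isBounded
      refine HasCompactSupport.intro
        ((isCompact_closedBall (0 : ℝ) (2 * R)).prod (isCompact_closedBall (0 : ℝ) R)) ?_
      rintro ⟨y, u⟩ hyu
      simp only [Function.uncurry_apply_pair]
      by_contra hne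
      apply hyu
      have h1 : f u ≠ 0 := fun h => hne (by rw [h]; ring)
      have h2 : f (y - u) ≠ 0 := fun h => hne (by rw [h]; ring)
      have h3 := hR (subset_tsupport _ (Function.mem_support.2 h1))
      have h4 := hR (subset_tsupport _ (Function.mem_support.2 h2))
      rw [mem_closedBall_zero_iff, Real.norm_eq_abs] at h3 h4
      rw [Set.mem_prod, mem_closedBall_zero_iff, mem_closedBall_zero_iff, Real.norm_eq_abs,
        Real.norm_eq_abs]
      refine ⟨?_, h3⟩
      simp only
      have : y = (y - u) + u := by ring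
      calc |y| = |(y - u) + u| := by rw [← this]
        _ ≤ |y - u| + |u| := abs_add_le _ _
        _ ≤ 2 * R := by linarith
  have h1 : CT (cv f) x = ∫ y : ℝ, ∫ u : ℝ, f u * f (y - u) * Real.cos (2 * Real.pi * y * x) := by
    unfold CT cv
    refine integral_congr_ae (ae_of_all _ fun y => ?_)
    simp only
    rw [integral_mul_const]
  rw [h1, integral_integral_swap hint]
  have h2 : ∀ u : ℝ, ∫ y : ℝ, f u * f (y - u) * Real.cos (2 * Real.pi * y * x) =
      f u * Real.cos (2 * Real.pi * u * x) * CT f x := by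
    intro u
    have e1 : ∫ y : ℝ, f u * f (y - u) * Real.cos (2 * Real.pi * y * x) =
        ∫ v : ℝ, f u * f v * Real.cos (2 * Real.pi * (v + u) * x) := by
      rw [← integral_sub_right_eq_self (fun v : ℝ => f u * f v * Real.cos (2 * Real.pi * (v + u) * x)) u]
      refine integral_congr_ae (ae_of_all _ fun y => ?_)
      simp only
      rw [sub_add_cancel]
    rw [e1]
    have e2 : ∀ v : ℝ, f u * f v * Real.cos (2 * Real.pi * (v + u) * x) =
        f u * Real.cos (2 * Real.pi * u * x) * (f v * Real.cos (2 * Real.pi * v * x)) -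
        f u * Real.sin (2 * Real.pi * u * x) * (f v * Real.sin (2 * Real.pi * v * x)) := by
      intro v
      rw [show 2 * Real.pi * (v + u) * x = 2 * Real.pi * v * x + 2 * Real.pi * u * x by ring,
        Real.cos_add]
      ring
    simp only [e2]
    rw [integral_sub ((H.int_cos x).const_mul _) ((H.int_sin x).const_mul _),
      integral_const_mul, integral_const_mul]
    have e3 : ∫ v : ℝ, f v * Real.sin (2 * Real.pi * v * x) = 0 := ST_even he x
    rw [e3, mul_zero, sub_zero]
    rfl
  simp only [h2]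
  rw [integral_mul_const, sq]
  rfl

lemma ind_int (a c : ℝ) : Integrable (fun u : ℝ => (Set.Icc a c).indicator (1 : ℝ → ℝ) u) := by
  rw [show (fun u : ℝ => (Set.Icc a c).indicator (1 : ℝ → ℝ) u) =
    (Set.Icc a c).indicator (1 : ℝ → ℝ) from rfl, integrable_indicator_iff measurableSet_Icc]
  exact integrableOn_const (by rw [Real.volume_Icc]; exact ENNReal.ofReal_ne_top)

/-- the bounds for nonnegative `x` -/
lemma cv_bd {f : ℝ → ℝ} (H : SC f) {r R : ℝ} (h0 : ∀ x, 0 ≤ f x) (h1 : ∀ x, f x ≤ 1)
    (hr : ∀ x, |x| ≤ r → f x = 1) (hR : ∀ x, R ≤ |x| → f x = 0) (x : ℝ) (hx : 0 ≤ x) :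
    max (2 * r - x) 0 ≤ cv f x ∧ cv f x ≤ max (2 * R - x) 0 := by
  have hi : Integrable fun u : ℝ => f u * f (x - u) := by
    have hc : Continuous fun u : ℝ => f u * f (x - u) := by
      have := H.cont
      fun_prop
    exact hc.integrable_of_hasCompactSupport H.cs.mul_right
  constructor
  · have e : max (2 * r - x) 0 = ∫ u : ℝ, (Set.Icc (x - r) r).indicator (1 : ℝ → ℝ) u := by
      rw [integral_indicator_one measurableSet_Icc, Real.volume_real_Icc]
      congr 1
      ring
    rw [e]
    unfold cv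
    refine integral_mono (ind_int _ _) hi fun u => ?_
    simp only
    by_cases hu : u ∈ Set.Icc (x - r) r
    · rw [Set.indicator_of_mem hu, Pi.one_apply]
      obtain ⟨hu1, hu2⟩ := hu
      rw [hr u (abs_le.2 ⟨by linarith, hu2⟩), hr (x - u) (abs_le.2 ⟨by linarith, by linarith⟩)]
      norm_num
    · rw [Set.indicator_of_notMem hu]
      exact mul_nonneg (h0 _) (h0 _)
  · have e : max (2 * R - x) 0 = ∫ u : ℝ, (Set.Icc (x - R) R).indicator (1 : ℝ → ℝ) u := by
      rw [integral_indicator_one measurableSet_Icc, Real.volume_real_Icc]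
      congr 1
      ring
    rw [e]
    unfold cv
    refine integral_mono hi (ind_int _ _) fun u => ?_
    simp only
    by_cases hu : u ∈ Set.Icc (x - R) R
    · rw [Set.indicator_of_mem hu, Pi.one_apply]
      have a1 := h0 u
      have a2 := h1 u
      have a3 := h0 (x - u)
      have a4 := h1 (x - u)
      nlinarith
    · rw [Set.indicator_of_notMem hu]
      rw [Set.mem_Icc, not_and_or, not_le, not_le] at hu
      rcases hu with hu | hu
      · rw [hR (x - u) (le_abs.2 (Or.inl (by linarith))), mul_zero]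
      · rw [hR u (le_abs.2 (Or.inl hu.le)), zero_mul]

end APPaux

open APPaux in
theorem app : S_APP := by
  intro b δ hb hδ hδ1
  have hb0 : 0 < b := by linarith
  let φ : ContDiffBump (0 : ℝ) := ⟨b / 2, b / 2 + δ / 4, by positivity, by linarith⟩
  set f : ℝ → ℝ := fun x => φ x with hf
  have H : SC f := ⟨φ.contDiff, φ.hasCompactSupport⟩
  have he : ∀ x, f (-x) = f x := fun x => φ.neg x
  have h0 : ∀ x, 0 ≤ f x := fun x => φ.nonneg
  have h1 : ∀ x, f x ≤ 1 := fun x => φ.le_one
  have hr : ∀ x, |x| ≤ b / 2 → f x = 1 := fun x hx =>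
    φ.one_of_mem_closedBall (by rw [mem_closedBall_zero_iff, Real.norm_eq_abs]; exact hx)
  have hR : ∀ x, b / 2 + δ / 4 ≤ |x| → f x = 0 := fun x hx =>
    φ.zero_of_le_dist (by rw [dist_zero_right, Real.norm_eq_abs]; exact hx)
  have hbd : ∀ x, max (b - |x|) 0 ≤ cv f x ∧ cv f x ≤ max (b + δ / 2 - |x|) 0 := by
    intro x
    have h := cv_bd H h0 h1 hr hR |x| (abs_nonneg x)
    have e : cv f |x| = cv f x := by
      rcases abs_choice x with hx | hx
      · rw [hx]
      · rw [hx, cv_even he]
    rw [e] at h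
    rw [show 2 * (b / 2) - |x| = b - |x| by ring,
      show 2 * (b / 2 + δ / 4) - |x| = b + δ / 2 - |x| by ring] at h
    exact h
  have Hc := cv_sc H
  refine ⟨fun x => b⁻¹ * cv f x, ⟨⟨?_, ?_⟩, ?_⟩, ?_, ?_, ?_, ?_⟩
  · exact contDiff_const.mul Hc.sm
  · exact Hc.cs.mul_left
  · intro x
    rw [cv_even he]
  · intro x
    exact mul_nonneg (by positivity) ((le_max_right _ _).trans (hbd x).1)
  · intro x hx
    have h := (hbd x)
    rw [max_eq_right (by linarith : b + δ / 2 - |x| ≤ 0)] at h
    have : cv f x = 0 := le_antisymm h.2 ((le_max_right _ _).trans h.1)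
    simp only [this, mul_zero]
  · intro x
    have e : CT (fun x => b⁻¹ * cv f x) x = b⁻¹ * CT (cv f) x := by
      unfold CT
      rw [← integral_const_mul]
      refine integral_congr_ae (ae_of_all _ fun u => ?_)
      simp only
      ring
    rw [e, CT_cv H he]
    positivity
  · intro x
    have e : max 0 (1 - |x| / b) = b⁻¹ * max (b - |x|) 0 := by
      rw [mul_max_of_nonneg _ _ (by positivity : (0 : ℝ) ≤ b⁻¹), mul_zero, max_comm]
      congr 1
      field_simp
    simp only
    rw [e, ← mul_sub, abs_mul, abs_of_pos (by positivity : (0 : ℝ) < b⁻¹)]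
    obtain ⟨g1, g2⟩ := hbd x
    have g3 : max (b + δ / 2 - |x|) 0 ≤ max (b - |x|) 0 + δ / 2 := by
      refine max_le ?_ ?_
      · have := le_max_left (b - |x|) 0
        linarith
      · have := le_max_right (b - |x|) 0
        linarith
    have g4 : |cv f x - max (b - |x|) 0| ≤ δ / 2 := by
      rw [abs_le]
      constructor
      · linarith
      · linarith
    calc b⁻¹ * |cv f x - max (b - |x|) 0| ≤ 1 * (δ / 2) := by
          refine mul_le_mul (inv_le_one_of_one_le₀ hb) g4 (abs_nonneg _) zero_le_one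
      _ ≤ δ := by linarith

end H479.V
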