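import Pool.Agent.H479.V.Stm
import Pool.Graph.R_seed8.Y744.PCR.NTb
import Pool.Graph.R_pool_sql_team_seeded_63374d34.N704.PV.CoreC
import Pool.Graph.R_pool_sql_team_seeded_63374d34.N755.PV_3a
import Pool.Graph.R_pool_sql_team_seeded_f72693b1.W187.WP.Stmts
import Pool.Graph.R_pool_sql_team_seeded_f72693b1.W8.WP.ZrSum
import Pool.Graph.R_pool_sql_team_seeded_63374d34.N804.LI.ZN
import Pool.Graph.R_pool_sql_team_seeded_f72693b1.W8.WP.LapB

/-!
# Subtask H479-C2 (owner helper479, MP_f58427_nt): the mean square of the smoothed sum over the zeros (RH)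

Proved by helper597.
-/

set_option autoImplicit false

open MeasureTheory Filter Topology


namespace H479.V.C2L

open Pool.Agent.Y744 (Zt mz mem_Zt mz_nonneg)
open Pool.Agent.N804 (SC CT)
open Pool.Agent.N804.PV (DT GV ph aT)
open Pool.Agent.W187.WP (Zr mult lap)

/-- zeros with ordinate in `[a, a + 1]` -/
lemma count_unit : ∃ K : ℝ, 0 < K ∧ ∀ (a : ℝ) (w : Finset ℂ),
    (∀ s ∈ w, s ∈ Zr ∧ 0 < s.im ∧ a ≤ s.im ∧ s.im ≤ a + 1) →
    ∑ s ∈ w, mz s ≤ K * Real.log (|a| + 3) := by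
  obtain ⟨C, hC, hz⟩ := H370.zcount H370.good_zeta
  set B : ℝ := ∑ s ∈ Zt 4, mz s with hB
  have hB0 : 0 ≤ B := Finset.sum_nonneg fun s _ => mz_nonneg s
  refine ⟨C + B, by positivity, fun a w hw => ?_⟩
  have hl3 : 1 ≤ Real.log (|a| + 3) := by
    rw [Real.le_log_iff_exp_le (by positivity)]
    linarith [Real.exp_one_lt_d9, abs_nonneg a]
  by_cases ha : a < 3
  · have h1 : ∑ s ∈ w, mz s ≤ B := by
      rw [hB]
      refine Finset.sum_le_sum_of_subset_of_nonneg (fun s hs => ?_) fun s _ _ => mz_nonneg s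
      obtain ⟨⟨h2, h3, h4⟩, h5, h6, h7⟩ := hw s hs
      rw [mem_Zt]
      exact ⟨h3, h4, h5, by linarith, h2⟩
    nlinarith
  · push Not at ha
    have hfin := H370.zset_finite H370.good_zeta (a + 1 / 2 - 1) (a + 1 / 2 + 1) (by linarith)
    have hNN : H370.NN riemannZeta (a + 1 / 2 - 1) (a + 1 / 2 + 1) =
        ∑ s ∈ hfin.toFinset, H370.mult riemannZeta s := by
      unfold H370.NN
      exact finsum_mem_eq_finite_toFinset_sum _ hfin
    have h1 : ∑ s ∈ w, mz s ≤ (H370.NN riemannZeta (a + 1 / 2 - 1) (a + 1 / 2 + 1) : ℝ) := by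
      rw [hNN]
      push_cast
      refine Finset.sum_le_sum_of_subset_of_nonneg (fun s hs => ?_) fun s _ _ => Nat.cast_nonneg _
      obtain ⟨⟨h2, h3, h4⟩, h5, h6, h7⟩ := hw s hs
      rw [Set.Finite.mem_toFinset]
      exact ⟨h3, h4, by linarith, by linarith, h2⟩
    have h2 := hz (a + 1 / 2) (by linarith)
    have h3 : Real.log (a + 1 / 2) ≤ Real.log (|a| + 3) :=
      Real.log_le_log (by linarith) (by linarith [le_abs_self a])
    nlinarith

lemma summ1 : Summable (fun k : ℕ => (1 + 2 * Real.log ((k : ℝ) + 2)) / (1 + (k : ℝ) ^ 2)) := by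
  have hs : Summable (fun n : ℕ => 1 / |(n : ℝ) + 1| ^ (3 / 2 : ℝ)) :=
    (Real.summable_one_div_nat_add_rpow 1 (3 / 2)).2 (by norm_num)
  refine Summable.of_nonneg_of_le (fun n => ?_) (fun n => ?_) (hs.mul_left 40)
  · have : 0 ≤ Real.log ((n : ℝ) + 2) := Real.log_nonneg (by
      have : (0 : ℝ) ≤ n := Nat.cast_nonneg n
      linarith)
    positivity
  · have hn0 : (0 : ℝ) ≤ n := Nat.cast_nonneg n
    rw [abs_of_nonneg (by linarith), div_le_iff₀ (by positivity)]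
    have h1 : 1 ≤ ((n : ℝ) + 1) ^ (1 / 2 : ℝ) := Real.one_le_rpow (by linarith) (by norm_num)
    have h2 : ((n : ℝ) + 1) ^ (1 / 2 : ℝ) * ((n : ℝ) + 1) ^ (3 / 2 : ℝ) = ((n : ℝ) + 1) ^ 2 := by
      rw [← Real.rpow_add (by linarith)]
      norm_num
    have h3 : 0 < ((n : ℝ) + 1) ^ (3 / 2 : ℝ) := by positivity
    have h4 : ((n : ℝ) + 1) ^ 2 ≤ 2 * (1 + (n : ℝ) ^ 2) := by nlinarith [sq_nonneg ((n : ℝ) - 1)]
    have h5 : Real.log ((n : ℝ) + 2) ≤ ((n : ℝ) + 2) ^ (1 / 2 : ℝ) / (1 / 2) :=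
      Real.log_le_rpow_div (by linarith) (by norm_num)
    have h6 : ((n : ℝ) + 2) ^ (1 / 2 : ℝ) ≤ 2 * ((n : ℝ) + 1) ^ (1 / 2 : ℝ) := by
      calc ((n : ℝ) + 2) ^ (1 / 2 : ℝ) ≤ (4 * ((n : ℝ) + 1)) ^ (1 / 2 : ℝ) :=
            Real.rpow_le_rpow (by linarith) (by linarith) (by norm_num)
        _ = 4 ^ (1 / 2 : ℝ) * ((n : ℝ) + 1) ^ (1 / 2 : ℝ) :=
            Real.mul_rpow (by norm_num) (by linarith)
        _ = 2 * ((n : ℝ) + 1) ^ (1 / 2 : ℝ) := by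
            congr 1
            rw [show (4 : ℝ) = 2 ^ (2 : ℝ) by norm_num, ← Real.rpow_mul (by norm_num)]
            norm_num
    have h7 : 1 + 2 * Real.log ((n : ℝ) + 2) ≤ 9 * ((n : ℝ) + 1) ^ (1 / 2 : ℝ) := by linarith
    have e : 40 * (1 / ((n : ℝ) + 1) ^ (3 / 2 : ℝ)) * (1 + (n : ℝ) ^ 2) =
        20 * (2 * (1 + (n : ℝ) ^ 2)) / ((n : ℝ) + 1) ^ (3 / 2 : ℝ) := by
      field_simp
      ring
    rw [e, le_div_iff₀ h3]
    calc (1 + 2 * Real.log ((n : ℝ) + 2)) * ((n : ℝ) + 1) ^ (3 / 2 : ℝ)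
        ≤ 9 * ((n : ℝ) + 1) ^ (1 / 2 : ℝ) * ((n : ℝ) + 1) ^ (3 / 2 : ℝ) := by gcongr
      _ = 9 * ((n : ℝ) + 1) ^ 2 := by rw [mul_assoc, h2]
      _ ≤ 20 * ((n : ℝ) + 1) ^ 2 := by nlinarith [sq_nonneg ((n : ℝ) + 1)]
      _ ≤ 20 * (2 * (1 + (n : ℝ) ^ 2)) := by gcongr

lemma count1 : ∃ C1 : ℝ, 0 ≤ C1 ∧ ∀ (S : Finset ℂ), (∀ s ∈ S, s ∈ Zr ∧ 0 < s.im) →
    ∀ t : ℝ, 0 < t → ∑ s ∈ S, mz s / (1 + (t - s.im) ^ 2) ≤ C1 * Real.log (t + 2) := by
  classical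
  obtain ⟨K, hK, hc⟩ := count_unit
  have hsum := summ1
  have hnn : ∀ k : ℕ, 0 ≤ (1 + 2 * Real.log ((k : ℝ) + 2)) / (1 + (k : ℝ) ^ 2) := by
    intro k
    have : 0 ≤ Real.log ((k : ℝ) + 2) := Real.log_nonneg (by
      have : (0 : ℝ) ≤ k := Nat.cast_nonneg k
      linarith)
    positivity
  refine ⟨2 * K * ∑' k : ℕ, (1 + 2 * Real.log ((k : ℝ) + 2)) / (1 + (k : ℝ) ^ 2),
    mul_nonneg (by positivity) (tsum_nonneg hnn), fun S hS t ht => ?_⟩
  set N : ℂ → ℕ := fun s => ⌊|s.im - t|⌋₊ with hN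
  have h1 : ∑ s ∈ S, mz s / (1 + (t - s.im) ^ 2) =
      ∑ n ∈ S.image N, ∑ s ∈ S.filter (fun s => N s = n), mz s / (1 + (t - s.im) ^ 2) :=
    (Finset.sum_fiberwise_of_maps_to (fun s hs => Finset.mem_image_of_mem N hs) _).symm
  have hlt : 1 / 2 ≤ Real.log (t + 2) := by
    have h2 : Real.log 2 ≤ Real.log (t + 2) := Real.log_le_log (by norm_num) (by linarith)
    have := Real.log_two_gt_d9
    linarith
  rw [h1]
  have h2 : ∀ n ∈ S.image N, ∑ s ∈ S.filter (fun s => N s = n), mz s / (1 + (t - s.im) ^ 2) ≤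
      2 * K * Real.log (t + 2) * ((1 + 2 * Real.log ((n : ℝ) + 2)) / (1 + (n : ℝ) ^ 2)) := by
    intro n _
    have hn0 : (0 : ℝ) ≤ n := Nat.cast_nonneg n
    have hflo : ∀ s ∈ S.filter (fun s => N s = n), (n : ℝ) ≤ |s.im - t| ∧ |s.im - t| < n + 1 := by
      intro s hs
      rw [Finset.mem_filter] at hs
      exact (Nat.floor_eq_iff (abs_nonneg (s.im - t))).1 hs.2
    have h3 : ∑ s ∈ S.filter (fun s => N s = n), mz s / (1 + (t - s.im) ^ 2) ≤
        (∑ s ∈ S.filter (fun s => N s = n), mz s) / (1 + (n : ℝ) ^ 2) := by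
      rw [Finset.sum_div]
      refine Finset.sum_le_sum fun s hs => ?_
      have h4 := (hflo s hs).1
      have h5 : (n : ℝ) ^ 2 ≤ (t - s.im) ^ 2 := by
        rw [← sq_abs (t - s.im), abs_sub_comm]
        exact pow_le_pow_left₀ hn0 h4 2
      have := mz_nonneg s
      gcongr
    refine h3.trans ?_
    have hsplit : ∑ s ∈ S.filter (fun s => N s = n), mz s =
        ∑ s ∈ (S.filter (fun s => N s = n)).filter (fun s => t ≤ s.im), mz s +
        ∑ s ∈ (S.filter (fun s => N s = n)).filter (fun s => ¬ t ≤ s.im), mz s :=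
      (Finset.sum_filter_add_sum_filter_not _ _ _).symm
    have hlg : ∀ a : ℝ, |a| ≤ t + n + 1 → Real.log (|a| + 3) ≤
        Real.log (t + 2) + Real.log ((n : ℝ) + 2) := by
      intro a ha
      rw [← Real.log_mul (by positivity) (by positivity)]
      refine Real.log_le_log (by positivity) ?_
      nlinarith [mul_nonneg ht.le hn0]
    have k1 : ∑ s ∈ (S.filter (fun s => N s = n)).filter (fun s => t ≤ s.im), mz s ≤
        K * (Real.log (t + 2) + Real.log ((n : ℝ) + 2)) := by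
      refine (hc (t + n) _ fun s hs => ?_).trans (mul_le_mul_of_nonneg_left (hlg _ ?_) hK.le)
      · rw [Finset.mem_filter] at hs
        obtain ⟨h5, h6⟩ := hs
        obtain ⟨h7, h8⟩ := hflo s h5
        rw [abs_of_nonneg (by linarith)] at h7 h8
        obtain ⟨h9, h10⟩ := hS s (Finset.mem_filter.1 h5).1
        exact ⟨h9, h10, by linarith, by linarith⟩
      · rw [abs_of_nonneg (by positivity)]
        linarith
    have k2 : ∑ s ∈ (S.filter (fun s => N s = n)).filter (fun s => ¬ t ≤ s.im), mz s ≤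
        K * (Real.log (t + 2) + Real.log ((n : ℝ) + 2)) := by
      refine (hc (t - n - 1) _ fun s hs => ?_).trans (mul_le_mul_of_nonneg_left (hlg _ ?_) hK.le)
      · rw [Finset.mem_filter] at hs
        obtain ⟨h5, h6⟩ := hs
        push Not at h6
        obtain ⟨h7, h8⟩ := hflo s h5
        rw [abs_of_nonpos (by linarith)] at h7 h8
        obtain ⟨h9, h10⟩ := hS s (Finset.mem_filter.1 h5).1
        exact ⟨h9, h10, by linarith, by linarith⟩
      · rw [abs_le]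
        constructor <;> linarith
    rw [hsplit]
    have hln : 0 ≤ Real.log ((n : ℝ) + 2) := Real.log_nonneg (by linarith)
    have k3 : Real.log ((n : ℝ) + 2) ≤ Real.log (t + 2) * (2 * Real.log ((n : ℝ) + 2)) := by
      nlinarith
    calc _ ≤ (2 * K * (Real.log (t + 2) + Real.log ((n : ℝ) + 2))) / (1 + (n : ℝ) ^ 2) := by
          refine div_le_div_of_nonneg_right ?_ (by positivity)
          linarith
      _ ≤ (2 * K * (Real.log (t + 2) * (1 + 2 * Real.log ((n : ℝ) + 2)))) / (1 + (n : ℝ) ^ 2) := by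
          refine div_le_div_of_nonneg_right ?_ (by positivity)
          refine mul_le_mul_of_nonneg_left ?_ (by positivity)
          linarith
      _ = _ := by ring
  refine (Finset.sum_le_sum h2).trans ?_
  rw [← Finset.mul_sum]
  have h4 := hsum.sum_le_tsum (S.image N) fun n _ => hnn n
  calc _ ≤ 2 * K * Real.log (t + 2) *
        ∑' k : ℕ, (1 + 2 * Real.log ((k : ℝ) + 2)) / (1 + (k : ℝ) ^ 2) :=
        mul_le_mul_of_nonneg_left h4 (by positivity)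
    _ = _ := by ring

lemma summ2 : Summable (fun k : ℕ => Real.log ((k : ℝ) + 3) ^ 2 * ((k : ℝ) + 1) ^ (-(5 / 4) : ℝ)) := by
  have hs : Summable (fun n : ℕ => 1 / |(n : ℝ) + 1| ^ (9 / 8 : ℝ)) :=
    (Real.summable_one_div_nat_add_rpow 1 (9 / 8)).2 (by norm_num)
  refine Summable.of_nonneg_of_le (fun n => by positivity) (fun n => ?_) (hs.mul_left (256 * 3))
  have hn0 : (0 : ℝ) ≤ n := Nat.cast_nonneg n
  rw [abs_of_nonneg (by linarith)]
  have h5 : Real.log ((n : ℝ) + 3) ≤ ((n : ℝ) + 3) ^ (1 / 16 : ℝ) / (1 / 16) :=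
    Real.log_le_rpow_div (by linarith) (by norm_num)
  have h6 : Real.log ((n : ℝ) + 3) ^ 2 ≤ 256 * ((n : ℝ) + 3) ^ (1 / 8 : ℝ) := by
    have h7 : 0 ≤ Real.log ((n : ℝ) + 3) := Real.log_nonneg (by linarith)
    calc Real.log ((n : ℝ) + 3) ^ 2 ≤ (((n : ℝ) + 3) ^ (1 / 16 : ℝ) / (1 / 16)) ^ 2 :=
          pow_le_pow_left₀ h7 h5 2
      _ = 256 * (((n : ℝ) + 3) ^ (1 / 16 : ℝ)) ^ 2 := by ring
      _ = 256 * ((n : ℝ) + 3) ^ (1 / 8 : ℝ) := by
          congr 1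
          rw [← Real.rpow_natCast, ← Real.rpow_mul (by linarith)]
          norm_num
  have h8 : ((n : ℝ) + 3) ^ (1 / 8 : ℝ) ≤ 3 * ((n : ℝ) + 1) ^ (1 / 8 : ℝ) := by
    calc ((n : ℝ) + 3) ^ (1 / 8 : ℝ) ≤ (3 * ((n : ℝ) + 1)) ^ (1 / 8 : ℝ) :=
          Real.rpow_le_rpow (by linarith) (by linarith) (by norm_num)
      _ = 3 ^ (1 / 8 : ℝ) * ((n : ℝ) + 1) ^ (1 / 8 : ℝ) :=
          Real.mul_rpow (by norm_num) (by linarith)
      _ ≤ 3 * ((n : ℝ) + 1) ^ (1 / 8 : ℝ) := by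
          refine mul_le_mul_of_nonneg_right ?_ (by positivity)
          calc (3 : ℝ) ^ (1 / 8 : ℝ) ≤ 3 ^ (1 : ℝ) :=
                Real.rpow_le_rpow_of_exponent_le (by norm_num) (by norm_num)
            _ = 3 := Real.rpow_one 3
  have e : 1 / ((n : ℝ) + 1) ^ (9 / 8 : ℝ) = ((n : ℝ) + 1) ^ (1 / 8 : ℝ) *
      ((n : ℝ) + 1) ^ (-(5 / 4) : ℝ) := by
    rw [← Real.rpow_add (by linarith), one_div, ← Real.rpow_neg (by linarith)]
    norm_num
  rw [e]
  calc Real.log ((n : ℝ) + 3) ^ 2 * ((n : ℝ) + 1) ^ (-(5 / 4) : ℝ)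
      ≤ (256 * (3 * ((n : ℝ) + 1) ^ (1 / 8 : ℝ))) * ((n : ℝ) + 1) ^ (-(5 / 4) : ℝ) := by
        refine mul_le_mul_of_nonneg_right (h6.trans ?_) (by positivity)
        linarith
    _ = _ := by ring

lemma count2 (h0 : ℝ) (hh : 0 < h0) : ∃ C1 : ℝ, 0 ≤ C1 ∧ ∀ (S : Finset ℂ),
    (∀ s ∈ S, s ∈ Zr ∧ h0 ≤ s.im) →
    ∑ s ∈ S, mz s * s.im ^ (-(5 / 4 : ℝ)) * Real.log (s.im + 2) ≤ C1 := by
  classical
  obtain ⟨K, hK, hc⟩ := count_unit
  have hsum := summ2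
  have hnn : ∀ k : ℕ, 0 ≤ Real.log ((k : ℝ) + 3) ^ 2 * ((k : ℝ) + 1) ^ (-(5 / 4) : ℝ) :=
    fun k => by positivity
  set h1 : ℝ := min h0 1 / 2 with hh1
  have hh1p : 0 < h1 := by
    have : 0 < min h0 1 := lt_min hh one_pos
    positivity
  refine ⟨h1 ^ (-(5 / 4) : ℝ) * K * ∑' k : ℕ, Real.log ((k : ℝ) + 3) ^ 2 *
    ((k : ℝ) + 1) ^ (-(5 / 4) : ℝ), mul_nonneg (by positivity) (tsum_nonneg hnn),
    fun S hS => ?_⟩
  set N : ℂ → ℕ := fun s => ⌊s.im⌋₊ with hN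
  have e1 : ∑ s ∈ S, mz s * s.im ^ (-(5 / 4 : ℝ)) * Real.log (s.im + 2) =
      ∑ n ∈ S.image N, ∑ s ∈ S.filter (fun s => N s = n),
        mz s * s.im ^ (-(5 / 4 : ℝ)) * Real.log (s.im + 2) :=
    (Finset.sum_fiberwise_of_maps_to (fun s hs => Finset.mem_image_of_mem N hs) _).symm
  rw [e1]
  have h2 : ∀ n ∈ S.image N, ∑ s ∈ S.filter (fun s => N s = n),
      mz s * s.im ^ (-(5 / 4 : ℝ)) * Real.log (s.im + 2) ≤
      h1 ^ (-(5 / 4) : ℝ) * K * (Real.log ((n : ℝ) + 3) ^ 2 * ((n : ℝ) + 1) ^ (-(5 / 4) : ℝ)) := by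
    intro n _
    have hn0 : (0 : ℝ) ≤ n := Nat.cast_nonneg n
    have hflo : ∀ s ∈ S.filter (fun s => N s = n), (n : ℝ) ≤ s.im ∧ s.im < n + 1 := by
      intro s hs
      rw [Finset.mem_filter] at hs
      have := (hS s hs.1).2
      exact (Nat.floor_eq_iff (by linarith)).1 hs.2
    have hlog : 0 ≤ Real.log ((n : ℝ) + 3) := Real.log_nonneg (by linarith)
    calc ∑ s ∈ S.filter (fun s => N s = n), mz s * s.im ^ (-(5 / 4 : ℝ)) * Real.log (s.im + 2)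
        ≤ ∑ s ∈ S.filter (fun s => N s = n),
          mz s * (h1 ^ (-(5 / 4) : ℝ) * ((n : ℝ) + 1) ^ (-(5 / 4) : ℝ)) *
            Real.log ((n : ℝ) + 3) := by
          refine Finset.sum_le_sum fun s hs => ?_
          obtain ⟨h3, h4⟩ := hflo s hs
          have h5 := (hS s (Finset.mem_filter.1 hs).1).2
          have h6 : h1 * ((n : ℝ) + 1) ≤ s.im := by
            have hm1 : min h0 1 ≤ h0 := min_le_left _ _
            have hm2 : min h0 1 ≤ 1 := min_le_right _ _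
            rcases Nat.eq_zero_or_pos n with hn | hn
            · rw [hn, Nat.cast_zero, zero_add, mul_one, hh1]
              linarith
            · have hn1 : (1 : ℝ) ≤ n := by exact_mod_cast hn
              rw [hh1]
              nlinarith
          have h7 : s.im ^ (-(5 / 4 : ℝ)) ≤ h1 ^ (-(5 / 4) : ℝ) * ((n : ℝ) + 1) ^ (-(5 / 4) : ℝ) := by
            rw [← Real.mul_rpow hh1p.le (by linarith)]
            exact Real.rpow_le_rpow_of_nonpos (by positivity) h6 (by norm_num)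
          have h8 : Real.log (s.im + 2) ≤ Real.log ((n : ℝ) + 3) :=
            Real.log_le_log (by linarith) (by linarith)
          have h9 : 0 ≤ Real.log (s.im + 2) := Real.log_nonneg (by linarith)
          have h10 := mz_nonneg s
          exact mul_le_mul (mul_le_mul_of_nonneg_left h7 h10) h8 h9 (by positivity)
      _ = (h1 ^ (-(5 / 4) : ℝ) * ((n : ℝ) + 1) ^ (-(5 / 4) : ℝ)) * Real.log ((n : ℝ) + 3) *
          ∑ s ∈ S.filter (fun s => N s = n), mz s := by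
          rw [Finset.mul_sum]
          refine Finset.sum_congr rfl fun s _ => ?_
          ring
      _ ≤ (h1 ^ (-(5 / 4) : ℝ) * ((n : ℝ) + 1) ^ (-(5 / 4) : ℝ)) * Real.log ((n : ℝ) + 3) *
          (K * Real.log ((n : ℝ) + 3)) := by
          refine mul_le_mul_of_nonneg_left ?_ (by positivity)
          have h11 := hc n (S.filter (fun s => N s = n)) fun s hs => by
            obtain ⟨h3, h4⟩ := hflo s hs
            obtain ⟨h5, h6⟩ := hS s (Finset.mem_filter.1 hs).1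
            exact ⟨h5, by linarith, h3, h4.le⟩
          rwa [abs_of_nonneg hn0] at h11
      _ = _ := by ring
  refine (Finset.sum_le_sum h2).trans ?_
  rw [← Finset.mul_sum]
  exact mul_le_mul_of_nonneg_left (hsum.sum_le_tsum (S.image N) fun n _ => hnn n) (by positivity)

/-- the transform of `β` on the imaginary axis -/
noncomputable def Bh (β : ℝ → ℝ) (γ : ℝ) : ℂ := lap (fun x => (β x : ℂ)) ⟨0, γ⟩

variable {β : ℝ → ℝ} {η : ℝ}

lemma Bp.integrable (H : Bp η β) : Integrable β :=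
  H.ew.sc.cont.integrable_of_hasCompactSupport H.ew.sc.cs

lemma norm_cexp_im (γ u : ℝ) : ‖Complex.exp ((⟨0, γ⟩ : ℂ) * (u : ℂ))‖ = 1 := by
  rw [Complex.norm_exp]
  simp

lemma Bp.int_exp (H : Bp η β) (γ : ℝ) :
    Integrable (fun u : ℝ => (β u : ℂ) * Complex.exp ((⟨0, γ⟩ : ℂ) * (u : ℂ))) := by
  have h1 : Continuous (fun u : ℝ => (β u : ℂ)) := Complex.continuous_ofReal.comp H.ew.sc.cont
  refine (h1.mul (by fun_prop)).integrable_of_hasCompactSupport ?_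
  have h2 : HasCompactSupport (fun u : ℝ => (β u : ℂ)) :=
    H.ew.sc.cs.comp_left (g := fun r : ℝ => (r : ℂ)) (by simp)
  exact h2.mul_right

lemma Bh_zero (H : Bp η β) : Bh β 0 = 1 := by
  unfold Bh lap
  have e : ∀ u : ℝ, (β u : ℂ) * Complex.exp ((⟨0, 0⟩ : ℂ) * (u : ℂ)) = (β u : ℂ) := by
    intro u
    have : (⟨0, 0⟩ : ℂ) = 0 := rfl
    rw [this, zero_mul, Complex.exp_zero, mul_one]
  simp_rw [e]
  rw [integral_complex_ofReal, H.one]
  simp

lemma Bh_le (H : Bp η β) (γ : ℝ) : ‖Bh β γ‖ ≤ 1 := by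
  unfold Bh lap
  refine (norm_integral_le_integral_norm _).trans ?_
  have e : ∀ u : ℝ, ‖(β u : ℂ) * Complex.exp ((⟨0, γ⟩ : ℂ) * (u : ℂ))‖ = β u := by
    intro u
    rw [norm_mul, norm_cexp_im, mul_one, Complex.norm_real, Real.norm_eq_abs,
      abs_of_nonneg (H.nonneg u)]
  simp_rw [e]
  exact H.one.le

lemma exp_lip (γ γ' u : ℝ) : ‖Complex.exp ((⟨0, γ⟩ : ℂ) * (u : ℂ)) -
    Complex.exp ((⟨0, γ'⟩ : ℂ) * (u : ℂ))‖ ≤ |u| * |γ - γ'| := by
  have e1 : ∀ c : ℝ, (⟨0, c⟩ : ℂ) * (u : ℂ) = ((c * u : ℝ) : ℂ) * Complex.I := by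
    intro c
    apply Complex.ext <;> simp
  rw [e1, e1]
  have h4 : Complex.exp (((γ * u : ℝ) : ℂ) * Complex.I) - Complex.exp (((γ' * u : ℝ) : ℂ) * Complex.I) =
      Complex.exp (((γ' * u : ℝ) : ℂ) * Complex.I) *
        (Complex.exp (Complex.I * ((γ * u - γ' * u : ℝ) : ℂ)) - 1) := by
    rw [mul_sub, ← Complex.exp_add, mul_one]
    congr 2
    push_cast
    ring
  rw [h4, norm_mul, Complex.norm_exp_ofReal_mul_I, one_mul]
  refine (Real.norm_exp_I_mul_ofReal_sub_one_le).trans ?_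
  rw [← sub_mul, Real.norm_eq_abs, abs_mul, mul_comm]

lemma Bh_lip (_hη : 0 < η) (H : Bp η β) (γ γ' : ℝ) : ‖Bh β γ - Bh β γ'‖ ≤ η * |γ - γ'| := by
  unfold Bh lap
  rw [← integral_sub (Bp.int_exp H γ) (Bp.int_exp H γ')]
  have hb : Integrable (fun u : ℝ => β u * (η * |γ - γ'|)) := (Bp.integrable H).mul_const _
  refine (norm_integral_le_of_norm_le hb (Eventually.of_forall fun u => ?_)).trans ?_
  · rw [← mul_sub, norm_mul, Complex.norm_real, Real.norm_eq_abs, abs_of_nonneg (H.nonneg u)]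
    by_cases hu : η < |u|
    · rw [H.supp u hu, zero_mul, zero_mul]
    · push Not at hu
      refine mul_le_mul_of_nonneg_left ((exp_lip γ γ' u).trans ?_) (H.nonneg u)
      exact mul_le_mul_of_nonneg_right hu (abs_nonneg _)
  · rw [integral_mul_const, H.one, one_mul]

lemma Bh_one (hη : 0 < η) (H : Bp η β) (γ : ℝ) : 1 - ‖Bh β γ‖ ^ 2 ≤ 2 * (η * |γ|) := by
  have h1 := Bh_lip hη H 0 γ
  rw [Bh_zero H, zero_sub, abs_neg] at h1
  have h2 := Bh_le H γ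
  have h3 := norm_nonneg (Bh β γ)
  have h4 : 1 - ‖Bh β γ‖ ≤ ‖1 - Bh β γ‖ := by
    have := norm_sub_norm_le (1 : ℂ) (Bh β γ)
    rwa [norm_one] at this
  nlinarith

/-- the coefficients -/
noncomputable def aB (β : ℝ → ℝ) (T γ : ℝ) : ℂ := aT T ⟨1 / 2, γ⟩ * Bh β γ

lemma coef (h0 : ℝ) (hh : 0 < h0) : ∃ C : ℝ, 0 < C ∧ ∀ (T η : ℝ) (β : ℝ → ℝ), 2 ≤ T → 0 < η →
    η ≤ 1 / T ^ 2 → Bp η β → Pool.Agent.N704.PV3.Coef h0 C T (aB β T) := by
  obtain ⟨C, hC, h⟩ := Pool.Agent.N755.PV3a.main h0 hh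
  refine ⟨C + C + 2 * C ^ 2, by positivity, fun T η β hT hη hη2 H => ?_⟩
  obtain ⟨h1, h2, h3⟩ := h T hT
  have hT0 : 0 < T := by linarith
  have hbd : ∀ γ : ℝ, h0 ≤ γ → ‖aT T ⟨1 / 2, γ⟩‖ ≤ C / T ∧ ‖aT T ⟨1 / 2, γ⟩‖ ≤ C / γ := by
    intro γ hγ
    have hγ0 : 0 < γ := by linarith
    have := h1 (1 / 2) γ (by rw [abs_of_pos (by norm_num)]; norm_num) hγ0.ne'
    rwa [abs_of_pos hγ0] at this
  have hle : ∀ γ : ℝ, ‖aB β T γ‖ ≤ ‖aT T ⟨1 / 2, γ⟩‖ := by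
    intro γ
    unfold aB
    rw [norm_mul]
    exact mul_le_of_le_one_right (norm_nonneg _) (Bh_le H γ)
  have hCC : C ≤ C + C + 2 * C ^ 2 := by nlinarith [sq_nonneg C]
  have hη1 : η ≤ 1 / T := by
    refine hη2.trans ?_
    rw [div_le_div_iff₀ (by positivity) hT0]
    nlinarith
  refine ⟨hh, by positivity, fun γ hγ => ?_, fun γ hγ => ?_, fun γ γ' hγ hγ' => ?_, fun γ hγ => ?_⟩
  · refine ((hle γ).trans (hbd γ hγ).1).trans ?_
    gcongr
  · refine ((hle γ).trans (hbd γ hγ).2).trans ?_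
    have : 0 < γ := by linarith
    gcongr
  · have g0 : 0 < γ := by linarith
    have g0' : 0 < γ' := by linarith
    have hm : 0 < min γ γ' := lt_min g0 g0'
    set μ := min (1 / T) (1 / min γ γ') with hμ
    have hμ0 : 0 < μ := lt_min (by positivity) (by positivity)
    have e : aB β T γ - aB β T γ' = (aT T ⟨1 / 2, γ⟩ - aT T ⟨1 / 2, γ'⟩) * Bh β γ +
        aT T ⟨1 / 2, γ'⟩ * (Bh β γ - Bh β γ') := by
      unfold aB
      ring
    rw [e]
    refine (norm_add_le _ _).trans ?_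
    rw [norm_mul, norm_mul]
    have t1 : ‖aT T ⟨1 / 2, γ⟩ - aT T ⟨1 / 2, γ'⟩‖ * ‖Bh β γ‖ ≤ C * |γ - γ'| / T * μ := by
      calc _ ≤ ‖aT T ⟨1 / 2, γ⟩ - aT T ⟨1 / 2, γ'⟩‖ * 1 :=
            mul_le_mul_of_nonneg_left (Bh_le H γ) (norm_nonneg _)
        _ ≤ _ := by
            rw [mul_one]
            exact h2 γ γ' hγ hγ'
    have t2 : ‖aT T ⟨1 / 2, γ'⟩‖ ≤ C * μ := by
      rw [hμ, mul_min_of_nonneg _ _ hC.le]
      refine le_min ?_ ?_
      · rw [mul_one_div]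
        exact (hbd γ' hγ').1
      · rw [mul_one_div]
        refine (hbd γ' hγ').2.trans ?_
        exact div_le_div_of_nonneg_left hC.le hm (min_le_right _ _)
    have t3 : ‖Bh β γ - Bh β γ'‖ ≤ 1 / T * |γ - γ'| :=
      (Bh_lip hη H γ γ').trans (mul_le_mul_of_nonneg_right hη1 (abs_nonneg _))
    have t4 : ‖aT T ⟨1 / 2, γ'⟩‖ * ‖Bh β γ - Bh β γ'‖ ≤ C * μ * (1 / T * |γ - γ'|) :=
      mul_le_mul t2 t3 (norm_nonneg _) (by positivity)
    have hx : 0 ≤ |γ - γ'| / T * μ := by positivity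
    calc _ ≤ C * |γ - γ'| / T * μ + C * μ * (1 / T * |γ - γ'|) := add_le_add t1 t4
      _ = (C + C) * (|γ - γ'| / T * μ) := by ring
      _ ≤ (C + C + 2 * C ^ 2) * (|γ - γ'| / T * μ) := by
          refine mul_le_mul_of_nonneg_right ?_ hx
          nlinarith [sq_nonneg C]
      _ = _ := by ring
  · have g0 : 0 < γ := by linarith
    have e : T ^ 2 * ‖aB β T γ‖ ^ 2 - ph (γ / T) = (T ^ 2 * ‖aT T ⟨1 / 2, γ⟩‖ ^ 2 - ph (γ / T)) -
        T ^ 2 * ‖aT T ⟨1 / 2, γ⟩‖ ^ 2 * (1 - ‖Bh β γ‖ ^ 2) := by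
      unfold aB
      rw [norm_mul]
      ring
    rw [e]
    refine (abs_sub _ _).trans ?_
    have t1 := h3 γ hγ
    have hB1 : 0 ≤ 1 - ‖Bh β γ‖ ^ 2 := by
      have := Bh_le H γ
      have := norm_nonneg (Bh β γ)
      nlinarith
    have hB2 := Bh_one hη H γ
    rw [abs_of_pos g0] at hB2
    have hB3 : 1 - ‖Bh β γ‖ ^ 2 ≤ 2 * (1 / T ^ 2 * γ) := by
      refine hB2.trans ?_
      gcongr
    have t2 : |T ^ 2 * ‖aT T ⟨1 / 2, γ⟩‖ ^ 2 * (1 - ‖Bh β γ‖ ^ 2)| ≤ 2 * C ^ 2 / γ := by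
      rw [abs_of_nonneg (by positivity)]
      have h4 : ‖aT T ⟨1 / 2, γ⟩‖ ^ 2 ≤ (C / γ) ^ 2 :=
        pow_le_pow_left₀ (norm_nonneg _) (hbd γ hγ).2 2
      calc T ^ 2 * ‖aT T ⟨1 / 2, γ⟩‖ ^ 2 * (1 - ‖Bh β γ‖ ^ 2)
          ≤ T ^ 2 * (C / γ) ^ 2 * (2 * (1 / T ^ 2 * γ)) := by gcongr
        _ = 2 * C ^ 2 / γ := by
            field_simp
    calc _ ≤ C / γ + 2 * C ^ 2 / γ := add_le_add t1 t2
      _ ≤ C / γ + 2 * C ^ 2 / γ + C / γ := by
          have : 0 < C / γ := by positivity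
          linarith
      _ = _ := by ring

/-- all the ordinates are at least `h0` -/
lemma low : ∃ h0 : ℝ, 0 < h0 ∧ ∀ s : ℂ, s ∈ Zr → 0 < s.im → h0 ≤ s.im := by
  by_cases hne : (Zt 1).Nonempty
  · obtain ⟨s0, hs0, hmin⟩ := Finset.exists_min_image (Zt 1) (fun s => s.im) hne
    rw [mem_Zt] at hs0
    refine ⟨min 1 s0.im, lt_min one_pos hs0.2.2.1, fun s hs h => ?_⟩
    rcases le_total 1 s.im with h1 | h1
    · exact (min_le_left _ _).trans h1
    · refine (min_le_right _ _).trans (hmin s ?_)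
      rw [mem_Zt]
      exact ⟨hs.2.1, hs.2.2, h, h1, hs.1⟩
  · refine ⟨1, one_pos, fun s hs h => ?_⟩
    by_contra hcon
    push Not at hcon
    refine hne ⟨s, ?_⟩
    rw [mem_Zt]
    exact ⟨hs.2.1, hs.2.2, h, hcon.le, hs.1⟩

/-- no zero is real -/
lemma im_ne {s : ℂ} (hs : s ∈ Zr) : s.im ≠ 0 := by
  intro h
  have e : s = ((s.re : ℝ) : ℂ) := by
    apply Complex.ext
    · simp
    · simp [h]
  have := Pool.Agent.N804.LI.zeta_real_ne hs.2.1 hs.2.2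
  rw [← e] at this
  exact this hs.1

lemma re_half (RH : RiemannHypothesis) {s : ℂ} (hs : s ∈ Zr) : s.re = 1 / 2 := by
  obtain ⟨h1, h2, h3⟩ := hs
  refine RH s h1 ?_ ?_
  · rintro ⟨n, rfl⟩
    simp at h2
    have : (0 : ℝ) ≤ n := Nat.cast_nonneg n
    linarith
  · rintro rfl
    simp at h3

lemma one_sub (RH : RiemannHypothesis) {s : ℂ} (hs : s ∈ Zr) : 1 - s = (starRingEnd ℂ) s := by
  have := re_half RH hs
  apply Complex.ext
  · simp [this]
    norm_num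
  · simp

lemma lap_conj (β : ℝ → ℝ) (z : ℂ) : lap (fun x => (β x : ℂ)) ((starRingEnd ℂ) z) =
    (starRingEnd ℂ) (lap (fun x => (β x : ℂ)) z) := by
  unfold lap
  rw [← integral_conj]
  congr 1
  funext u
  rw [map_mul, Complex.conj_ofReal, ← Complex.exp_conj, map_mul, Complex.conj_ofReal]

lemma aT_conj (T : ℝ) {s : ℂ} (hs : s ≠ 0) : aT T ((starRingEnd ℂ) s) =
    (starRingEnd ℂ) (aT T s) := by
  have hs' : (starRingEnd ℂ) s ≠ 0 := by
    intro h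
    exact hs ((map_eq_zero _).1 h)
  rw [Pool.Agent.N755.PV3a.aT_eq T s hs, Pool.Agent.N755.PV3a.aT_eq T _ hs', map_div₀, map_sub,
    map_one, ← Complex.exp_conj, map_mul, Complex.conj_ofReal]


/-- the term of the sum over the zeros -/
noncomputable def trm (β : ℝ → ℝ) (T y : ℝ) (s : ℂ) : ℂ := (mult s : ℂ) *
  (Complex.exp ((s - 1 / 2) * y) * lap (fun x => (β x : ℂ)) (s - 1 / 2) * aT T s)

lemma trm_upper (RH : RiemannHypothesis) (β : ℝ → ℝ) (T y : ℝ) {s : ℂ} (hs : s ∈ Zr) :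
    (trm β T y s).re = mz s * Pool.Agent.N704.PV3.FF (aB β T s.im) s.im y := by
  have h1 := re_half RH hs
  have e1 : s - 1 / 2 = ⟨0, s.im⟩ := by
    apply Complex.ext
    · simp [h1]
    · simp
  have e2 : s = ⟨1 / 2, s.im⟩ := by
    apply Complex.ext
    · simp [h1]
    · simp
  unfold trm
  rw [Pool.Agent.N704.PV3.FF_eq, e1]
  have e3 : aB β T s.im = aT T s * lap (fun x => (β x : ℂ)) ⟨0, s.im⟩ := by
    unfold aB Bh
    rw [← e2]
  have e4 : (⟨0, s.im⟩ : ℂ) * (y : ℂ) = ((y * s.im : ℝ) : ℂ) * Complex.I := by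
    apply Complex.ext
    · simp
    · simp
      ring
  rw [e3, e4]
  have e5 : mz s = ((mult s : ℕ) : ℝ) := rfl
  rw [e5]
  have e6 : ((mult s : ℕ) : ℂ) = (((mult s : ℕ) : ℝ) : ℂ) := by simp
  rw [e6, Complex.re_ofReal_mul]
  congr 2
  ring

lemma trm_conj (RH : RiemannHypothesis) (β : ℝ → ℝ) (T y : ℝ) {s : ℂ} (hs : s ∈ Zr) :
    trm β T y (1 - s) = (starRingEnd ℂ) (trm β T y s) := by
  have hs0 : s ≠ 0 := by
    rintro rfl
    have := hs.2.1
    simp at this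
  unfold trm
  rw [Pool.Agent.W8.WP.mult_symm hs, one_sub RH hs, aT_conj T hs0, map_mul, map_mul, map_mul,
    ← lap_conj, ← Complex.exp_conj, map_mul, map_sub, Complex.conj_ofReal]
  have h2 : (starRingEnd ℂ) (1 / 2) = 1 / 2 := by
    rw [map_div₀, map_one, Complex.conj_ofNat]
  rw [h2]
  simp

/-- the finite set of zeros up to height `n`, both signs -/
noncomputable def Zs (n : ℕ) : Finset ℂ := by
  classical
  exact Zt n ∪ (Zt n).image (fun s => 1 - s)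

lemma Zs_mem {n : ℕ} {s : ℂ} (h : s ∈ Zs n) : s ∈ Zr := by
  classical
  unfold Zs at h
  rw [Finset.mem_union, Finset.mem_image] at h
  rcases h with h | ⟨t, ht, rfl⟩
  · rw [mem_Zt] at h
    exact ⟨h.2.2.2.2, h.1, h.2.1⟩
  · rw [mem_Zt] at ht
    exact Pool.Agent.W8.WP.Zr_symm ⟨ht.2.2.2.2, ht.1, ht.2.1⟩

lemma Zt_Zr {T : ℝ} {s : ℂ} (h : s ∈ Zt T) : s ∈ Zr ∧ 0 < s.im ∧ s.im ≤ T := by
  rw [mem_Zt] at h
  exact ⟨⟨h.2.2.2.2, h.1, h.2.1⟩, h.2.2.1, h.2.2.2.1⟩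

/-- the sum over the zeros up to height `n` -/
noncomputable def Rn (β : ℝ → ℝ) (T : ℝ) (n : ℕ) (y : ℝ) : ℝ :=
  2 * ∑ s ∈ Zt n, mz s * Pool.Agent.N704.PV3.FF (aB β T s.im) s.im y

lemma sum_Zs (RH : RiemannHypothesis) (β : ℝ → ℝ) (T y : ℝ) (n : ℕ) :
    ∑ s ∈ Zs n, trm β T y s = (Rn β T n y : ℂ) := by
  classical
  unfold Zs Rn
  rw [Finset.sum_union]
  · rw [Finset.sum_image (fun a _ b _ hab => by simpa using hab), ← Finset.sum_add_distrib,
      Finset.mul_sum]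
    push_cast
    refine Finset.sum_congr rfl fun s hs => ?_
    have h1 := (Zt_Zr hs).1
    rw [trm_conj RH β T y h1, Complex.add_conj, trm_upper RH β T y h1]
    push_cast
    ring
  · rw [Finset.disjoint_left]
    intro s h1 h2
    rw [Finset.mem_image] at h2
    obtain ⟨t, ht, rfl⟩ := h2
    have h3 := (Zt_Zr h1).2.1
    have h4 := (Zt_Zr ht).2.1
    simp at h3
    linarith

/-- as a finset of the subtype -/
noncomputable def Zsub (n : ℕ) : Finset Zr := by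
  classical
  exact (Zs n).subtype (· ∈ Zr)

lemma Zsub_sum (f : ℂ → ℂ) (n : ℕ) : ∑ s ∈ Zsub n, f s = ∑ s ∈ Zs n, f s := by
  classical
  unfold Zsub
  exact Finset.sum_subtype_of_mem f (fun s hs => Zs_mem hs)

lemma Zsub_tendsto : Tendsto Zsub atTop atTop := by
  classical
  refine tendsto_atTop_finset_of_monotone ?_ ?_
  · intro m n hmn s hs
    unfold Zsub Zs at hs ⊢
    rw [Finset.mem_subtype, Finset.mem_union, Finset.mem_image] at hs ⊢
    have hmn' : (m : ℝ) ≤ n := by exact_mod_cast hmn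
    rcases hs with h | ⟨t, ht, h⟩
    · left
      rw [mem_Zt] at h ⊢
      exact ⟨h.1, h.2.1, h.2.2.1, h.2.2.2.1.trans hmn', h.2.2.2.2⟩
    · right
      refine ⟨t, ?_, h⟩
      rw [mem_Zt] at ht ⊢
      exact ⟨ht.1, ht.2.1, ht.2.2.1, ht.2.2.2.1.trans hmn', ht.2.2.2.2⟩
  · rintro ⟨s, hs⟩
    obtain ⟨n, hn⟩ := exists_nat_ge |s.im|
    refine ⟨n, ?_⟩
    unfold Zsub Zs
    rw [Finset.mem_subtype, Finset.mem_union, Finset.mem_image]
    rcases lt_trichotomy s.im 0 with h | h | h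
    · right
      refine ⟨1 - s, ?_, by ring⟩
      have hs' := Pool.Agent.W8.WP.Zr_symm hs
      rw [mem_Zt]
      refine ⟨hs'.2.1, hs'.2.2, ?_, ?_, hs'.1⟩
      · simpa using h
      · rw [abs_of_neg h] at hn
        simpa using hn
    · exact absurd h (im_ne hs)
    · left
      rw [mem_Zt]
      exact ⟨hs.2.1, hs.2.2, h, (le_abs_self _).trans hn, hs.1⟩

/-- the majorant -/
lemma major (RH : RiemannHypothesis) {T η : ℝ} (hT : 2 ≤ T) {β : ℝ → ℝ} (H : Bp η β) :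
    ∃ M : ℝ, 0 ≤ M ∧ ∀ y : ℝ, ∀ ρ : Zr, ‖trm β T y ρ‖ ≤
      M * ((mult (ρ : ℂ) : ℝ) / (1 + (ρ : ℂ).im ^ 2)) := by
  obtain ⟨C, hC, h⟩ := Pool.Agent.N755.PV3a.main 1 one_pos
  obtain ⟨h1, -, -⟩ := h T hT
  have hg : ContDiff ℝ 2 (fun x : ℝ => (β x : ℂ)) := by
    have h2 : ContDiff ℝ 2 β := contDiff_infty.1 H.ew.sc.sm 2
    exact Complex.ofRealCLM.contDiff.comp h2
  have hc : HasCompactSupport (fun u : ℝ => (β u : ℂ)) :=
    H.ew.sc.cs.comp_left (g := fun r : ℝ => (r : ℂ)) (by simp)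
  obtain ⟨A, hA, h2⟩ := Pool.Agent.W8.WP.lap_decay hg hc 1
  have hT0 : 0 < T := by linarith
  refine ⟨A * (C / T), by positivity, fun y ρ => ?_⟩
  have hρ := re_half RH ρ.2
  have e2 : (ρ : ℂ) = ⟨1 / 2, (ρ : ℂ).im⟩ := by
    apply Complex.ext
    · simp [hρ]
    · simp
  have k1 : ‖aT T (ρ : ℂ)‖ ≤ C / T := by
    rw [e2]
    exact (h1 (1 / 2) (ρ : ℂ).im (by rw [abs_of_pos (by norm_num)]; norm_num) (im_ne ρ.2)).1
  have k2 : ‖lap (fun x => (β x : ℂ)) ((ρ : ℂ) - 1 / 2)‖ ≤ A / (1 + (ρ : ℂ).im ^ 2) := by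
    have := h2 ((ρ : ℂ) - 1 / 2) (by simp [hρ])
    simpa using this
  have k3 : ‖Complex.exp (((ρ : ℂ) - 1 / 2) * y)‖ = 1 := by
    rw [Complex.norm_exp]
    simp [hρ]
  unfold trm
  rw [norm_mul, norm_mul, norm_mul, k3, one_mul, Complex.norm_natCast]
  calc (mult (ρ : ℂ) : ℝ) * (‖lap (fun x => (β x : ℂ)) ((ρ : ℂ) - 1 / 2)‖ * ‖aT T (ρ : ℂ)‖)
      ≤ (mult (ρ : ℂ) : ℝ) * (A / (1 + (ρ : ℂ).im ^ 2) * (C / T)) := by
        refine mul_le_mul_of_nonneg_left ?_ (Nat.cast_nonneg _)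
        exact mul_le_mul k2 k1 (norm_nonneg _) (by positivity)
    _ = _ := by ring

lemma lims (RH : RiemannHypothesis) {T η : ℝ} (hT : 2 ≤ T) {β : ℝ → ℝ} (H : Bp η β) :
    ∃ U : ℝ, 0 ≤ U ∧ ∀ y : ℝ, Tendsto (fun n : ℕ => Rn β T n y) atTop (𝓝 (ZS β T y).re) ∧
      ∀ n : ℕ, |Rn β T n y| ≤ U := by
  obtain ⟨M, hM, hb⟩ := major RH hT H
  have hs := Pool.Agent.W8.WP.zr_summable.mul_left M
  refine ⟨∑' ρ : Zr, M * ((mult (ρ : ℂ) : ℝ) / (1 + (ρ : ℂ).im ^ 2)),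
    tsum_nonneg fun ρ => by positivity, fun y => ?_⟩
  have hsm : Summable (fun ρ : Zr => trm β T y ρ) :=
    Summable.of_norm_bounded hs (hb y)
  have hSum : HasSum (fun ρ : Zr => trm β T y ρ) (ZS β T y) := hsm.hasSum
  constructor
  · have h1 := hSum.comp Zsub_tendsto
    have h2 : ∀ n : ℕ, ((fun s : Finset Zr => ∑ ρ ∈ s, trm β T y ρ) ∘ Zsub) n = (Rn β T n y : ℂ) := by
      intro n
      rw [Function.comp_apply, Zsub_sum (trm β T y) n, sum_Zs RH]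
    have h3 := (Complex.continuous_re.tendsto _).comp h1
    refine h3.congr fun n => ?_
    rw [Function.comp_apply, h2, Complex.ofReal_re]
  · intro n
    have h1 : ‖((Rn β T n y : ℝ) : ℂ)‖ ≤ ∑ ρ ∈ Zsub n, M * ((mult (ρ : ℂ) : ℝ) / (1 + (ρ : ℂ).im ^ 2)) := by
      rw [← sum_Zs RH, ← Zsub_sum (trm β T y) n]
      refine (norm_sum_le _ _).trans (Finset.sum_le_sum fun ρ _ => hb y ρ)
    rw [Complex.norm_real, Real.norm_eq_abs] at h1
    exact h1.trans (hs.sum_le_tsum _ fun ρ _ => by positivity)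

lemma FF_cont (z : ℂ) (d : ℝ) : Continuous (fun y : ℝ => Pool.Agent.N704.PV3.FF z d y) := by
  unfold Pool.Agent.N704.PV3.FF
  fun_prop

lemma Rn_cont (β : ℝ → ℝ) (T : ℝ) (n : ℕ) : Continuous (Rn β T n) := by
  unfold Rn
  refine continuous_const.mul (continuous_finsetSum _ fun s _ => ?_)
  exact continuous_const.mul (FF_cont _ _)

/-- letting `ε → 0` -/
lemma eps_lim {w : ℝ → ℝ} (Hw : SC w) {L : ℝ} (hL : 0 < L) (S : Finset ℂ) (g m : ℂ → ℝ)
    (a : ℝ → ℂ) : Tendsto (fun ε : ℝ => ∫ y : ℝ, w (y / L) *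
      (2 * ∑ i ∈ S, m i * Pool.Agent.N704.PV3.FF (Pool.Agent.N704.PV3.bb a ε (g i)) (g i) y) ^ 2)
      (𝓝[>] 0) (𝓝 (∫ y : ℝ, w (y / L) *
      (2 * ∑ i ∈ S, m i * Pool.Agent.N704.PV3.FF (a (g i)) (g i) y) ^ 2)) := by
  have e1 : ∀ ε : ℝ, ∫ y : ℝ, w (y / L) *
      (2 * ∑ i ∈ S, m i * Pool.Agent.N704.PV3.FF (Pool.Agent.N704.PV3.bb a ε (g i)) (g i) y) ^ 2 =
      ∑ i ∈ S, ∑ j ∈ S, 2 * (m i * m j) * (L * Pool.Agent.N704.PV3.V w L
        (Pool.Agent.N704.PV3.bb a ε (g i) * (starRingEnd ℂ) (Pool.Agent.N704.PV3.bb a ε (g j)))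
          (g i - g j) +
      L * Pool.Agent.N704.PV3.V w L (Pool.Agent.N704.PV3.bb a ε (g i) *
        Pool.Agent.N704.PV3.bb a ε (g j)) (g i + g j)) := fun ε =>
    Pool.Agent.N704.PV3.integral_sq S g m (fun i => Pool.Agent.N704.PV3.bb a ε (g i)) Hw hL
  have e2 := Pool.Agent.N704.PV3.integral_sq S g m (fun i => a (g i)) Hw hL
  rw [e2]
  simp_rw [e1]
  have hbb : ∀ γ : ℝ, Tendsto (fun ε : ℝ => Pool.Agent.N704.PV3.bb a ε γ) (𝓝[>] 0) (𝓝 (a γ)) := by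
    intro γ
    have hc : Continuous (fun ε : ℝ => Pool.Agent.N704.PV3.bb a ε γ) := by
      unfold Pool.Agent.N704.PV3.bb
      fun_prop
    have h0 : Pool.Agent.N704.PV3.bb a 0 γ = a γ := by
      unfold Pool.Agent.N704.PV3.bb
      simp
    have := (hc.tendsto 0).mono_left (nhdsWithin_le_nhds (s := Set.Ioi (0 : ℝ)))
    rwa [h0] at this
  have hV : ∀ d : ℝ, Continuous (fun z : ℂ => Pool.Agent.N704.PV3.V w L z d) := by
    intro d
    unfold Pool.Agent.N704.PV3.V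
    fun_prop
  refine tendsto_finsetSum _ fun i _ => tendsto_finsetSum _ fun j _ => ?_
  refine Tendsto.const_mul _ (Tendsto.add (Tendsto.const_mul _ ?_) (Tendsto.const_mul _ ?_))
  · exact ((hV _).tendsto _).comp ((hbb (g i)).mul
      ((Complex.continuous_conj.tendsto _).comp (hbb (g j))))
  · exact ((hV _).tendsto _).comp ((hbb (g i)).mul (hbb (g j)))

/-- the double sum restricted to the zeros up to `T ^ 2` -/
lemma double_sum (w : ℝ → ℝ) (T : ℝ) (n : ℕ) (hn : T ^ 2 ≤ n) :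
    ∑ i ∈ Zt n, ∑ j ∈ Zt n, mz i * mz j * (if i.im ≤ T ^ 2 ∧ j.im ≤ T ^ 2 then
        2 / (T * Real.log T) * (ph (max i.im j.im / T) *
          CT w ((i.im - j.im) * Real.log T / (2 * Real.pi))) else 0) = RP w T := by
  classical
  have hf : Zt (T ^ 2) = (Zt n).filter (fun s => s.im ≤ T ^ 2) := by
    ext s
    rw [Finset.mem_filter, mem_Zt, mem_Zt]
    constructor
    · rintro ⟨a1, a2, a3, a4, a5⟩
      exact ⟨⟨a1, a2, a3, a4.trans hn, a5⟩, a4⟩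
    · rintro ⟨⟨a1, a2, a3, a4, a5⟩, a6⟩
      exact ⟨a1, a2, a3, a6, a5⟩
  unfold RP
  rw [hf, Finset.sum_filter]
  refine Finset.sum_congr rfl fun i _ => ?_
  by_cases hi : i.im ≤ T ^ 2
  · rw [if_pos hi, Finset.sum_filter]
    refine Finset.sum_congr rfl fun j _ => ?_
    by_cases hj : j.im ≤ T ^ 2
    · rw [if_pos hj, if_pos ⟨hi, hj⟩]
    · rw [if_neg hj, if_neg (fun h => hj h.2), mul_zero]
  · rw [if_neg hi]
    refine Finset.sum_eq_zero fun j _ => ?_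
    rw [if_neg (fun h => hi h.1), mul_zero]

end H479.V.C2L

namespace H479.V

open C2L
open Pool.Agent.Y744 (Zt mz mem_Zt mz_nonneg)
open Pool.Agent.N804 (SC)

theorem c2 : S_C2 := by
  intro RH w Hw
  obtain ⟨h0, hh0, hlow⟩ := low
  obtain ⟨C, hC, hcoef⟩ := coef h0 hh0
  obtain ⟨K1, hK1, hc1⟩ := count1
  obtain ⟨K2, hK2, hc2⟩ := count2 h0 hh0
  obtain ⟨D, hD, hcore⟩ := Pool.Agent.N704.PV3.core Hw (h0 := h0) (C := C) (C1 := K1 + K2)
    (by positivity)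
  refine ⟨D, max 2 (Real.exp (2 * Real.pi)), le_max_left _ _, fun T hT η β hη hη2 H => ?_⟩
  have hT2 : 2 ≤ T := (le_max_left _ _).trans hT
  have hT0 : 0 < T := by linarith
  have hL : 2 * Real.pi ≤ Real.log T := by
    rw [Real.le_log_iff_exp_le hT0]
    exact (le_max_right _ _).trans hT
  have hpi := Real.pi_gt_three
  have hL0 : 0 < Real.log T := by linarith
  set L := Real.log T with hLdef
  have hcf := hcoef T η β hT2 hη hη2 H
  -- finite sets of zeros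
  have hfin : ∀ n : ℕ, T ^ 2 ≤ n →
      |T / L ^ 2 * (∫ y : ℝ, w (y / L) * Rn β T n y ^ 2) - RP w T| ≤ D * T ^ (-(1 / 2) : ℝ) := by
    intro n hn
    have hS : ∀ s ∈ Zt n, s ∈ Pool.Agent.W187.WP.Zr ∧ 0 < s.im := fun s hs =>
      ⟨(Zt_Zr hs).1, (Zt_Zr hs).2.1⟩
    have hS' : ∀ s ∈ Zt n, s ∈ Pool.Agent.W187.WP.Zr ∧ h0 ≤ s.im := fun s hs =>
      ⟨(hS s hs).1, hlow s (hS s hs).1 (hS s hs).2⟩
    have key : ∀ ε : ℝ, 0 < ε → ε ≤ 1 / T ^ 3 →
        |T / L ^ 2 * (∫ y : ℝ, w (y / L) * (2 * ∑ i ∈ Zt n, mz i *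
          Pool.Agent.N704.PV3.FF (Pool.Agent.N704.PV3.bb (aB β T) ε i.im) i.im y) ^ 2) -
          RP w T| ≤ D * T ^ (-(1 / 2) : ℝ) := by
      intro ε hε hε3
      have h1 := hcore T L ε (aB β T) hL hcf (by linarith) hε hε3 ℂ (Zt n) (fun s => s.im) mz
        (fun i hi => ⟨(hS' i hi).2, mz_nonneg i⟩)
        (fun t ht => (hc1 (Zt n) hS t ht).trans (mul_le_mul_of_nonneg_right (by linarith)
          (Real.log_nonneg (by linarith))))
        ((hc2 (Zt n) hS').trans (by linarith))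
      rw [← double_sum w T n hn]
      exact h1
    have hlim := eps_lim Hw hL0 (Zt n) (fun s => s.im) mz (aB β T)
    have hlim2 := ((hlim.const_mul (T / L ^ 2)).sub_const (RP w T)).abs
    refine le_of_tendsto hlim2 ?_
    have hpos : (0 : ℝ) < 1 / T ^ 3 := by positivity
    filter_upwards [Ioo_mem_nhdsGT hpos] with ε hε
    exact key ε hε.1 hε.2.le
  -- all zeros
  obtain ⟨U, hU, hl⟩ := lims RH hT2 H
  have hw : Continuous (fun y : ℝ => w (y / L)) := Hw.cont.comp (by fun_prop)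
  have hwi : Integrable (fun y : ℝ => w (y / L)) := by
    have h1 : Integrable w := Hw.cont.integrable_of_hasCompactSupport Hw.cs
    exact h1.comp_div hL0.ne'
  have hdom : Tendsto (fun n : ℕ => ∫ y : ℝ, w (y / L) * Rn β T n y ^ 2) atTop
      (𝓝 (∫ y : ℝ, w (y / L) * (ZS β T y).re ^ 2)) := by
    refine tendsto_integral_of_dominated_convergence (fun y => |w (y / L)| * U ^ 2)
      (fun n => (hw.mul ((Rn_cont β T n).pow 2)).aestronglyMeasurable)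
      (hwi.abs.mul_const _) (fun n => Eventually.of_forall fun y => ?_)
      (Eventually.of_forall fun y => ?_)
    · rw [Real.norm_eq_abs, abs_mul, abs_pow]
      refine mul_le_mul_of_nonneg_left ?_ (abs_nonneg _)
      exact pow_le_pow_left₀ (abs_nonneg _) ((hl y).2 n) 2
    · exact (((hl y).1).pow 2).const_mul _
  have hlim3 := ((hdom.const_mul (T / L ^ 2)).sub_const (RP w T)).abs
  refine le_of_tendsto hlim3 ?_
  obtain ⟨n0, hn0⟩ := exists_nat_ge (T ^ 2)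
  filter_upwards [eventually_ge_atTop n0] with n hn
  refine hfin n (hn0.trans ?_)
  exact_mod_cast hn

end H479.V
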