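import Pool.Agent.H479.V.Stm2
import Pool.Graph.R_pool_sql_team_seeded_63374d34.N278.PV_2

/-!
# H479-CNV: from the pair functional to the variance
-/

open MeasureTheory Filter Topology

namespace H479.V

open H479.P
open H479.U hiding mz_nonneg
open Pool.Agent.Y744 TH803TW
open Pool.Agent.N804 (SC CT)
open Pool.Agent.N804.PV (DT GV ph aT)

namespace CNV

/-- the even part -/
noncomputable def evn (w : ℝ → ℝ) (x : ℝ) : ℝ := (w x + w (-x)) / 2

theorem neg_sc {w : ℝ → ℝ} (hw : SC w) : SC (fun x => w (-x)) := by
  refine ⟨hw.sm.comp contDiff_neg, ?_⟩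
  exact hw.cs.comp_homeomorph (Homeomorph.neg ℝ)

theorem evn_ew {w : ℝ → ℝ} (hw : SC w) : EW (evn w) := by
  have h := neg_sc hw
  refine ⟨⟨?_, ?_⟩, ?_⟩
  · exact (hw.sm.add h.sm).div_const 2
  · have h1 : HasCompactSupport (fun x => w x + w (-x)) := hw.cs.add h.cs
    have e : evn w = fun x => (w x + w (-x)) * (1 / 2) := by
      funext x; unfold evn; ring
    rw [e]
    exact h1.mul_right
  · intro x
    unfold evn
    rw [neg_neg]
    ring

theorem int_evn {w g : ℝ → ℝ} (hw : SC w) (hg : Continuous g) (he : ∀ x, g (-x) = g x) :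
    ∫ x, evn w x * g x = ∫ x, w x * g x := by
  have i1 : Integrable (fun x => w x * g x) := by
    apply Continuous.integrable_of_hasCompactSupport
    · exact hw.sm.continuous.mul hg
    · exact hw.cs.mul_right
  have i2 : Integrable (fun x => w (-x) * g x) := by
    apply Continuous.integrable_of_hasCompactSupport
    · exact (neg_sc hw).sm.continuous.mul hg
    · exact (neg_sc hw).cs.mul_right
  have e1 : ∫ x, w (-x) * g x = ∫ x, w x * g x := by
    rw [← integral_neg_eq_self (fun x => w x * g x) volume]
    refine integral_congr_ae (Eventually.of_forall fun x => ?_)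
    simp only [he]
  have e2 : ∀ x, evn w x * g x = (1 / 2) * (w x * g x + w (-x) * g x) := by
    intro x; unfold evn; ring
  simp_rw [e2]
  rw [integral_const_mul, integral_add i1 i2, e1]
  ring

theorem CT_evn {w : ℝ → ℝ} (hw : SC w) : CT (evn w) = CT w := by
  funext x
  unfold CT
  apply int_evn hw
  · fun_prop
  · intro y
    have : 2 * Real.pi * -y * x = -(2 * Real.pi * y * x) := by ring
    rw [this, Real.cos_neg]

theorem RP_evn {w : ℝ → ℝ} (hw : SC w) : RP (evn w) = RP w := by
  funext T
  unfold RP
  rw [CT_evn hw]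

theorem Lam_evn {w : ℝ → ℝ} (hw : SC w) (h0 : w 0 = 0) :
    Lam (evn w) = ∫ α, w α * min |α| 1 := by
  unfold Lam
  rw [int_evn hw (g := fun α => min |α| 1) (by fun_prop) (fun x => by rw [abs_neg])]
  unfold evn
  simp [h0]

theorem lim_w (RH : RiemannHypothesis) (hE : S_EFL)
    (h : ∀ w : ℝ → ℝ, EW w → Tendsto (RP w) atTop (𝓝 (Lam w))) {w : ℝ → ℝ} (hw : SC w)
    (h0 : ∀ x, x < 1 / 2 → w x = 0) :
    Tendsto (fun T => ∫ α, w α * ft T α) atTop (𝓝 (∫ α, w α * min |α| 1)) := by
  have h1 := h _ (evn_ew hw)
  rw [RP_evn hw, Lam_evn hw (h0 0 (by norm_num))] at h1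
  have h2 := (hE RH w hw h0).add h1
  rw [zero_add] at h2
  refine h2.congr fun T => ?_
  ring

theorem ft_nonneg {T : ℝ} (hT : 1 < T) (α : ℝ) : 0 ≤ ft T α := by
  unfold ft
  have := Real.log_pos hT
  positivity

theorem ft_meas (T : ℝ) : Measurable (ft T) := by
  unfold ft
  have h1 : Measurable fun α => DT T (α * Real.log T) :=
    (Pool.Agent.N278.PV.meas_DT T).comp (by fun_prop)
  fun_prop

theorem ft_bound {T : ℝ} (hT : 1 < T) (R : ℝ) : ∃ C : ℝ, ∀ α, |α| ≤ R → ‖ft T α‖ ≤ C := by
  have hl := Real.log_pos hT
  refine ⟨T / Real.log T * (Pool.Agent.N278.PV.C1 * Real.exp (R * Real.log T / 2)) ^ 2,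
    fun α hα => ?_⟩
  rw [Real.norm_of_nonneg (ft_nonneg hT α)]
  unfold ft
  have h1 := Pool.Agent.N278.PV.DT_bound hT.le (α * Real.log T)
  have h2 : Real.exp (α * Real.log T / 2) ≤ Real.exp (R * Real.log T / 2) := by
    apply Real.exp_le_exp.2
    have := le_abs_self α
    have : α * Real.log T ≤ R * Real.log T := mul_le_mul_of_nonneg_right (by linarith) hl.le
    linarith
  have h3 : |DT T (α * Real.log T)| ≤ Pool.Agent.N278.PV.C1 * Real.exp (R * Real.log T / 2) :=
    h1.trans (mul_le_mul_of_nonneg_left h2 Pool.Agent.N278.PV.C1_pos.le)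
  have h4 : DT T (α * Real.log T) ^ 2 ≤
      (Pool.Agent.N278.PV.C1 * Real.exp (R * Real.log T / 2)) ^ 2 := by
    rw [← sq_abs]
    exact pow_le_pow_left₀ (abs_nonneg _) h3 2
  have : 0 ≤ T / Real.log T := by positivity
  exact mul_le_mul_of_nonneg_left h4 this

theorem ft_on {T : ℝ} (hT : 1 < T) (a b : ℝ) : IntegrableOn (ft T) (Set.Ioc a b) := by
  obtain ⟨C, hC⟩ := ft_bound hT (max |a| |b|)
  refine Measure.integrableOn_of_bounded (M := C) (by simp) (ft_meas T).aestronglyMeasurable ?_
  refine (ae_restrict_iff' measurableSet_Ioc).2 (Eventually.of_forall fun α hα => ?_)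
  apply hC
  rw [abs_le]
  have h1 := neg_abs_le a
  have h2 := le_abs_self b
  have h3 := le_max_left |a| |b|
  have h4 := le_max_right |a| |b|
  constructor
  · linarith [hα.1]
  · linarith [hα.2]

theorem wft_int {T : ℝ} (hT : 1 < T) {w : ℝ → ℝ} (hw : SC w) : Integrable (fun α => w α * ft T α) := by
  -- `w` is bounded and vanishes outside an interval
  obtain ⟨R, hR⟩ : ∃ R : ℝ, ∀ x, R < |x| → w x = 0 := by
    obtain ⟨R, hR⟩ := hw.cs.isCompact.isBounded.subset_closedBall 0
    refine ⟨R, fun x hx => ?_⟩
    by_contra hc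
    have h1 : x ∈ tsupport w := subset_tsupport _ hc
    have h2 := hR h1
    rw [Metric.mem_closedBall, Real.dist_eq, sub_zero] at h2
    linarith
  obtain ⟨B, hB⟩ : ∃ B : ℝ, ∀ x, ‖w x‖ ≤ B := by
    have := hw.sm.continuous.bounded_above_of_compact_support hw.cs
    obtain ⟨B, hB⟩ := this
    exact ⟨B, hB⟩
  have e : (fun α => w α * ft T α) = fun α => w α * (Set.Ioc (-(|R| + 1)) (|R| + 1)).indicator (ft T) α := by
    funext α
    by_cases hα : α ∈ Set.Ioc (-(|R| + 1)) (|R| + 1)
    · rw [Set.indicator_of_mem hα]
    · rw [Set.indicator_of_notMem hα, hR α, zero_mul, zero_mul]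
      by_contra hc
      apply hα
      have h1 := not_lt.1 hc
      have h2 := le_abs_self R
      have h3 := abs_le.1 h1
      exact ⟨by linarith [h3.1], by linarith [h3.2]⟩
  rw [e]
  refine Integrable.bdd_mul (c := B) ?_ hw.sm.continuous.aestronglyMeasurable ?_
  · rw [integrable_indicator_iff measurableSet_Ioc]
    exact ft_on hT _ _
  · exact Eventually.of_forall hB

theorem main (RH : RiemannHypothesis) (hE : S_EFL)
    (h : ∀ w : ℝ → ℝ, EW w → Tendsto (RP w) atTop (𝓝 (Lam w))) (u v : ℝ) (hu : 1 ≤ u)
    (huv : u < v) : Tendsto (fun T => ∫ α in u..v, ft T α) atTop (𝓝 (v - u)) := by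
  have hg : Continuous fun α : ℝ => min |α| 1 := by fun_prop
  rw [tendsto_order]
  constructor
  · intro a ha
    set δ : ℝ := min ((v - u) / 4) ((v - u - a) / 4) with hδ
    have hδ0 : 0 < δ := lt_min (by linarith) (by linarith)
    have hδ1 : δ ≤ (v - u) / 4 := min_le_left _ _
    have hδ2 : δ ≤ (v - u - a) / 4 := min_le_right _ _
    let f : ContDiffBump ((u + v) / 2) := ⟨(v - u) / 2 - δ, (v - u) / 2, by linarith, by linarith⟩
    have hf : SC f := ⟨f.contDiff, f.hasCompactSupport⟩
    have hz : ∀ x, x ∉ Set.Ioo u v → f x = 0 := by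
      intro x hx
      apply f.zero_of_le_dist
      show (v - u) / 2 ≤ dist x ((u + v) / 2)
      rw [Real.dist_eq]
      by_contra hc
      rw [not_le, abs_lt] at hc
      apply hx
      constructor
      · linarith [hc.1]
      · linarith [hc.2]
    have hone : ∀ x, x ∈ Set.Icc (u + δ) (v - δ) → f x = 1 := by
      intro x hx
      apply f.one_of_mem_closedBall
      show dist x ((u + v) / 2) ≤ (v - u) / 2 - δ
      rw [Real.dist_eq, abs_le]
      constructor
      · linarith [hx.1]
      · linarith [hx.2]
    have h0 : ∀ x, x < 1 / 2 → f x = 0 := by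
      intro x hx
      apply hz
      intro h
      linarith [h.1]
    have hlim := lim_w RH hE h hf h0
    have hL : a < ∫ α, f α * min |α| 1 := by
      have h1 : ∫ α, (Set.Icc (u + δ) (v - δ)).indicator (fun _ => (1 : ℝ)) α ≤
          ∫ α, f α * min |α| 1 := by
        apply integral_mono
        · rw [integrable_indicator_iff measurableSet_Icc]
          exact integrableOn_const (by simp)
        · apply Continuous.integrable_of_hasCompactSupport
          · exact hf.sm.continuous.mul hg
          · exact hf.cs.mul_right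
        · intro α
          by_cases hα : α ∈ Set.Icc (u + δ) (v - δ)
          · show (Set.Icc (u + δ) (v - δ)).indicator (fun _ => (1 : ℝ)) α ≤ f α * min |α| 1
            rw [Set.indicator_of_mem hα, hone α hα]
            have : (1 : ℝ) ≤ |α| := by
              have := le_abs_self α
              linarith [hα.1]
            rw [min_eq_right this]
            norm_num
          · show (Set.Icc (u + δ) (v - δ)).indicator (fun _ => (1 : ℝ)) α ≤ f α * min |α| 1
            rw [Set.indicator_of_notMem hα]
            have := f.nonneg (x := α)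
            positivity
      have h2 : ∫ α, (Set.Icc (u + δ) (v - δ)).indicator (fun _ => (1 : ℝ)) α = v - u - 2 * δ := by
        rw [integral_indicator measurableSet_Icc, setIntegral_const, Real.volume_real_Icc_of_le]
        · simp; ring
        · linarith
      rw [h2] at h1
      linarith
    filter_upwards [hlim.eventually_const_lt hL, eventually_gt_atTop (1 : ℝ)] with T h1 hT
    refine h1.trans_le ?_
    rw [intervalIntegral.integral_of_le huv.le, ← integral_indicator measurableSet_Ioc]
    apply integral_mono (wft_int hT hf)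
    · rw [integrable_indicator_iff measurableSet_Ioc]
      exact ft_on hT _ _
    · intro α
      show f α * ft T α ≤ (Set.Ioc u v).indicator (ft T) α
      have hft := ft_nonneg hT α
      by_cases hα : α ∈ Set.Ioc u v
      · rw [Set.indicator_of_mem hα]
        have := f.le_one (x := α)
        nlinarith
      · rw [Set.indicator_of_notMem hα, hz α (fun h => hα ⟨h.1, h.2.le⟩), zero_mul]
  · intro a ha
    set δ : ℝ := min (1 / 4) ((a - (v - u)) / 4) with hδ
    have hδ0 : 0 < δ := lt_min (by norm_num) (by linarith)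
    have hδ1 : δ ≤ 1 / 4 := min_le_left _ _
    have hδ2 : δ ≤ (a - (v - u)) / 4 := min_le_right _ _
    let f : ContDiffBump ((u + v) / 2) := ⟨(v - u) / 2, (v - u) / 2 + δ, by linarith, by linarith⟩
    have hf : SC f := ⟨f.contDiff, f.hasCompactSupport⟩
    have hz : ∀ x, x ∉ Set.Icc (u - δ) (v + δ) → f x = 0 := by
      intro x hx
      apply f.zero_of_le_dist
      show (v - u) / 2 + δ ≤ dist x ((u + v) / 2)
      rw [Real.dist_eq]
      by_contra hc
      rw [not_le, abs_lt] at hc
      apply hx
      constructor
      · linarith [hc.1]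
      · linarith [hc.2]
    have hone : ∀ x, x ∈ Set.Icc u v → f x = 1 := by
      intro x hx
      apply f.one_of_mem_closedBall
      show dist x ((u + v) / 2) ≤ (v - u) / 2
      rw [Real.dist_eq, abs_le]
      constructor
      · linarith [hx.1]
      · linarith [hx.2]
    have h0 : ∀ x, x < 1 / 2 → f x = 0 := by
      intro x hx
      apply hz
      intro h
      linarith [h.1]
    have hlim := lim_w RH hE h hf h0
    have hL : ∫ α, f α * min |α| 1 < a := by
      have h1 : ∫ α, f α * min |α| 1 ≤
          ∫ α, (Set.Icc (u - δ) (v + δ)).indicator (fun _ => (1 : ℝ)) α := by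
        apply integral_mono
        · apply Continuous.integrable_of_hasCompactSupport
          · exact hf.sm.continuous.mul hg
          · exact hf.cs.mul_right
        · rw [integrable_indicator_iff measurableSet_Icc]
          exact integrableOn_const (by simp)
        · intro α
          by_cases hα : α ∈ Set.Icc (u - δ) (v + δ)
          · show f α * min |α| 1 ≤ (Set.Icc (u - δ) (v + δ)).indicator (fun _ => (1 : ℝ)) α
            rw [Set.indicator_of_mem hα]
            have h3 := f.nonneg (x := α)
            have h4 := f.le_one (x := α)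
            have h5 : min |α| 1 ≤ 1 := min_le_right _ _
            have h6 : 0 ≤ min |α| 1 := by positivity
            nlinarith
          · show f α * min |α| 1 ≤ (Set.Icc (u - δ) (v + δ)).indicator (fun _ => (1 : ℝ)) α
            rw [Set.indicator_of_notMem hα, hz α hα, zero_mul]
      have h2 : ∫ α, (Set.Icc (u - δ) (v + δ)).indicator (fun _ => (1 : ℝ)) α = v - u + 2 * δ := by
        rw [integral_indicator measurableSet_Icc, setIntegral_const, Real.volume_real_Icc_of_le]
        · simp; ring
        · linarith
      rw [h2] at h1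
      linarith
    filter_upwards [hlim.eventually_lt_const hL, eventually_gt_atTop (1 : ℝ)] with T h1 hT
    refine lt_of_le_of_lt ?_ h1
    rw [intervalIntegral.integral_of_le huv.le, ← integral_indicator measurableSet_Ioc]
    apply integral_mono _ (wft_int hT hf)
    · intro α
      show (Set.Ioc u v).indicator (ft T) α ≤ f α * ft T α
      have hft := ft_nonneg hT α
      by_cases hα : α ∈ Set.Ioc u v
      · rw [Set.indicator_of_mem hα, hone α ⟨hα.1.le, hα.2⟩, one_mul]
      · rw [Set.indicator_of_notMem hα]
        exact mul_nonneg f.nonneg hft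
    · rw [integrable_indicator_iff measurableSet_Ioc]
      exact ft_on hT _ _

end CNV

theorem cnv : S_CNV := by
  intro RH hE h u v hu huv
  exact CNV.main RH hE h u v hu huv

end H479.V
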