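import Pool.Agent.H479.V.Stm2

open MeasureTheory Filter Topology

namespace H479.V

open H479.P
open H479.U hiding mz_nonneg
open Pool.Agent.Y744 TH803TW
open Pool.Agent.N804 (SC CT)
open Pool.Agent.N804.PV (DT GV ph aT)

lemma mz_sq (s : ℂ) : mz s ≤ mz s * mz s := by
  unfold mz
  rcases Nat.eq_zero_or_pos (H370.mult riemannZeta s) with h5 | h5
  · rw [h5]; simp
  · have h6 : (1 : ℝ) ≤ (H370.mult riemannZeta s : ℝ) := by exact_mod_cast h5
    nlinarith

lemma NZ_lim : Tendsto (fun T => (∑ s ∈ Zt T, mz s) / (T / (2 * Real.pi) * Real.log T)) atTop (𝓝 1) := by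
  have hpi := Real.pi_pos
  rw [Metric.tendsto_atTop]
  intro ε hε
  obtain ⟨T1, hT1, h1⟩ := N0_upper (ε / 2) (by positivity)
  obtain ⟨T2, hT2, h2⟩ := N0_lower (ε / 2) (by positivity)
  refine ⟨max T1 T2, fun T hT => ?_⟩
  have hTa := (le_max_left T1 T2).trans hT
  have hTb := (le_max_right T1 T2).trans hT
  have hT10 : 10 ≤ T := hT1.trans hTa
  have hL : 0 < Real.log T := Real.log_pos (by linarith)
  have hX : 0 < T / (2 * Real.pi) * Real.log T := by positivity
  have a1 : ∑ s ∈ Zt T, mz s ≤ (1 + ε / 2) * (T / (2 * Real.pi) * Real.log T) := h1 T hTa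
  have a2 : (1 - ε / 2) * (T / (2 * Real.pi) * Real.log T) ≤ ∑ s ∈ Zt T, mz s := h2 T hTb
  rw [Real.dist_eq, abs_lt]
  constructor
  · have : 1 - ε / 2 ≤ (∑ s ∈ Zt T, mz s) / (T / (2 * Real.pi) * Real.log T) := by
      rw [le_div_iff₀ hX]; exact a2
    linarith
  · have : (∑ s ∈ Zt T, mz s) / (T / (2 * Real.pi) * Real.log T) ≤ 1 + ε / 2 := by
      rw [div_le_iff₀ hX]; exact a1
    linarith

lemma N_sharp {v : ℝ} (hv : 0 < v) :
    Tendsto (fun T => ∑ s ∈ Zt (T ^ 2), (if s.im / T ≤ v then mz s * (2 / (T * Real.log T)) else 0)) atTop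
      (𝓝 (v * (1 / Real.pi))) := by
  have hpi := Real.pi_pos
  have hvT : Tendsto (fun T : ℝ => v * T) atTop atTop := tendsto_id.const_mul_atTop hv
  have h1 := NZ_lim.comp hvT
  have h3 := ((logq hv).const_mul (v / Real.pi)).mul h1
  have e : v / Real.pi * 1 * 1 = v * (1 / Real.pi) := by ring
  rw [e] at h3
  refine h3.congr' ?_
  filter_upwards [eventually_ge_atTop 20, eventually_ge_atTop v, hvT.eventually_gt_atTop 1]
    with T hT hT2 hT3
  have hT0 : 0 < T := by linarith
  have hL : 0 < Real.log T := Real.log_pos (by linarith)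
  have hL' : 0 < Real.log (v * T) := Real.log_pos hT3
  have hU2 : v * T ≤ T ^ 2 := by nlinarith
  have e1 : ∑ s ∈ Zt (T ^ 2), (if s.im / T ≤ v then mz s * (2 / (T * Real.log T)) else 0) =
      2 / (T * Real.log T) * ∑ s ∈ Zt (v * T), mz s := by
    rw [← Finset.sum_filter, Finset.mul_sum]
    refine Finset.sum_congr ?_ fun s _ => by ring
    ext s
    rw [Finset.mem_filter, mem_Zt_iff hU2, div_le_iff₀ hT0]
  rw [e1]
  show v / Real.pi * (Real.log (v * T) / Real.log T) *
    ((∑ s ∈ Zt (v * T), mz s) / (v * T / (2 * Real.pi) * Real.log (v * T))) = _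
  field_simp

/-- the diagonal -/
lemma diag : Tendsto (fun T => ∑ s ∈ Zt (T ^ 2), ph (s.im / T) * (mz s * (2 / (T * Real.log T))))
    atTop (𝓝 1) := by
  have hpi := Real.pi_pos
  have hlim : ∃ T0 : ℝ, 20 ≤ T0 ∧ ∀ T : ℝ, T0 ≤ T →
      ∑ s ∈ Zt T, mz s ≤ 2 * (T / (2 * Real.pi) * Real.log T) := by
    obtain ⟨T1, hT1, h1⟩ := N0_upper 1 one_pos
    refine ⟨max T1 20, le_max_right _ _, fun T hT => ?_⟩
    have := h1 T ((le_max_left _ _).trans hT)
    norm_num at this
    exact this
  obtain ⟨V0, hV0, hN⟩ := hlim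
  obtain ⟨M0, hM0⟩ : ∃ M0 : ℝ, M0 = ∑ s ∈ Zt V0, mz s := ⟨_, rfl⟩
  have hM00 : 0 ≤ M0 := by
    rw [hM0]
    exact Finset.sum_nonneg fun s _ => mz_nonneg s
  have h := Pool.Agent.N482.PV.abel ℂ (1 / Real.pi) (2 * M0 + 4) V0 (fun T => Zt (T ^ 2))
    (fun T s => s.im / T) (fun T s => mz s * (2 / (T * Real.log T)))
    (fun T s => mz s * (2 / (T * Real.log T))) ?_ ?_ (fun v hv => N_sharp hv)
  · have e : Real.pi * (1 / Real.pi) = 1 := by field_simp
    rw [e] at h
    exact h
  · intro T hT s hs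
    have hT0 : 0 < T := by linarith
    have hL : 0 < Real.log T := Real.log_pos (by linarith)
    refine ⟨div_pos (im_pos hs) hT0, le_of_eq (abs_of_nonneg ?_)⟩
    have := mz_nonneg s
    positivity
  · intro T hT v hv
    have hT20 : 20 ≤ T := hV0.trans hT
    have hT0 : 0 < T := by linarith
    have hL1 : 1 ≤ Real.log T := by
      rw [Real.le_log_iff_exp_le (by linarith)]
      linarith [Real.exp_one_lt_d9]
    have hL : 0 < Real.log T := by linarith
    obtain ⟨U, hU⟩ : ∃ U : ℝ, U = min (v * T) (T ^ 2) := ⟨_, rfl⟩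
    have hU1 : U ≤ v * T := by rw [hU]; exact min_le_left _ _
    have hU2 : U ≤ T ^ 2 := by rw [hU]; exact min_le_right _ _
    have hU0 : 0 < U := by rw [hU]; exact lt_min (by positivity) (by positivity)
    have e1 : ∑ s ∈ Zt (T ^ 2), (if s.im / T ≤ v then mz s * (2 / (T * Real.log T)) else 0) =
        2 / (T * Real.log T) * ∑ s ∈ Zt U, mz s := by
      rw [← Finset.sum_filter, Finset.mul_sum]
      refine Finset.sum_congr ?_ fun s _ => by ring
      ext s
      rw [Finset.mem_filter, mem_Zt_iff hU2, div_le_iff₀ hT0]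
      constructor
      · rintro ⟨a, b⟩
        exact ⟨a, by rw [hU]; exact le_min b (im_le a)⟩
      · rintro ⟨a, b⟩
        exact ⟨a, b.trans hU1⟩
    show ∑ s ∈ Zt (T ^ 2), (if s.im / T ≤ v then mz s * (2 / (T * Real.log T)) else 0) ≤ _
    rw [e1]
    have hTL1 : 1 ≤ T * Real.log T := by nlinarith
    have h5 : 2 / (T * Real.log T) ≤ 2 := div_le_self (by norm_num) hTL1
    rcases lt_or_ge U V0 with h | h
    · have h3 : ∑ s ∈ Zt U, mz s ≤ M0 := by
        rw [hM0]
        exact Finset.sum_le_sum_of_subset_of_nonneg (Zt_mono h.le) fun s _ _ => mz_nonneg s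
      have h4 : 0 ≤ ∑ s ∈ Zt U, mz s := Finset.sum_nonneg fun s _ => mz_nonneg s
      nlinarith
    · have h3 := hN U h
      have hlU : Real.log U ≤ 2 * Real.log T := by
        have := Real.log_le_log hU0 hU2
        rwa [Real.log_pow, Nat.cast_ofNat] at this
      have h6 : U * Real.log U ≤ (v * T) * (2 * Real.log T) :=
        mul_le_mul hU1 hlU (Real.log_nonneg (by linarith)) (by positivity)
      have h7 : 2 * (U / (2 * Real.pi) * Real.log U) ≤ 2 * v * (T * Real.log T) := by
        have e : 2 * (U / (2 * Real.pi) * Real.log U) = U * Real.log U / Real.pi := by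
          field_simp
        rw [e, div_le_iff₀ hpi]
        have hpi3 := Real.pi_gt_three
        have : 0 ≤ v * (T * Real.log T) := by positivity
        nlinarith
      calc 2 / (T * Real.log T) * ∑ s ∈ Zt U, mz s ≤ 2 / (T * Real.log T) * (2 * v * (T * Real.log T)) :=
            mul_le_mul_of_nonneg_left (h3.trans h7) (by positivity)
        _ = 4 * v := by field_simp; ring
        _ ≤ _ := by nlinarith

theorem dg : S_DG := by
  intro w hw hpos ε hε
  have hw0 : CT w 0 = ∫ x, w x := by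
    unfold CT
    congr 1
    funext x
    simp
  have h0 : 0 ≤ CT w 0 := hpos 0
  have h1 := (diag.const_mul (CT w 0)).eventually (lt_mem_nhds (show CT w 0 * 1 - ε < CT w 0 * 1 by linarith))
  filter_upwards [h1, eventually_ge_atTop 20] with T hT hT20
  have hT0 : 0 < T := by linarith
  have hL : 0 < Real.log T := Real.log_pos (by linarith)
  rw [← hw0]
  have hph : ∀ x : ℝ, 0 ≤ ph x := fun x => by unfold ph; exact sq_nonneg _
  have h2 : CT w 0 * ∑ s ∈ Zt (T ^ 2), ph (s.im / T) * (mz s * (2 / (T * Real.log T))) ≤ RP w T := by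
    unfold RP
    rw [Finset.mul_sum]
    refine Finset.sum_le_sum fun s hs => ?_
    have hnn : ∀ s' ∈ Zt (T ^ 2), 0 ≤ mz s * mz s' *
        (2 / (T * Real.log T) * (ph (max s.im s'.im / T) *
          CT w ((s.im - s'.im) * Real.log T / (2 * Real.pi)))) := fun s' _ =>
      mul_nonneg (mul_nonneg (mz_nonneg _) (mz_nonneg _)) (mul_nonneg (by positivity)
        (mul_nonneg (hph _) (hpos _)))
    refine le_trans ?_ (Finset.single_le_sum hnn hs)
    rw [max_self, sub_self, zero_mul, zero_div]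
    have h3 := mz_sq s
    calc CT w 0 * (ph (s.im / T) * (mz s * (2 / (T * Real.log T)))) =
          mz s * (2 / (T * Real.log T) * (ph (s.im / T) * CT w 0)) := by ring
      _ ≤ _ := mul_le_mul_of_nonneg_right h3 (mul_nonneg (by positivity) (mul_nonneg (hph _) h0))
  linarith

end H479.V
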