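import Pool.Agent.H479.V.Stm
import Pool.Graph.R_pool_sql_team_seeded_63374d34.N278.PV_2

/-!
# Removing the smoothing in the explicit formula for the variance (proved by helper120)

PROOF of `S_EFL` from `S_WEIL` and `S_C2` (both are proved in other subtasks; the theorem takes them as hypotheses).
Let `w` be supported in `[1/2, B]`, `L = log T` large (so that `y ≥ L/2 ≥ 4` on the support of `w(y/L)`).
1. For fixed `T` take `β = β_k` a smooth even bump of width `η_k → 0` (`ContDiffBump 0`, normed; `Bp η_k β_k`). By `S_WEIL`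
   `(ZS β_k T y).re = -D_k(y) - t_k(y)`, `D_k(y) = ∫ β_k(v) DT T (y+v) dv`, `|t_k(y)| ≤ (4/T) e^{-5(y-1)/2}`.
2. `D_k(y) → DT T y` for all `y` at which `DT T` is continuous, i.e. for almost all `y` (`ψ` is monotone: countably many discontinuities,
   `Monotone.countable_not_continuousAt`), and `|D_k(y)|, |DT T y| ≤ C1 e^{(y+1)/2}` (`N278.PV.DT_bound`). Measurability: `N278.PV.meas_DT`.
3. So `∫ w(y/L) D_k(y)² dy → ∫ w(y/L) DT T y² dy` (dominated convergence), and
   `|∫ w(y/L) (D_k + t_k)² - ∫ w(y/L) D_k²| ≤ ‖w‖ ∫_{L/2}^{BL} (2 C1 e^{(y+1)/2} (4/T) e^{-5(y-1)/2} + (16/T²) e^{-5(y-1)}) dy ≤ K/T · e^{-L}` `= K/T²`.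
4. With `S_C2` (for `η_k ≤ 1/T²`) and `k → ∞`: `|T/L² ∫ w(y/L) DT T y² dy - RP w T| ≤ D T^(-1/2) + T/L² · K/T² → 0`, and
   `∫ w α * ft T α dα = T/L² ∫ w(y/L) DT T y² dy` (substitution `y = α L`).
-/

open MeasureTheory Filter Topology

namespace H479.V

open Pool.Agent.Y744 (Zt mz)
open Pool.Agent.N804 (SC CT)
open Pool.Agent.N804.PV (DT GV ph aT)

namespace LMa

/-! ### The bumps -/

/-- a bump of width `η` -/
noncomputable def bmp {η : ℝ} (h : 0 < η) : ContDiffBump (0 : ℝ) where
  rIn := η / 2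
  rOut := η
  rIn_pos := half_pos h
  rIn_lt_rOut := half_lt_self h

/-- the normalised bump of width `η` -/
noncomputable def bb {η : ℝ} (h : 0 < η) : ℝ → ℝ := (bmp h).normed volume

lemma bb_Bp {η : ℝ} (h : 0 < η) : Bp η (bb h) := by
  refine ⟨⟨⟨(bmp h).contDiff_normed, (bmp h).hasCompactSupport_normed⟩,
    fun x => (bmp h).normed_neg x⟩, fun x => (bmp h).nonneg_normed x, (bmp h).integral_normed, ?_⟩
  intro x hx
  have h1 : x ∉ Function.support (bb h) := by
    unfold bb
    rw [ContDiffBump.support_normed_eq]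
    simp only [Metric.mem_ball, dist_zero_right, Real.norm_eq_abs, not_lt]
    exact hx.le
  simpa using h1

/-- the smoothed error -/
noncomputable def Dk (β : ℝ → ℝ) (T y : ℝ) : ℝ := ∫ v, β v * DT T (y + v)

lemma meas_Dk {η : ℝ} {β : ℝ → ℝ} (hβ : Bp η β) (T : ℝ) : Measurable (Dk β T) := by
  have h1 : Measurable fun p : ℝ × ℝ => DT T (p.1 + p.2) :=
    (Pool.Agent.N278.PV.meas_DT T).comp (by fun_prop)
  have h2 : Measurable fun p : ℝ × ℝ => β p.2 := hβ.ew.sc.cont.measurable.comp (by fun_prop)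
  have h3 : StronglyMeasurable (Function.uncurry fun y v : ℝ => β v * DT T (y + v)) := by
    apply Measurable.stronglyMeasurable
    exact h2.mul h1
  exact (h3.integral_prod_right).measurable

lemma Dk_bound {η : ℝ} {β : ℝ → ℝ} (hβ : Bp η β) (hη : η ≤ 1) {T : ℝ} (hT : 1 ≤ T) (y : ℝ) :
    |Dk β T y| ≤ Pool.Agent.N278.PV.C1 * Real.exp ((y + 1) / 2) := by
  have hint : Integrable fun v => β v * (Pool.Agent.N278.PV.C1 * Real.exp ((y + 1) / 2)) :=
    (hβ.ew.sc.cont.integrable_of_hasCompactSupport hβ.ew.sc.cs).mul_const _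
  have h := norm_integral_le_of_norm_le (f := fun v => β v * DT T (y + v)) hint
    (Eventually.of_forall fun v => ?_)
  · rw [integral_mul_const, hβ.one, one_mul, Real.norm_eq_abs] at h
    exact h
  · simp only [norm_mul, Real.norm_eq_abs, abs_of_nonneg (hβ.nonneg v)]
    by_cases hv : η < |v|
    · rw [hβ.supp v hv, zero_mul, zero_mul]
    · refine mul_le_mul_of_nonneg_left ?_ (hβ.nonneg v)
      refine (Pool.Agent.N278.PV.DT_bound hT _).trans ?_
      refine mul_le_mul_of_nonneg_left ?_ Pool.Agent.N278.PV.C1_pos.le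
      apply Real.exp_le_exp.2
      have := le_abs_self v
      push Not at hv
      linarith

lemma locInt_DT {T : ℝ} (hT : 1 ≤ T) : LocallyIntegrable (DT T) := by
  have h1 : LocallyIntegrable fun y : ℝ => Pool.Agent.N278.PV.C1 * Real.exp (y / 2) := by
    apply Continuous.locallyIntegrable
    fun_prop
  refine h1.mono (Pool.Agent.N278.PV.meas_DT T).aestronglyMeasurable
    (Eventually.of_forall fun y => ?_)
  rw [Real.norm_eq_abs, Real.norm_eq_abs, abs_of_pos (mul_pos Pool.Agent.N278.PV.C1_pos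
    (Real.exp_pos _))]
  exact Pool.Agent.N278.PV.DT_bound hT y

lemma Dk_tendsto {T : ℝ} (hT : 1 ≤ T) (η : ℕ → ℝ) (hη : ∀ n, 0 < η n)
    (hlim : Tendsto η atTop (𝓝 0)) :
    ∀ᵐ y : ℝ, Tendsto (fun n => Dk (bb (hη n)) T y) atTop (𝓝 (DT T y)) := by
  have h := ContDiffBump.ae_convolution_tendsto_right_of_locallyIntegrable (μ := volume)
    (φ := fun n => bmp (hη n)) (l := atTop) (K := 2) (g := DT T) hlim
    (Eventually.of_forall fun n => by
      show η n ≤ 2 * (η n / 2)
      linarith) (locInt_DT hT)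
  filter_upwards [h] with y hy
  refine hy.congr fun n => ?_
  unfold Dk
  rw [convolution_def, ← integral_neg_eq_self]
  refine integral_congr_ae (Eventually.of_forall fun v => ?_)
  simp only [ContinuousLinearMap.lsmul_apply, smul_eq_mul, sub_neg_eq_add]
  rw [ContDiffBump.normed_neg]
  rfl

/-! ### Measurability of the sum over the zeros -/

open Pool.Agent.W187.WP in
lemma meas_ZS (hW : S_WEIL) {η : ℝ} {β : ℝ → ℝ} (hβ : Bp η β) (h0 : 0 < η) (hη : η ≤ 1) {T : ℝ}
    (hT : 2 ≤ T) : Measurable (fun y : ℝ => if 3 ≤ y then ZS β T y else 0) := by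
  classical
  set c : Zr → ℂ := fun ρ => (mult ρ : ℂ) * (lap (fun x => (β x : ℂ)) ((ρ : ℂ) - 1 / 2) * aT T ρ)
    with hc
  have hterm : ∀ (y : ℝ) (ρ : Zr), (mult ρ : ℂ) *
      (Complex.exp (((ρ : ℂ) - 1 / 2) * y) * lap (fun x => (β x : ℂ)) ((ρ : ℂ) - 1 / 2) *
        aT T ρ) = c ρ * Complex.exp (((ρ : ℂ) - 1 / 2) * y) := by
    intro y ρ
    rw [hc]
    ring
  have hsum : ∀ y : ℝ, 3 ≤ y → HasSum (fun ρ : Zr => c ρ * Complex.exp (((ρ : ℂ) - 1 / 2) * y))
      (ZS β T y) := by
    intro y hy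
    obtain ⟨t, -, ht⟩ := hW T η y β hT h0 hη hβ hy
    have h1 := ht.summable.hasSum
    simp only [hterm] at h1
    have h2 : ZS β T y = ∑' ρ : Zr, c ρ * Complex.exp (((ρ : ℂ) - 1 / 2) * y) := by
      unfold ZS
      simp only [hterm]
    rw [h2]
    exact h1
  set S : Set Zr := Function.support c with hS
  have hScount : S.Countable := by
    have h3 := (hsum 3 le_rfl).summable.countable_support
    refine h3.mono fun ρ hρ => ?_
    rw [Function.mem_support] at hρ ⊢
    exact mul_ne_zero hρ (Complex.exp_ne_zero _)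
  have : Countable S := hScount
  have hsum2 : ∀ y : ℝ, 3 ≤ y → HasSum (fun ρ : S => c ρ * Complex.exp (((ρ : ℂ) - 1 / 2) * y))
      (ZS β T y) := by
    intro y hy
    have h3 := (hasSum_subtype_iff_of_support_subset (s := S)
      (f := fun ρ : Zr => c ρ * Complex.exp (((ρ : ℂ) - 1 / 2) * y)) (a := ZS β T y) ?_).2 (hsum y hy)
    · exact h3
    · intro ρ hρ
      rw [Function.mem_support] at hρ
      exact left_ne_zero_of_mul hρ
  refine measurable_of_tendsto_metrizable' (atTop : Filter (Finset S))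
    (f := fun (s : Finset S) (y : ℝ) => if 3 ≤ y then
      ∑ ρ ∈ s, c ρ * Complex.exp (((ρ : ℂ) - 1 / 2) * y) else 0) ?_ ?_
  · intro s
    refine Measurable.ite measurableSet_Ici ?_ measurable_const
    fun_prop
  · rw [tendsto_pi_nhds]
    intro y
    by_cases hy : 3 ≤ y
    · simp only [hy, if_true]
      exact hsum2 y hy
    · simp only [hy, if_false]
      exact tendsto_const_nhds

/-! ### The comparison -/

/-- the error constant -/
noncomputable def KC : ℝ := 8 * Pool.Agent.N278.PV.C1 * Real.exp 3 + 16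

lemma KC_pos : 0 < KC := by
  have := Pool.Agent.N278.PV.C1_pos
  unfold KC
  positivity

lemma sq_close {T : ℝ} (hT : 1 ≤ T) (y d t : ℝ) (hy3 : 3 ≤ y) (hy : Real.log T / 2 ≤ y)
    (hd : |d| ≤ Pool.Agent.N278.PV.C1 * Real.exp ((y + 1) / 2))
    (ht : |t| ≤ 4 / T * Real.exp (-(5 / 2 * (y - 1)))) :
    |(-d - t) ^ 2 - d ^ 2| ≤ KC / T ^ 2 := by
  have hT0 : 0 < T := by linarith
  have hC := Pool.Agent.N278.PV.C1_pos
  have e1 : (-d - t) ^ 2 - d ^ 2 = 2 * d * t + t ^ 2 := by ring
  rw [e1]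
  have h1 : |2 * d * t| ≤ 8 * Pool.Agent.N278.PV.C1 * Real.exp 3 / T ^ 2 := by
    rw [abs_mul, abs_mul, abs_two]
    have h2 : |d| * |t| ≤ (Pool.Agent.N278.PV.C1 * Real.exp ((y + 1) / 2)) *
        (4 / T * Real.exp (-(5 / 2 * (y - 1)))) :=
      mul_le_mul hd ht (abs_nonneg _) (by positivity)
    have h3 : Real.exp ((y + 1) / 2) * Real.exp (-(5 / 2 * (y - 1))) ≤ Real.exp 3 / T := by
      have h4 : Real.exp 3 / T = Real.exp (3 - Real.log T) := by
        rw [Real.exp_sub, Real.exp_log hT0]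
      rw [h4, ← Real.exp_add]
      apply Real.exp_le_exp.2
      linarith
    calc 2 * |d| * |t| = 2 * (|d| * |t|) := by ring
      _ ≤ 2 * ((Pool.Agent.N278.PV.C1 * Real.exp ((y + 1) / 2)) *
        (4 / T * Real.exp (-(5 / 2 * (y - 1))))) := by linarith
      _ = 8 * Pool.Agent.N278.PV.C1 / T *
        (Real.exp ((y + 1) / 2) * Real.exp (-(5 / 2 * (y - 1)))) := by ring
      _ ≤ 8 * Pool.Agent.N278.PV.C1 / T * (Real.exp 3 / T) :=
          mul_le_mul_of_nonneg_left h3 (by positivity)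
      _ = _ := by field_simp
  have h2 : |t ^ 2| ≤ 16 / T ^ 2 := by
    have h3 : |t| ≤ 4 / T := by
      refine ht.trans ?_
      have h4 : Real.exp (-(5 / 2 * (y - 1))) ≤ 1 := Real.exp_le_one_iff.2 (by linarith)
      have h5 : 0 ≤ 4 / T := by positivity
      nlinarith
    rw [abs_pow]
    calc |t| ^ 2 ≤ (4 / T) ^ 2 := pow_le_pow_left₀ (abs_nonneg _) h3 2
      _ = 16 / T ^ 2 := by
        rw [div_pow]
        norm_num
  refine (abs_add_le _ _).trans ((add_le_add h1 h2).trans (le_of_eq ?_))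
  unfold KC
  ring

lemma comp (hW : S_WEIL) (w : ℝ → ℝ) (hw : SC w) (hw2 : ∀ x, x < 1 / 2 → w x = 0)
    {B W0 : ℝ} (hB : 0 ≤ B) (hBw : ∀ x, B < x → w x = 0) (hW0 : ∀ x, |w x| ≤ W0)
    {η : ℝ} {β : ℝ → ℝ} (hβ : Bp η β) (h0 : 0 < η) (hη : η ≤ 1) {T : ℝ} (hT : 2 ≤ T)
    (hL : 6 ≤ Real.log T) :
    |(∫ y : ℝ, w (y / Real.log T) * (ZS β T y).re ^ 2) -
      ∫ y : ℝ, w (y / Real.log T) * (Dk β T y) ^ 2| ≤ W0 * KC * B * Real.log T / T ^ 2 := by
  set L := Real.log T with hLdef
  have hT0 : 0 < T := by linarith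
  have hL0 : 0 < L := by linarith
  have hKC := KC_pos
  have hW00 : 0 ≤ W0 := (abs_nonneg _).trans (hW0 0)
  have hwm : Measurable fun y : ℝ => w (y / L) := hw.cont.measurable.comp (by fun_prop)
  -- outside `[0, B L]`
  have hout : ∀ y : ℝ, y ∉ Set.Icc 0 (B * L) → w (y / L) = 0 := by
    intro y hy
    rw [Set.mem_Icc, not_and_or, not_le, not_le] at hy
    rcases hy with hy | hy
    · exact hw2 _ (by
        have : y / L ≤ 0 := div_nonpos_of_nonpos_of_nonneg hy.le hL0.le
        linarith)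
    · exact hBw _ (by rwa [lt_div_iff₀ hL0])
  have hlow : ∀ y : ℝ, w (y / L) ≠ 0 → L / 2 ≤ y := by
    intro y hy
    by_contra hcon
    push Not at hcon
    exact hy (hw2 _ (by rw [div_lt_iff₀ hL0]; linarith))
  -- the first integrand
  set f1 : ℝ → ℝ := fun y => w (y / L) * (ZS β T y).re ^ 2 with hf1
  set f2 : ℝ → ℝ := fun y => w (y / L) * (Dk β T y) ^ 2 with hf2
  have hm1 : Measurable f1 := by
    have h1 := meas_ZS hW hβ h0 hη hT
    have h2 : f1 = fun y => w (y / L) * ((if 3 ≤ y then ZS β T y else 0) : ℂ).re ^ 2 := by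
      funext y
      rw [hf1]
      by_cases hy : 3 ≤ y
      · simp only [hy, if_true]
      · have h3 : w (y / L) = 0 := by
          by_contra hne
          have := hlow y hne
          linarith
        simp only [h3, zero_mul]
    rw [h2]
    exact hwm.mul ((Complex.measurable_re.comp h1).pow_const 2)
  have hm2 : Measurable f2 := hwm.mul ((meas_Dk hβ T).pow_const 2)
  have hdiff : ∀ y : ℝ, |f1 y - f2 y| ≤ Set.indicator (Set.Icc 0 (B * L))
      (fun _ => W0 * (KC / T ^ 2)) y := by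
    intro y
    by_cases hy0 : w (y / L) = 0
    · have h1 : f1 y - f2 y = 0 := by
        simp only [hf1, hf2, hy0, zero_mul, sub_zero]
      rw [h1, abs_zero]
      exact Set.indicator_nonneg (fun _ _ => by positivity) _
    · have hyI : y ∈ Set.Icc 0 (B * L) := by
        by_contra hcon
        exact hy0 (hout y hcon)
      rw [Set.indicator_of_mem hyI]
      have hyl := hlow y hy0
      have hy3 : 3 ≤ y := by linarith
      obtain ⟨t, ht1, ht2⟩ := hW T η y β hT h0 hη hβ hy3
      have h3 : ZS β T y = ((-(∫ v, β v * DT T (y + v)) - t : ℝ) : ℂ) := ht2.tsum_eq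
      have h4 : (ZS β T y).re = -(Dk β T y) - t := by
        rw [h3, Complex.ofReal_re]
        rfl
      have h5 : f1 y - f2 y = w (y / L) * ((-(Dk β T y) - t) ^ 2 - (Dk β T y) ^ 2) := by
        simp only [hf1, hf2, h4]
        ring
      rw [h5, abs_mul]
      refine mul_le_mul (hW0 _) ?_ (abs_nonneg _) hW00
      exact sq_close (by linarith) y _ t hy3 hyl (Dk_bound hβ hη (by linarith) y) ht1
  have hind : Integrable (Set.indicator (Set.Icc 0 (B * L))
      (fun _ : ℝ => W0 * (KC / T ^ 2))) := by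
    rw [integrable_indicator_iff measurableSet_Icc]
    exact integrableOn_const (by simp)
  have hi12 : Integrable fun y => f1 y - f2 y :=
    hind.mono' (hm1.sub hm2).aestronglyMeasurable (Eventually.of_forall fun y => by
      rw [Real.norm_eq_abs]
      exact hdiff y)
  have hi2 : Integrable f2 := by
    have hind2 : Integrable (Set.indicator (Set.Icc 0 (B * L))
        (fun _ : ℝ => W0 * (Pool.Agent.N278.PV.C1 * Real.exp ((B * L + 1) / 2)) ^ 2)) := by
      rw [integrable_indicator_iff measurableSet_Icc]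
      exact integrableOn_const (by simp)
    refine hind2.mono' hm2.aestronglyMeasurable (Eventually.of_forall fun y => ?_)
    rw [Real.norm_eq_abs]
    by_cases hyI : y ∈ Set.Icc 0 (B * L)
    · rw [Set.indicator_of_mem hyI]
      simp only [hf2]
      rw [abs_mul]
      refine mul_le_mul (hW0 _) ?_ (abs_nonneg _) hW00
      rw [abs_pow]
      refine pow_le_pow_left₀ (abs_nonneg _) ?_ 2
      refine (Dk_bound hβ hη (by linarith) y).trans ?_
      refine mul_le_mul_of_nonneg_left (Real.exp_le_exp.2 ?_) Pool.Agent.N278.PV.C1_pos.le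
      linarith [hyI.2]
    · rw [Set.indicator_of_notMem hyI]
      simp only [hf2]
      rw [hout y hyI, zero_mul, abs_zero]
  have hi1 : Integrable f1 := by
    have := hi12.add hi2
    refine this.congr (Eventually.of_forall fun y => ?_)
    simp only [Pi.add_apply, sub_add_cancel]
  rw [← integral_sub hi1 hi2, ← Real.norm_eq_abs]
  refine (norm_integral_le_of_norm_le hind (Eventually.of_forall fun y => by
      rw [Real.norm_eq_abs]
      exact hdiff y)).trans (le_of_eq ?_)
  rw [integral_indicator measurableSet_Icc, setIntegral_const]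
  simp only [Measure.real, Real.volume_Icc, sub_zero, smul_eq_mul]
  rw [ENNReal.toReal_ofReal (by positivity)]
  ring

lemma dom (w : ℝ → ℝ) (hw : SC w) (hw2 : ∀ x, x < 1 / 2 → w x = 0)
    {B W0 : ℝ} (hB : 0 ≤ B) (hBw : ∀ x, B < x → w x = 0) (hW0 : ∀ x, |w x| ≤ W0)
    {T : ℝ} (hT : 1 ≤ T) (hL : 0 < Real.log T)
    (η : ℕ → ℝ) (hη : ∀ n, 0 < η n) (hη1 : ∀ n, η n ≤ 1)
    (hlim : Tendsto η atTop (𝓝 0)) :
    Tendsto (fun n => ∫ y : ℝ, w (y / Real.log T) * (Dk (bb (hη n)) T y) ^ 2) atTop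
      (𝓝 (∫ y : ℝ, w (y / Real.log T) * (DT T y) ^ 2)) := by
  set L := Real.log T with hLdef
  have hW00 : 0 ≤ W0 := (abs_nonneg _).trans (hW0 0)
  have hwm : Measurable fun y : ℝ => w (y / L) := hw.cont.measurable.comp (by fun_prop)
  have hout : ∀ y : ℝ, y ∉ Set.Icc 0 (B * L) → w (y / L) = 0 := by
    intro y hy
    rw [Set.mem_Icc, not_and_or, not_le, not_le] at hy
    rcases hy with hy | hy
    · exact hw2 _ (by
        have : y / L ≤ 0 := div_nonpos_of_nonpos_of_nonneg hy.le hL.le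
        linarith)
    · exact hBw _ (by rwa [lt_div_iff₀ hL])
  refine tendsto_integral_of_dominated_convergence (Set.indicator (Set.Icc 0 (B * L))
        (fun _ : ℝ => W0 * (Pool.Agent.N278.PV.C1 * Real.exp ((B * L + 1) / 2)) ^ 2)) ?_ ?_ ?_ ?_
  · intro n
    exact (hwm.mul ((meas_Dk (bb_Bp (hη n)) T).pow_const 2)).aestronglyMeasurable
  · rw [integrable_indicator_iff measurableSet_Icc]
    exact integrableOn_const (by simp)
  · intro n
    refine Eventually.of_forall fun y => ?_
    rw [Real.norm_eq_abs]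
    by_cases hyI : y ∈ Set.Icc 0 (B * L)
    · rw [Set.indicator_of_mem hyI]
      rw [abs_mul]
      refine mul_le_mul (hW0 _) ?_ (abs_nonneg _) hW00
      rw [abs_pow]
      refine pow_le_pow_left₀ (abs_nonneg _) ?_ 2
      refine (Dk_bound (bb_Bp (hη n)) (hη1 n) hT y).trans ?_
      refine mul_le_mul_of_nonneg_left (Real.exp_le_exp.2 ?_) Pool.Agent.N278.PV.C1_pos.le
      linarith [hyI.2]
    · rw [Set.indicator_of_notMem hyI]
      rw [hout y hyI, zero_mul, abs_zero]
  · filter_upwards [Dk_tendsto hT η hη hlim] with y hy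
    exact (hy.pow 2).const_mul _

lemma subst_ft (w : ℝ → ℝ) {T : ℝ} (hL : 0 < Real.log T) :
    (∫ α, w α * ft T α) = T / Real.log T ^ 2 *
      ∫ y : ℝ, w (y / Real.log T) * (DT T y) ^ 2 := by
  set L := Real.log T with hLdef
  have h := Measure.integral_comp_mul_right (fun y : ℝ => w (y / L) * (DT T y) ^ 2) L
  simp only [mul_div_assoc, div_self hL.ne', mul_one, smul_eq_mul, abs_inv, abs_of_pos hL] at h
  have h2 : (∫ α, w α * ft T α) = T / L * ∫ α, w α * DT T (α * L) ^ 2 := by
    rw [← integral_const_mul]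
    congr 1
    funext α
    unfold ft
    rw [← hLdef]
    ring
  rw [h2, h]
  field_simp

theorem lim (hW : S_WEIL) (hC : S_C2) : S_EFL := by
  intro hRH w hw hw2
  obtain ⟨D, T0, hT02, hD⟩ := hC hRH w hw
  obtain ⟨W0, hW0⟩ := hw.cs.exists_bound_of_continuous hw.cont
  obtain ⟨B, hB, hBw⟩ : ∃ B : ℝ, 0 ≤ B ∧ ∀ x, B < x → w x = 0 := by
    obtain ⟨R, hR, hR2⟩ := hw.cs.exists_pos_le_norm
    refine ⟨R, hR.le, fun x hx => hR2 x ?_⟩
    rw [Real.norm_eq_abs]
    exact hx.le.trans (le_abs_self x)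
  have hW0' : ∀ x, |w x| ≤ W0 := fun x => hW0 x
  have hW00 : 0 ≤ W0 := (abs_nonneg _).trans (hW0' 0)
  have hKC := KC_pos
  -- the bound
  have key : ∀ᶠ T : ℝ in atTop, |(∫ α, w α * ft T α) - RP w T| ≤
      D * T ^ (-(1 / 2) : ℝ) + W0 * KC * B / T := by
    have hev : ∀ᶠ T : ℝ in atTop, 6 ≤ Real.log T :=
      Real.tendsto_log_atTop.eventually_ge_atTop 6
    filter_upwards [hev, eventually_ge_atTop T0] with T hL hT
    have hT2 : 2 ≤ T := hT02.trans hT
    have hT0 : 0 < T := by linarith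
    have hT1 : 1 ≤ T := by linarith
    have hL0 : 0 < Real.log T := by linarith
    set η : ℕ → ℝ := fun n => 1 / T ^ 2 * (1 / ((n : ℝ) + 1)) with hη
    have hηpos : ∀ n, 0 < η n := by
      intro n
      simp only [hη]
      positivity
    have hηT : ∀ n, η n ≤ 1 / T ^ 2 := by
      intro n
      simp only [hη]
      have h1 : 1 / ((n : ℝ) + 1) ≤ 1 := by
        rw [div_le_one (by positivity)]
        have : (0 : ℝ) ≤ n := Nat.cast_nonneg n
        linarith
      have h2 : 0 ≤ 1 / T ^ 2 := by positivity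
      nlinarith
    have h1T : 1 / T ^ 2 ≤ 1 := by
      rw [div_le_one (by positivity)]
      exact one_le_pow₀ hT1
    have hη1 : ∀ n, η n ≤ 1 := fun n => (hηT n).trans h1T
    have hlim : Tendsto η atTop (𝓝 0) := by
      have := (tendsto_one_div_add_atTop_nhds_zero_nat (𝕜 := ℝ)).const_mul (1 / T ^ 2)
      rw [mul_zero] at this
      exact this
    have hdom := dom w hw hw2 hB hBw hW0' hT1 hL0 η hηpos hη1 hlim
    have hbd : ∀ n, |T / Real.log T ^ 2 *
        (∫ y : ℝ, w (y / Real.log T) * (Dk (bb (hηpos n)) T y) ^ 2) - RP w T| ≤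
        D * T ^ (-(1 / 2) : ℝ) + W0 * KC * B / T := by
      intro n
      have h1 := hD T hT (η n) (bb (hηpos n)) (hηpos n) (hηT n) (bb_Bp (hηpos n))
      have h2 := comp hW w hw hw2 hB hBw hW0' (bb_Bp (hηpos n)) (hηpos n) (hη1 n) hT2 hL
      set I1 := ∫ y : ℝ, w (y / Real.log T) * (ZS (bb (hηpos n)) T y).re ^ 2
      set I2 := ∫ y : ℝ, w (y / Real.log T) * (Dk (bb (hηpos n)) T y) ^ 2
      have h3 : T / Real.log T ^ 2 * I2 - RP w T =
          (T / Real.log T ^ 2 * I1 - RP w T) - T / Real.log T ^ 2 * (I1 - I2) := by ring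
      rw [h3]
      refine (abs_sub _ _).trans (add_le_add h1 ?_)
      rw [abs_mul, abs_of_nonneg (by positivity : 0 ≤ T / Real.log T ^ 2)]
      calc T / Real.log T ^ 2 * |I1 - I2| ≤
          T / Real.log T ^ 2 * (W0 * KC * B * Real.log T / T ^ 2) :=
            mul_le_mul_of_nonneg_left h2 (by positivity)
        _ = (W0 * KC * B / T) * (1 / Real.log T) := by field_simp
        _ ≤ (W0 * KC * B / T) * 1 := by
            refine mul_le_mul_of_nonneg_left ?_ (by positivity)
            rw [div_le_one hL0]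
            linarith
        _ = _ := mul_one _
    rw [subst_ft w hL0]
    have hlim2 := ((hdom.const_mul (T / Real.log T ^ 2)).sub_const (RP w T)).abs
    exact le_of_tendsto hlim2 (Eventually.of_forall hbd)
  have hz : Tendsto (fun T : ℝ => D * T ^ (-(1 / 2) : ℝ) + W0 * KC * B / T) atTop (𝓝 0) := by
    have h1 : Tendsto (fun T : ℝ => D * T ^ (-(1 / 2) : ℝ)) atTop (𝓝 (D * 0)) :=
      (tendsto_rpow_neg_atTop (by norm_num)).const_mul D
    have h2 : Tendsto (fun T : ℝ => W0 * KC * B / T) atTop (𝓝 0) :=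
      tendsto_const_nhds.div_atTop tendsto_id
    have := h1.add h2
    rw [mul_zero, add_zero] at this
    exact this
  exact squeeze_zero_norm' (by
    filter_upwards [key] with T hT
    rw [Real.norm_eq_abs]
    exact hT) hz

end LMa

end H479.V
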