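import Pool.Agent.H479.V.Stm2
import Pool.Agent.H479.P.Lm
import Pool.Graph.R_pool_sql_team_seeded_63374d34.N415.PV_7
import Pool.Graph.R_pool_sql_team_seeded_63374d34.N278.PV_2

/-! # The lower bound in the mean, from the diagonal (proved by helper120) -/


open MeasureTheory Filter Topology

namespace H479.V

open H479.P
open H479.U hiding mz_nonneg
open Pool.Agent.Y744 TH803TW
open Pool.Agent.N804 (SC CT)
open Pool.Agent.N804.PV (DT GV ph aT)

/-! ### The density -/

lemma low_ft_nonneg {T : ℝ} (hT : 1 ≤ T) (α : ℝ) : 0 ≤ ft T α := by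
  unfold ft
  have := Real.log_nonneg hT
  positivity

lemma low_ft_meas (T : ℝ) : Measurable (ft T) := by
  unfold ft
  exact (((Pool.Agent.N278.PV.meas_DT T).comp (by fun_prop)).pow_const 2).const_mul _

lemma low_ft_li {T : ℝ} (hT : 1 ≤ T) : LocallyIntegrable (ft T) := by
  have h1 : LocallyIntegrable fun α : ℝ => T / Real.log T *
      (Pool.Agent.N278.PV.C1 * Real.exp (α * Real.log T / 2)) ^ 2 := by
    apply Continuous.locallyIntegrable
    fun_prop
  have hL := Real.log_nonneg hT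
  refine h1.mono (low_ft_meas T).aestronglyMeasurable (Eventually.of_forall fun α => ?_)
  have hC := Pool.Agent.N278.PV.C1_pos
  rw [Real.norm_eq_abs, Real.norm_eq_abs, abs_of_nonneg (low_ft_nonneg hT α),
    abs_of_nonneg (by positivity)]
  unfold ft
  refine mul_le_mul_of_nonneg_left ?_ (by positivity)
  rw [← sq_abs]
  exact pow_le_pow_left₀ (abs_nonneg _) (Pool.Agent.N278.PV.DT_bound hT _) 2

lemma low_ft_on {T : ℝ} (hT : 1 ≤ T) (a b : ℝ) : IntegrableOn (ft T) (Set.Icc a b) :=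
  (low_ft_li hT).integrableOn_isCompact isCompact_Icc

lemma low_ft_ii {T : ℝ} (hT : 1 ≤ T) {a b : ℝ} (hab : a ≤ b) :
    IntervalIntegrable (ft T) volume a b :=
  (intervalIntegrable_iff_integrableOn_Icc_of_le hab).2 (low_ft_on hT a b)

lemma low_ft_mul {T : ℝ} (hT : 1 ≤ T) {a b : ℝ} (hab : a ≤ b) {g : ℝ → ℝ} (hg : Continuous g) :
    IntervalIntegrable (fun α => g α * ft T α) volume a b :=
  (low_ft_ii hT hab).continuousOn_mul hg.continuousOn

/-- integration by parts, for integrable functions -/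
lemma low_parts {g : ℝ → ℝ} {b : ℝ} (hb : 1 ≤ b) (hg : IntegrableOn g (Set.Ioc 1 b)) :
    ∫ α in (1 : ℝ)..b, (b - α) * g α = ∫ t in (1 : ℝ)..b, (∫ α in (1 : ℝ)..t, g α) := by
  rw [intervalIntegral.integral_of_le hb, intervalIntegral.integral_of_le hb]
  have h1 : ∫ t in Set.Ioc 1 b, (∫ α in (1 : ℝ)..t, g α) =
      ∫ t in Set.Ioc 1 b, ∫ α in Set.Ioc 1 b,
        Set.indicator {p : ℝ × ℝ | p.2 ≤ p.1} (fun p => g p.2) (t, α) := by
    apply setIntegral_congr_fun measurableSet_Ioc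
    intro t ht
    simp only
    rw [intervalIntegral.integral_of_le ht.1.le]
    have e : (fun α => Set.indicator {p : ℝ × ℝ | p.2 ≤ p.1} (fun p => g p.2) (t, α)) =
        Set.indicator (Set.Iic t) g := by
      funext α
      by_cases h : α ≤ t
      · rw [Set.indicator_of_mem (show (t, α) ∈ {p : ℝ × ℝ | p.2 ≤ p.1} from h),
          Set.indicator_of_mem (show α ∈ Set.Iic t from h)]
      · rw [Set.indicator_of_notMem (show (t, α) ∉ {p : ℝ × ℝ | p.2 ≤ p.1} from h),
          Set.indicator_of_notMem (show α ∉ Set.Iic t from h)]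
    rw [e, setIntegral_indicator measurableSet_Iic]
    congr 2
    ext x
    simp only [Set.mem_Ioc, Set.mem_inter_iff, Set.mem_Iic]
    constructor
    · rintro ⟨h1, h2⟩
      exact ⟨⟨h1, h2.trans ht.2⟩, h2⟩
    · rintro ⟨⟨h1, _⟩, h2⟩
      exact ⟨h1, h2⟩
  have hm : MeasurableSet {p : ℝ × ℝ | p.2 ≤ p.1} :=
    measurableSet_le measurable_snd measurable_fst
  have hint : Integrable (Function.uncurry fun t α : ℝ =>
      Set.indicator {p : ℝ × ℝ | p.2 ≤ p.1} (fun p => g p.2) (t, α))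
      ((volume.restrict (Set.Ioc 1 b)).prod (volume.restrict (Set.Ioc 1 b))) := by
    have h2 : Integrable (fun p : ℝ × ℝ => g p.2)
        ((volume.restrict (Set.Ioc 1 b)).prod (volume.restrict (Set.Ioc 1 b))) :=
      hg.comp_snd _
    exact h2.indicator hm
  rw [h1, integral_integral_swap hint]
  apply setIntegral_congr_fun measurableSet_Ioc
  intro α hα
  simp only
  have e : (fun t => Set.indicator {p : ℝ × ℝ | p.2 ≤ p.1} (fun p => g p.2) (t, α)) =
      Set.indicator (Set.Ici α) (fun _ => g α) := by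
    funext t
    by_cases h : α ≤ t
    · rw [Set.indicator_of_mem (show (t, α) ∈ {p : ℝ × ℝ | p.2 ≤ p.1} from h),
        Set.indicator_of_mem (show t ∈ Set.Ici α from h)]
    · rw [Set.indicator_of_notMem (show (t, α) ∉ {p : ℝ × ℝ | p.2 ≤ p.1} from h),
        Set.indicator_of_notMem (show t ∉ Set.Ici α from h)]
  rw [e, setIntegral_indicator measurableSet_Ici]
  have e2 : Set.Ioc 1 b ∩ Set.Ici α = Set.Icc α b := by
    ext x
    simp only [Set.mem_Ioc, Set.mem_inter_iff, Set.mem_Ici, Set.mem_Icc]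
    constructor
    · rintro ⟨⟨_, h2⟩, h3⟩
      exact ⟨h3, h2⟩
    · rintro ⟨h1, h2⟩
      exact ⟨⟨lt_of_lt_of_le hα.1 h1, h2⟩, h1⟩
  rw [e2, setIntegral_const, Measure.real, Real.volume_Icc, ENNReal.toReal_ofReal (by linarith [hα.2]),
    smul_eq_mul]

/-- the variance just below `x = T` -/
lemma low_near : ∃ C : ℝ, 0 < C ∧ ∀ η : ℝ, 0 < η → η < 1 / 2 → ∀ᶠ T : ℝ in atTop,
    ∫ α in (1 - η)..1, ft T α ≤ C * η := by
  obtain ⟨C, hC, h⟩ := Pool.Agent.N415.PV7.main
  refine ⟨C, hC, fun η hη hη2 => ?_⟩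
  filter_upwards [h η hη hη2, eventually_gt_atTop (1 : ℝ)] with T hT hT1
  have hL : 0 < Real.log T := Real.log_pos hT1
  refine le_trans (le_of_eq ?_) hT
  have h1 := intervalIntegral.integral_comp_mul_right (a := 1 - η) (b := 1)
    (fun y => DT T y ^ 2) hL.ne'
  rw [one_mul] at h1
  have h2 : ∫ α in (1 - η)..1, ft T α = T / Real.log T * ∫ α in (1 - η)..1,
      DT T (α * Real.log T) ^ 2 := by
    rw [← intervalIntegral.integral_const_mul]
    rfl
  rw [h2, h1, smul_eq_mul]
  field_simp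

/-! ### The right half of an even function -/

/-- the right half -/
noncomputable def rtl (w : ℝ → ℝ) : ℝ → ℝ := fun x => if 0 < x then 2 * w x else 0

lemma rtl_pos {w : ℝ → ℝ} {x : ℝ} (hx : 0 < x) : rtl w x = 2 * w x := if_pos hx

lemma rtl_neg {w : ℝ → ℝ} {x : ℝ} (hx : x ≤ 0) : rtl w x = 0 := if_neg (not_lt.2 hx)

lemma rtl_zero {w : ℝ → ℝ} {c : ℝ} (h0 : ∀ x, |x| ≤ c → w x = 0) {x : ℝ} (hx : x ≤ c) :
    rtl w x = 0 := by
  rcases lt_or_ge 0 x with h | h
  · rw [rtl_pos h, h0 x (by rwa [abs_of_pos h]), mul_zero]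
  · exact rtl_neg h

lemma rtl_sc {w : ℝ → ℝ} (hw : SC w) {c : ℝ} (hc : 0 < c) (h0 : ∀ x, |x| ≤ c → w x = 0) :
    SC (rtl w) := by
  refine ⟨?_, ?_⟩
  · rw [contDiff_iff_contDiffAt]
    intro x
    rcases lt_or_ge x c with h | h
    · have h1 : rtl w =ᶠ[𝓝 x] fun _ => 0 := by
        filter_upwards [Iio_mem_nhds h] with y hy
        exact rtl_zero h0 (le_of_lt hy)
      exact contDiffAt_const.congr_of_eventuallyEq h1
    · have h1 : rtl w =ᶠ[𝓝 x] fun y => 2 * w y := by
        filter_upwards [Ioi_mem_nhds (lt_of_lt_of_le hc h)] with y hy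
        exact rtl_pos hy
      exact (contDiffAt_const.mul hw.sm.contDiffAt).congr_of_eventuallyEq h1
  · refine hw.cs.mono fun x hx => ?_
    rw [Function.mem_support] at hx ⊢
    intro h
    apply hx
    unfold rtl
    rw [h]
    simp

lemma rtl_CT {w : ℝ → ℝ} (hw : EW w) {c : ℝ} (hc : 0 < c) (h0 : ∀ x, |x| ≤ c → w x = 0) (y : ℝ) :
    CT (rtl w) y = CT w y := by
  have hr := rtl_sc hw.sc hc h0
  have hcos : Continuous fun α : ℝ => Real.cos (2 * Real.pi * α * y) := by fun_prop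
  have i1 : Integrable fun α : ℝ => rtl w α * Real.cos (2 * Real.pi * α * y) := by
    apply Continuous.integrable_of_hasCompactSupport
    · exact hr.sm.continuous.mul hcos
    · exact hr.cs.mul_right
  have i2 := i1.comp_neg
  have e1 : ∫ α : ℝ, rtl w (-α) * Real.cos (2 * Real.pi * (-α) * y) = CT (rtl w) y :=
    integral_neg_eq_self (fun α => rtl w α * Real.cos (2 * Real.pi * α * y)) volume
  have e2 : (∫ α : ℝ, (rtl w α * Real.cos (2 * Real.pi * α * y) +
      rtl w (-α) * Real.cos (2 * Real.pi * (-α) * y))) = 2 * CT w y := by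
    unfold CT
    rw [← integral_const_mul]
    congr 1
    funext α
    have h3 : Real.cos (2 * Real.pi * (-α) * y) = Real.cos (2 * Real.pi * α * y) := by
      rw [← Real.cos_neg]
      congr 1
      ring
    rw [h3]
    rcases lt_trichotomy α 0 with h | h | h
    · rw [rtl_neg h.le, rtl_pos (by linarith : 0 < -α), hw.even]
      ring
    · rw [h, neg_zero, rtl_neg le_rfl, h0 0 (by simpa using hc.le)]
      ring
    · rw [rtl_pos h, rtl_neg (by linarith : -α ≤ 0)]
      ring
  rw [integral_add i1 i2, e1] at e2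
  have e3 : (∫ α : ℝ, rtl w α * Real.cos (2 * Real.pi * α * y)) = CT (rtl w) y := rfl
  rw [e3] at e2
  linarith

lemma RP_addl {w w₀ w₁ : ℝ → ℝ} (h : ∀ y, CT w y = CT w₀ y + CT w₁ y) (T : ℝ) :
    RP w T = RP w₀ T + RP w₁ T := by
  unfold RP
  rw [← Finset.sum_add_distrib]
  refine Finset.sum_congr rfl fun s _ => ?_
  rw [← Finset.sum_add_distrib]
  refine Finset.sum_congr rfl fun s' _ => ?_
  rw [h]
  ring

lemma CT_addl {w₀ w₁ : ℝ → ℝ} (h₀ : SC w₀) (h₁ : SC w₁) (y : ℝ) :
    CT (fun x => w₀ x + w₁ x) y = CT w₀ y + CT w₁ y := by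
  have hcos : Continuous fun α : ℝ => Real.cos (2 * Real.pi * α * y) := by fun_prop
  unfold CT
  rw [← integral_add]
  · congr 1
    funext α
    ring
  · exact (h₀.sm.continuous.mul hcos).integrable_of_hasCompactSupport h₀.cs.mul_right
  · exact (h₁.sm.continuous.mul hcos).integrable_of_hasCompactSupport h₁.cs.mul_right

/-- the splitting -/
lemma low_split (RH : RiemannHypothesis) (hE : S_EFL) {w : ℝ → ℝ} (hw : EW w) {η : ℝ}
    (hη : 0 < η) (hη4 : η ≤ 1 / 4) {χ : ℝ → ℝ} (hχ : TK (1 - η / 2) χ)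
    (hχ1 : ∀ x, |x| ≤ 1 - η → χ x = 1) {ε : ℝ} (hε : 0 < ε) :
    ∀ᶠ T in atTop, RP w T ≤ Lam (fun x => w x * χ x) +
      (∫ α, rtl (fun x => w x * (1 - χ x)) α * ft T α) + ε := by
  have hχsm : ContDiff ℝ (⊤ : ℕ∞) χ := hχ.smooth
  have h0 : EW (fun x => w x * χ x) := by
    refine ⟨⟨hw.sc.sm.mul hχsm, hw.sc.cs.mul_right⟩, fun x => ?_⟩
    show w (-x) * χ (-x) = w x * χ x
    rw [hw.even, hχ.even]
  have h1 : EW (fun x => w x * (1 - χ x)) := by
    refine ⟨⟨hw.sc.sm.mul (contDiff_const.sub hχsm), hw.sc.cs.mul_right⟩, fun x => ?_⟩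
    show w (-x) * (1 - χ (-x)) = w x * (1 - χ x)
    rw [hw.even, hχ.even]
  have h10 : ∀ x, |x| ≤ 1 - η → w x * (1 - χ x) = 0 := by
    intro x hx
    rw [hχ1 x hx]
    ring
  have hm := mont RH (κ := 1 - η / 2) (by linarith) (by linarith) h0 (fun x hx => by
    show w x * χ x = 0
    rw [hχ.supp x hx, mul_zero])
  have ha := ab RH _ _ h0 hm
  have he := hE RH _ (rtl_sc h1.sc (by linarith : 0 < 1 - η) h10) (fun x hx =>
    rtl_zero h10 (by linarith))
  have hCT : ∀ y, CT w y = CT (fun x => w x * χ x) y +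
      CT (rtl (fun x => w x * (1 - χ x))) y := by
    intro y
    rw [rtl_CT h1 (by linarith : 0 < 1 - η) h10, ← CT_addl h0.sc h1.sc]
    congr 1
    funext x
    ring
  have ha2 := ha.eventually_lt_const (show Lam (fun x => w x * χ x) <
    Lam (fun x => w x * χ x) + ε / 2 by linarith)
  have he2 := he.eventually_const_lt (show -(ε / 2) < (0 : ℝ) by linarith)
  filter_upwards [ha2, he2] with T hT1 hT2
  rw [RP_addl hCT]
  linarith

/-- the upper bound for the right half -/
lemma low_upper {w : ℝ → ℝ} (hw : EW w) (hw0 : ∀ x, 0 ≤ w x) {b δ : ℝ} (hb : 1 < b) (hδ : 0 < δ)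
    (hδ1 : δ ≤ 1) (hs : ∀ x, b + δ < |x| → w x = 0)
    (happ : ∀ x, |w x - max 0 (1 - |x| / b)| ≤ δ) {η : ℝ} (hη : 0 < η) (hη4 : η ≤ 1 / 4)
    {χ : ℝ → ℝ} (hχ : TK (1 - η / 2) χ) (hχ1 : ∀ x, |x| ≤ 1 - η → χ x = 1)
    (hχ0 : ∀ x, 0 ≤ χ x) {T : ℝ} (hT : 1 ≤ T) :
    ∫ α, rtl (fun x => w x * (1 - χ x)) α * ft T α ≤
      4 * (∫ α in (1 - η)..1, ft T α) + 2 * (∫ α in (1 : ℝ)..b, (1 - α / b) * ft T α) +
        2 * δ * ∫ α in (1 : ℝ)..(b + δ), ft T α := by
  have hb0 : 0 < b := by linarith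
  have hχsm : ContDiff ℝ (⊤ : ℕ∞) χ := hχ.smooth
  have hχc : Continuous χ := hχsm.continuous
  have h1 : EW (fun x => w x * (1 - χ x)) := by
    refine ⟨⟨hw.sc.sm.mul (contDiff_const.sub hχsm), hw.sc.cs.mul_right⟩, fun x => ?_⟩
    show w (-x) * (1 - χ (-x)) = w x * (1 - χ x)
    rw [hw.even, hχ.even]
  have h10 : ∀ x, |x| ≤ 1 - η → w x * (1 - χ x) = 0 := by
    intro x hx
    rw [hχ1 x hx]
    ring
  obtain ⟨r, hr⟩ : ∃ r : ℝ → ℝ, r = rtl (fun x => w x * (1 - χ x)) := ⟨_, rfl⟩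
  rw [← hr]
  have hrc : Continuous r := by
    rw [hr]
    exact (rtl_sc h1.sc (by linarith : 0 < 1 - η) h10).sm.continuous
  have hr0 : ∀ x, x ≤ 1 - η → r x = 0 := fun x hx => by
    rw [hr]
    exact rtl_zero h10 hx
  have hrs : ∀ x, b + δ < x → r x = 0 := fun x hx => by
    rw [hr, rtl_pos (by linarith)]
    rw [hs x (by rw [abs_of_pos (by linarith)]; exact hx)]
    ring
  have hrle : ∀ x, 0 < x → r x ≤ 2 * w x := fun x hx => by
    rw [hr, rtl_pos hx]
    have h2 := hχ0 x
    have h3 := hw0 x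
    nlinarith
  have hwle : ∀ x, 0 < x → w x ≤ max 0 (1 - x / b) + δ := fun x hx => by
    have h2 := (abs_le.1 (happ x)).2
    rw [abs_of_pos hx] at h2
    linarith
  -- the integral over the whole line
  have hw1 : ∫ α, r α * ft T α = ∫ α in (1 - η)..(b + δ), r α * ft T α := by
    rw [intervalIntegral.integral_of_le (by linarith)]
    symm
    refine setIntegral_eq_integral_of_forall_compl_eq_zero fun x hx => ?_
    rw [Set.mem_Ioc, not_and_or, not_lt, not_le] at hx
    rcases hx with hx | hx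
    · rw [hr0 x hx, zero_mul]
    · rw [hrs x hx, zero_mul]
  have hft := fun α => low_ft_nonneg hT α
  have i1 := low_ft_mul hT (show 1 - η ≤ 1 by linarith) hrc
  have i2 := low_ft_mul hT (show 1 ≤ b + δ by linarith) hrc
  rw [hw1, ← intervalIntegral.integral_add_adjacent_intervals i1 i2]
  have h2 : ∫ α in (1 - η)..1, r α * ft T α ≤ 4 * ∫ α in (1 - η)..1, ft T α := by
    rw [← intervalIntegral.integral_const_mul]
    refine intervalIntegral.integral_mono_on (by linarith) i1
      ((low_ft_ii hT (by linarith)).const_mul 4) fun α hα => ?_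
    refine mul_le_mul_of_nonneg_right ?_ (hft α)
    have h3 : 0 < α := by linarith [hα.1]
    have h4 := hrle α h3
    have h5 := hwle α h3
    have h6 : max 0 (1 - α / b) ≤ 1 := by
      apply max_le zero_le_one
      have : 0 ≤ α / b := by positivity
      linarith
    linarith
  have hmc : Continuous fun α : ℝ => max 0 (1 - α / b) := by fun_prop
  have h3 : ∫ α in (1 : ℝ)..(b + δ), r α * ft T α ≤
      2 * (∫ α in (1 : ℝ)..b, (1 - α / b) * ft T α) + 2 * δ * ∫ α in (1 : ℝ)..(b + δ), ft T α := by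
    have h4 : ∫ α in (1 : ℝ)..(b + δ), r α * ft T α ≤
        ∫ α in (1 : ℝ)..(b + δ), (2 * (max 0 (1 - α / b) * ft T α) + 2 * δ * ft T α) := by
      refine intervalIntegral.integral_mono_on (by linarith) i2
        (((low_ft_mul hT (by linarith) hmc).const_mul 2).add
          ((low_ft_ii hT (by linarith)).const_mul (2 * δ))) fun α hα => ?_
      have h5 : 0 < α := by linarith [hα.1]
      have h6 := hrle α h5
      have h7 := hwle α h5
      have h8 : r α ≤ 2 * (max 0 (1 - α / b) + δ) := by linarith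
      have h9 := mul_le_mul_of_nonneg_right h8 (hft α)
      refine h9.trans (le_of_eq ?_)
      ring
    refine h4.trans (le_of_eq ?_)
    rw [intervalIntegral.integral_add ((low_ft_mul hT (by linarith) hmc).const_mul 2)
          ((low_ft_ii hT (by linarith)).const_mul (2 * δ)), intervalIntegral.integral_const_mul,
      intervalIntegral.integral_const_mul]
    congr 2
    rw [← intervalIntegral.integral_add_adjacent_intervals
      (low_ft_mul hT (show 1 ≤ b by linarith) hmc)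
      (low_ft_mul hT (show b ≤ b + δ by linarith) hmc)]
    have h5 : ∫ α in b..(b + δ), max 0 (1 - α / b) * ft T α = 0 := by
      have h6 : ∫ α in b..(b + δ), max 0 (1 - α / b) * ft T α = ∫ _α in b..(b + δ), (0 : ℝ) := by
        apply intervalIntegral.integral_congr
        intro α hα
        rw [Set.uIcc_of_le (by linarith)] at hα
        simp only
        rw [max_eq_left, zero_mul]
        have : 1 ≤ α / b := by rw [le_div_iff₀ hb0]; linarith [hα.1]
        linarith
      rw [h6, intervalIntegral.integral_zero]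
    have h6 : ∫ α in (1 : ℝ)..b, max 0 (1 - α / b) * ft T α =
        ∫ α in (1 : ℝ)..b, (1 - α / b) * ft T α := by
      apply intervalIntegral.integral_congr
      intro α hα
      rw [Set.uIcc_of_le (by linarith)] at hα
      simp only
      rw [max_eq_right]
      have : α / b ≤ 1 := by rw [div_le_one hb0]; exact hα.2
      linarith
    rw [h5, h6, add_zero]
  linarith

/-- the mass of the approximation of the tent -/
lemma low_mass {w : ℝ → ℝ} (hw : EW w) (hw0 : ∀ x, 0 ≤ w x) {b δ : ℝ} (hb : 1 < b) (hδ : 0 < δ)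
    (hs : ∀ x, b + δ < |x| → w x = 0)
    (happ : ∀ x, |w x - max 0 (1 - |x| / b)| ≤ δ) : b - 2 * δ * b ≤ ∫ x, w x := by
  have hb0 : 0 < b := by linarith
  have hwc := hw.sc.sm.continuous
  rw [int_even hwc hw.even (show 0 ≤ b + δ by linarith) hs]
  have h1 : ∫ x in (0 : ℝ)..b, w x ≤ ∫ x in (0 : ℝ)..(b + δ), w x := by
    rw [← intervalIntegral.integral_add_adjacent_intervals (hwc.intervalIntegrable 0 b)
      (hwc.intervalIntegrable b (b + δ))]
    have := intervalIntegral.integral_nonneg (μ := volume) (show b ≤ b + δ by linarith)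
      fun x _ => hw0 x
    linarith
  have h2 : ∫ x in (0 : ℝ)..b, (1 - x / b - δ) ≤ ∫ x in (0 : ℝ)..b, w x := by
    refine intervalIntegral.integral_mono_on hb0.le
      ((by fun_prop : Continuous fun x : ℝ => 1 - x / b - δ).intervalIntegrable _ _)
      (hwc.intervalIntegrable _ _) fun x hx => ?_
    have h3 := (abs_le.1 (happ x)).1
    rw [abs_of_nonneg hx.1] at h3
    have h4 := le_max_right 0 (1 - x / b)
    linarith
  have h3 : ∫ x in (0 : ℝ)..b, (1 - x / b - δ) = b / 2 - δ * b := by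
    have e1 : ∀ x ∈ Set.uIcc (0 : ℝ) b, HasDerivAt (fun x : ℝ => x - x ^ 2 / (2 * b) - δ * x)
        (1 - x / b - δ) x := by
      intro x _
      have := ((hasDerivAt_id x).sub ((hasDerivAt_pow 2 x).div_const (2 * b))).sub
        ((hasDerivAt_id x).const_mul δ)
      refine this.congr_deriv ?_
      simp
      field_simp
    rw [intervalIntegral.integral_eq_sub_of_hasDerivAt e1
      ((by fun_prop : Continuous fun x : ℝ => 1 - x / b - δ).intervalIntegrable _ _)]
    field_simp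
    ring
  linarith

lemma low_lam {w : ℝ → ℝ} (hw : EW w) (hw0 : ∀ x, 0 ≤ w x) {b δ : ℝ} (hb : 1 < b)
    (happ : ∀ x, |w x - max 0 (1 - |x| / b)| ≤ δ) {κ : ℝ} (hκ : κ < 1)
    {χ : ℝ → ℝ} (hχ : TK κ χ) (hχle : ∀ x, χ x ≤ 1) :
    Lam (fun x => w x * χ x) ≤ 2 - 2 / (3 * b) + 2 * δ := by
  have hb0 : 0 < b := by linarith
  have hwc := hw.sc.sm.continuous
  have hχsm : ContDiff ℝ (⊤ : ℕ∞) χ := hχ.smooth
  have hχc : Continuous χ := hχsm.continuous
  have hle : ∀ x, 0 ≤ x → x ≤ 1 → w x * χ x ≤ 1 - x / b + δ := by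
    intro x hx hx1
    have h1 := hw0 x
    have h2 := hχle x
    have h3 := (abs_le.1 (happ x)).2
    rw [abs_of_nonneg hx] at h3
    have h4 : max 0 (1 - x / b) = 1 - x / b := by
      apply max_eq_right
      have : x / b ≤ 1 := by rw [div_le_one hb0]; linarith
      linarith
    rw [h4] at h3
    nlinarith
  unfold Lam
  have h1 : (fun x => w x * χ x) 0 ≤ 1 + δ := by
    have := hle 0 le_rfl zero_le_one
    simpa using this
  have h2 : ∫ α, (fun x => w x * χ x) α * min |α| 1 ≤ 1 - 2 / (3 * b) + δ := by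
    have hc : Continuous fun α : ℝ => (fun x => w x * χ x) α * min |α| 1 := by fun_prop
    rw [int_even hc (fun x => by
      show w (-x) * χ (-x) * min |(-x)| 1 = _
      rw [hw.even, hχ.even, abs_neg]) zero_le_one (fun x hx => by
      show w x * χ x * min |x| 1 = 0
      rw [hχ.supp x (by linarith)]
      ring)]
    have h3 : ∫ x in (0 : ℝ)..1, (fun x => w x * χ x) x * min |x| 1 ≤
        ∫ x in (0 : ℝ)..1, (1 - x / b + δ) * x := by
      refine intervalIntegral.integral_mono_on zero_le_one (hc.intervalIntegrable _ _)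
        ((by fun_prop : Continuous fun x : ℝ => (1 - x / b + δ) * x).intervalIntegrable _ _)
        fun x hx => ?_
      simp only
      rw [abs_of_nonneg hx.1, min_eq_left hx.2]
      exact mul_le_mul_of_nonneg_right (hle x hx.1 hx.2) hx.1
    have h4 : ∫ x in (0 : ℝ)..1, (1 - x / b + δ) * x = 1 / 2 - 1 / (3 * b) + δ / 2 := by
      have e1 : ∀ x ∈ Set.uIcc (0 : ℝ) 1, HasDerivAt
          (fun x : ℝ => (1 + δ) / 2 * x ^ 2 - x ^ 3 / (3 * b)) ((1 - x / b + δ) * x) x := by
        intro x _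
        have := ((hasDerivAt_pow 2 x).const_mul ((1 + δ) / 2)).sub
          ((hasDerivAt_pow 3 x).div_const (3 * b))
        refine this.congr_deriv ?_
        simp
        field_simp
        ring
      rw [intervalIntegral.integral_eq_sub_of_hasDerivAt e1
        ((by fun_prop : Continuous fun x : ℝ => (1 - x / b + δ) * x).intervalIntegrable _ _)]
      field_simp
      ring
    have h5 : 2 / (3 * b) = 2 * (1 / (3 * b)) := by ring
    rw [h5]
    linarith
  have h3 : 2 / (3 * b) = 2 / (3 * b) := rfl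
  linarith

theorem low1 : S_LOW := by
  intro RH hE hD hA hU b ε hb hε
  have hb0 : 0 < b := by linarith
  obtain ⟨C, hC, hnear⟩ := low_near
  obtain ⟨δ, hδ⟩ : ∃ δ : ℝ, δ = min 1 (ε / (12 * b ^ 2)) := ⟨_, rfl⟩
  have hδ0 : 0 < δ := by rw [hδ]; exact lt_min one_pos (by positivity)
  have hδ1 : δ ≤ 1 := by rw [hδ]; exact min_le_left _ _
  have hδ2 : δ ≤ ε / (12 * b ^ 2) := by rw [hδ]; exact min_le_right _ _
  obtain ⟨η, hη⟩ : ∃ η : ℝ, η = min (1 / 4) (ε / (6 * b * C)) := ⟨_, rfl⟩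
  have hη0 : 0 < η := by rw [hη]; exact lt_min (by norm_num) (by positivity)
  have hη4 : η ≤ 1 / 4 := by rw [hη]; exact min_le_left _ _
  have hη2 : η ≤ ε / (6 * b * C) := by rw [hη]; exact min_le_right _ _
  obtain ⟨ε₁, hε₁⟩ : ∃ ε₁ : ℝ, ε₁ = ε / (3 * b) := ⟨_, rfl⟩
  have hε₁0 : 0 < ε₁ := by rw [hε₁]; positivity
  obtain ⟨w, hw, hw0, hs, hpd, happ⟩ := hA b δ hb.le hδ0 hδ1
  obtain ⟨χ, hχ, hχ1, hχ0, hχle⟩ := exists_chi (lam := 1 - η) (kap := 1 - η / 2)
    (by linarith) (by linarith)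
  have hdg := hD w hw hpd (ε₁ / 2) (by positivity)
  have hsp := low_split RH hE hw hη0 hη4 hχ hχ1 (show 0 < ε₁ / 2 by positivity)
  have hub := hU 1 (b + δ) le_rfl (by linarith) 1 one_pos
  filter_upwards [hdg, hsp, hub, hnear η hη0 (by linarith), eventually_ge_atTop (1 : ℝ)] with
    T h1 h2 h3 h4 hT
  have h5 := low_upper hw hw0 hb hδ0 hδ1 hs happ hη0 hη4 hχ hχ1 hχ0 hT
  have h6 := low_mass hw hw0 hb hδ0 hs happ
  have h7 := low_lam hw hw0 hb happ (show 1 - η / 2 < 1 by linarith) hχ hχle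
  obtain ⟨J, hJ⟩ : ∃ J : ℝ, J = ∫ α in (1 : ℝ)..b, (1 - α / b) * ft T α := ⟨_, rfl⟩
  rw [← hJ] at h5
  -- integration by parts
  have hion : IntegrableOn (ft T) (Set.Ioc 1 b) := (low_ft_on hT 1 b).mono_set Set.Ioc_subset_Icc_self
  have hp := low_parts hb.le hion
  have hJ2 : ∫ α in (1 : ℝ)..b, (b - α) * ft T α = b * J := by
    rw [hJ, ← intervalIntegral.integral_const_mul]
    apply intervalIntegral.integral_congr
    intro α _
    simp only
    field_simp
  rw [hJ2] at hp
  have hprim : ContinuousOn (fun t => ∫ α in (1 : ℝ)..t, ft T α) (Set.uIcc 1 b) := by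
    apply intervalIntegral.continuousOn_primitive_interval
    rw [Set.uIcc_of_le hb.le]
    exact low_ft_on hT 1 b
  have hS : ∫ t in (1 : ℝ)..b, ((∫ α in (1 : ℝ)..t, ft T α) - (t - 1)) =
      b * J - (b - 1) ^ 2 / 2 := by
    rw [intervalIntegral.integral_sub hprim.intervalIntegrable
      ((by fun_prop : Continuous fun t : ℝ => t - 1).intervalIntegrable _ _), ← hp]
    congr 1
    rw [intervalIntegral.integral_sub (by simp) (by simp)]
    simp
    ring
  rw [hS]
  -- conclusion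
  have hd3 : 2 * δ * (∫ α in (1 : ℝ)..(b + δ), ft T α) ≤ 4 * (b * δ) := by
    have h8 : ∫ α in (1 : ℝ)..(b + δ), ft T α ≤ 2 * b := by linarith
    have := mul_le_mul_of_nonneg_left h8 (show 0 ≤ 2 * δ by linarith)
    linarith
  have h8 : b - 2 * δ * b - ε₁ / 2 ≤ (2 - 2 / (3 * b) + 2 * δ) +
      (4 * (C * η) + 2 * J + 4 * (b * δ)) + ε₁ / 2 := by linarith
  have e1 : b * (2 / (3 * b)) = 2 / 3 := by field_simp
  have e2 : b * ε₁ = ε / 3 := by rw [hε₁]; field_simp
  have e3 : b * (C * η) ≤ ε / 6 := by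
    have := mul_le_mul_of_nonneg_left hη2 (show 0 ≤ b * C by positivity)
    calc b * (C * η) = b * C * η := by ring
      _ ≤ b * C * (ε / (6 * b * C)) := this
      _ = ε / 6 := by field_simp
  have e4 : b ^ 2 * δ ≤ ε / 12 := by
    have := mul_le_mul_of_nonneg_left hδ2 (show 0 ≤ b ^ 2 by positivity)
    calc b ^ 2 * δ ≤ b ^ 2 * (ε / (12 * b ^ 2)) := this
      _ = ε / 12 := by field_simp
  have e5 : b * δ ≤ b ^ 2 * δ := by nlinarith
  have h9 := mul_le_mul_of_nonneg_left h8 hb0.le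
  nlinarith

end H479.V
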