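import Pool.Agent.H479.V.Stm

/-! Subtask H479-ONE (owner helper479), proved by helper124. -/

open MeasureTheory Filter Topology

namespace H479.V

namespace OneAux

/-- the centred primitive -/
noncomputable def SS (g : ℝ → ℝ) (t : ℝ) : ℝ := (∫ α in (1 : ℝ)..t, g α) - (t - 1)

lemma SS_one (g : ℝ → ℝ) : SS g 1 = 0 := by simp [SS]

lemma SS_sub {g : ℝ → ℝ} (hi : ∀ a b : ℝ, 1 ≤ a → a ≤ b → IntervalIntegrable g volume a b)
    {a b : ℝ} (ha : 1 ≤ a) (hab : a ≤ b) : SS g b - SS g a = (∫ α in a..b, g α) - (b - a) := by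
  have h := intervalIntegral.integral_add_adjacent_intervals (hi 1 a le_rfl ha) (hi a b ha hab)
  unfold SS
  linarith

lemma SS_add_mono {g : ℝ → ℝ} (hi : ∀ a b : ℝ, 1 ≤ a → a ≤ b → IntervalIntegrable g volume a b)
    (h0 : ∀ α, 0 ≤ g α) {s t : ℝ} (hs : 1 ≤ s) (hst : s ≤ t) : SS g s + s ≤ SS g t + t := by
  have h1 := SS_sub hi hs hst
  have h2 : 0 ≤ ∫ α in s..t, g α := intervalIntegral.integral_nonneg hst fun α _ => h0 α
  linarith

lemma SS_ii {g : ℝ → ℝ} (hi : ∀ a b : ℝ, 1 ≤ a → a ≤ b → IntervalIntegrable g volume a b)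
    (h0 : ∀ α, 0 ≤ g α) {a b : ℝ} (ha : 1 ≤ a) (hab : a ≤ b) :
    IntervalIntegrable (SS g) volume a b := by
  have h1 : IntervalIntegrable (fun t => SS g t + t) volume a b := by
    apply MonotoneOn.intervalIntegrable
    intro x hx y hy hxy
    rw [Set.uIcc_of_le hab] at hx hy
    exact SS_add_mono hi h0 (ha.trans hx.1) hxy
  have h2 : IntervalIntegrable (fun t : ℝ => t) volume a b := continuous_id.intervalIntegrable _ _
  have h3 := h1.sub h2
  refine h3.congr fun x _ => ?_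
  simp

lemma UB_unif {l : Filter ℝ} {f : ℝ → ℝ → ℝ} (hnn : ∀ᶠ T in l, ∀ α, 0 ≤ f T α)
    (hii : ∀ᶠ T in l, ∀ a b : ℝ, 1 ≤ a → a ≤ b → IntervalIntegrable (f T) volume a b)
    (h : UBf l f) {A t0 : ℝ}
    (ht0 : 1 ≤ t0) (htA : t0 < A) {ε : ℝ} (hε : 0 < ε) :
    ∀ᶠ T in l, ∀ t, t0 ≤ t → t ≤ A → SS (f T) t ≤ SS (f T) t0 + ε := by
  obtain ⟨N, hN⟩ := exists_nat_gt ((A - t0) / (ε / 2))
  have hN0 : (0 : ℝ) < N := lt_of_le_of_lt (div_nonneg (by linarith) (by linarith)) hN
  obtain ⟨k, hk⟩ : ∃ k : ℝ, k = (A - t0) / N := ⟨_, rfl⟩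
  have hk0 : 0 < k := by rw [hk]; exact div_pos (by linarith) hN0
  have hkε : k ≤ ε / 2 := by
    rw [div_lt_iff₀ (by positivity)] at hN
    rw [hk, div_le_iff₀ hN0]
    linarith
  have hkN : t0 + N * k = A := by
    rw [hk]
    field_simp
    ring
  have h1 : ∀ᶠ T in l, ∀ i ∈ Finset.range (N + 1),
      SS (f T) (t0 + i * k) ≤ SS (f T) t0 + ε / 2 := by
    rw [Filter.eventually_all_finset]
    intro i hi
    rcases Nat.eq_zero_or_pos i with h0 | h0
    · subst h0
      refine Eventually.of_forall fun T => ?_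
      simp only [Nat.cast_zero, zero_mul, add_zero]
      linarith
    · have hi0 : (0 : ℝ) < i := by exact_mod_cast h0
      have hik0 : 0 < i * k := by positivity
      filter_upwards [h t0 (t0 + i * k) ht0 (by linarith) (ε / 2) (by positivity), hii]
        with T hT hi
      have h2 := SS_sub hi ht0 (show t0 ≤ t0 + i * k by linarith)
      linarith
  filter_upwards [h1, hnn, hii] with T hT hT1 hTi t ht htA'
  obtain ⟨i, hi⟩ : ∃ i : ℕ, i = ⌈(t - t0) / k⌉₊ := ⟨_, rfl⟩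
  have hq0 : 0 ≤ (t - t0) / k := div_nonneg (by linarith) hk0.le
  have hi1 : (t - t0) / k ≤ i := by rw [hi]; exact Nat.le_ceil _
  have hi2 : (i : ℝ) < (t - t0) / k + 1 := by rw [hi]; exact Nat.ceil_lt_add_one hq0
  have hiN : i ∈ Finset.range (N + 1) := by
    rw [Finset.mem_range, Nat.lt_succ_iff, hi]
    apply Nat.ceil_le.2
    rw [div_le_iff₀ hk0]
    linarith
  rw [div_le_iff₀ hk0] at hi1
  have hi3 : i * k < t - t0 + k := by
    have := mul_lt_mul_of_pos_right hi2 hk0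
    rw [add_mul, div_mul_cancel₀ _ hk0.ne', one_mul] at this
    exact this
  have h3 := hT i hiN
  have h4 := SS_add_mono hTi hT1 (show 1 ≤ t by linarith) (show t ≤ t0 + i * k by linarith)
  linarith

theorem finite_range {l : Filter ℝ} {f : ℝ → ℝ → ℝ} (hnn : ∀ᶠ T in l, ∀ α, 0 ≤ f T α)
    (hii : ∀ᶠ T in l, ∀ a b : ℝ, 1 ≤ a → a ≤ b → IntervalIntegrable (f T) volume a b)
    (h : UBf l f)
    (hlow : ∀ b ε : ℝ, 1 < b → 0 < ε → ∀ᶠ T in l,
      -(1 / 6) - ε ≤ ∫ t in (1 : ℝ)..b, SS (f T) t) {A t0 : ℝ}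
    (ht0 : 1 ≤ t0) (htA : t0 < A) {ε : ℝ} (hε : 0 < ε) :
    ∀ᶠ T in l, - (1 / 6) / (A - t0) - ε ≤ SS (f T) t0 := by
  have hAt : 0 < A - t0 := by linarith
  -- the choice of `e`
  obtain ⟨e, he⟩ : ∃ e : ℝ, e = ε * (A - t0) / (1 + A) := ⟨_, rfl⟩
  have he0 : 0 < e := by rw [he]; apply div_pos (by positivity); linarith
  have hu : ∀ᶠ T in l, ∀ t, t0 ≤ t → t ≤ A → SS (f T) t ≤ SS (f T) t0 + e :=
    UB_unif hnn hii h ht0 htA he0
  have hu1 : ∀ᶠ T in l, ∀ t, 1 ≤ t → t ≤ A → SS (f T) t ≤ SS (f T) 1 + e :=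
    UB_unif hnn hii h le_rfl (by linarith) he0
  filter_upwards [hu, hu1, hlow A e (by linarith) he0, hnn, hii] with T h1 h2 h4 hn hi
  have c1 : IntervalIntegrable (SS (f T)) volume 1 t0 := SS_ii hi hn le_rfl ht0
  have c2 : IntervalIntegrable (SS (f T)) volume t0 A := SS_ii hi hn ht0 htA.le
  rw [← intervalIntegral.integral_add_adjacent_intervals c1 c2] at h4
  have h5 : ∫ t in (1 : ℝ)..t0, SS (f T) t ≤ (t0 - 1) * e := by
    have := intervalIntegral.integral_mono_on (μ := volume) ht0 c1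
      (intervalIntegrable_const (c := e)) fun t ht => by
        have := h2 t ht.1 (by linarith [ht.2])
        rw [SS_one] at this
        linarith
    rw [intervalIntegral.integral_const, smul_eq_mul] at this
    exact this
  have h6 : ∫ t in t0..A, SS (f T) t ≤ (A - t0) * (SS (f T) t0 + e) := by
    have := intervalIntegral.integral_mono_on (μ := volume) htA.le c2
      (intervalIntegrable_const (c := SS (f T) t0 + e)) fun t ht => h1 t ht.1 ht.2
    rw [intervalIntegral.integral_const, smul_eq_mul] at this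
    exact this
  have h7 : -(1 / 6) - (1 + A) * e ≤ (A - t0) * SS (f T) t0 := by
    have : 0 ≤ e := he0.le
    nlinarith
  have h8 : (1 + A) * e = (A - t0) * ε := by
    rw [he]
    have : 1 + A ≠ 0 := by linarith
    field_simp
  rw [h8] at h7
  have h9 : (A - t0) * (- (1 / 6) / (A - t0) - ε) = -(1 / 6) - (A - t0) * ε := by
    field_simp
  have h10 : (A - t0) * (- (1 / 6) / (A - t0) - ε) ≤ (A - t0) * SS (f T) t0 := by
    rw [h9]; exact h7
  exact le_of_mul_le_mul_left h10 hAt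

end OneAux

open OneAux in
theorem one : S_ONE := by
  intro l f hnn hii hUB hlow t ht
  have hlow' : ∀ b ε : ℝ, 1 < b → 0 < ε → ∀ᶠ T in l,
      -(1 / 6) - ε ≤ ∫ t in (1 : ℝ)..b, SS (f T) t := hlow
  rw [Metric.tendsto_nhds]
  intro ε hε
  rcases ht.eq_or_lt with h1 | h1
  · refine Eventually.of_forall fun T => ?_
    subst h1
    simpa using hε
  · have hA : t < t + 1 / ε := by
      have : 0 < 1 / ε := by positivity
      linarith
    filter_upwards [finite_range hnn hii hUB hlow' ht hA (half_pos hε), hUB 1 t le_rfl h1 (ε / 2)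
      (by positivity)] with T h2 h3
    rw [Real.dist_eq, abs_lt]
    have e1 : -(1 / 6) / (t + 1 / ε - t) = -(ε / 6) := by
      rw [add_sub_cancel_left]
      field_simp
    rw [e1] at h2
    have h5 : SS (f T) t = (∫ α in (1 : ℝ)..t, f T α) - (t - 1) := rfl
    constructor <;> linarith

end H479.V
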