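import Pool.Agent.H479.V.Stm2
import Pool.Agent.H479.P.TA

/-!
# From positive definite test functions to the means of `F`
-/

set_option linter.all false

open MeasureTheory Filter Topology

namespace H479.V

open H479.P
open H479.U hiding mz_nonneg
open Pool.Agent.Y744 TH803TW
open Pool.Agent.N804 (SC CT)
open Pool.Agent.N804.PV (DT GV ph aT)

/-- a monotone Tauberian step -/
theorem stl_tauber {S : ℝ → ℝ → ℝ} (hc : ∀ T, Continuous (S T))
    (hmono : ∀ᶠ T in atTop, ∀ s t : ℝ, s ≤ t → S T s + s ≤ S T t + t)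
    (hI : ∀ b : ℝ, 1 ≤ b → Tendsto (fun T => ∫ t in (1 : ℝ)..b, S T t) atTop (𝓝 0)) {t : ℝ}
    (ht : 1 < t) : Tendsto (fun T => S T t) atTop (𝓝 0) := by
  rw [Metric.tendsto_nhds]
  intro ε hε
  obtain ⟨h, hh⟩ : ∃ h : ℝ, h = min ε (t - 1) := ⟨_, rfl⟩
  have hh0 : 0 < h := by rw [hh]; exact lt_min hε (by linarith)
  have hhε : h ≤ ε := by rw [hh]; exact min_le_left _ _
  have hht : h ≤ t - 1 := by rw [hh]; exact min_le_right _ _
  have a1 := Metric.tendsto_nhds.1 (hI (t - h) (by linarith)) (h * ε / 8) (by positivity)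
  have a2 := Metric.tendsto_nhds.1 (hI t ht.le) (h * ε / 8) (by positivity)
  have a3 := Metric.tendsto_nhds.1 (hI (t + h) (by linarith)) (h * ε / 8) (by positivity)
  filter_upwards [hmono, a1, a2, a3] with T h1 h2 h3 h4
  rw [Real.dist_eq, sub_zero, abs_lt] at h2 h3 h4 ⊢
  have ii : ∀ a b : ℝ, IntervalIntegrable (S T) volume a b := fun a b =>
    (hc T).intervalIntegrable a b
  have ii2 : ∀ a b : ℝ, IntervalIntegrable (fun s => S T s + s) volume a b := fun a b =>
    ((hc T).add continuous_id).intervalIntegrable a b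
  have hid : ∀ a b : ℝ, IntervalIntegrable (fun s : ℝ => s) volume a b := fun a b =>
    (by fun_prop : Continuous fun s : ℝ => s).intervalIntegrable a b
  have e1 := intervalIntegral.integral_add_adjacent_intervals (ii 1 t) (ii t (t + h))
  have e2 := intervalIntegral.integral_add_adjacent_intervals (ii 1 (t - h)) (ii (t - h) t)
  have e3 : ∫ s in t..(t + h), (S T s + s) = (∫ s in t..(t + h), S T s) + (t * h + h ^ 2 / 2) := by
    rw [intervalIntegral.integral_add (ii _ _) (hid _ _), integral_id]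
    ring
  have e4 : ∫ s in (t - h)..t, (S T s + s) = (∫ s in (t - h)..t, S T s) + (t * h - h ^ 2 / 2) := by
    rw [intervalIntegral.integral_add (ii _ _) (hid _ _), integral_id]
    ring
  have m1 : ∫ s in t..(t + h), (S T t + t) ≤ ∫ s in t..(t + h), (S T s + s) :=
    intervalIntegral.integral_mono_on (by linarith) intervalIntegrable_const (ii2 _ _)
      fun s hs => h1 t s hs.1
  have m2 : ∫ s in (t - h)..t, (S T s + s) ≤ ∫ s in (t - h)..t, (S T t + t) :=
    intervalIntegral.integral_mono_on (by linarith) (ii2 _ _) intervalIntegrable_const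
      fun s hs => h1 s t hs.2
  rw [intervalIntegral.integral_const, smul_eq_mul, e3] at m1
  rw [intervalIntegral.integral_const, smul_eq_mul, e4] at m2
  have f1 : h * S T t ≤ h * (ε / 4 + h / 2) := by nlinarith
  have f2 : h * (-(ε / 4 + h / 2)) ≤ h * S T t := by nlinarith
  have g1 := le_of_mul_le_mul_left f1 hh0
  have g2 := le_of_mul_le_mul_left f2 hh0
  constructor <;> linarith

lemma EW.ce {w : ℝ → ℝ} (hw : EW w) : ∃ κ : ℝ, 0 ≤ κ ∧ CE κ w := by
  obtain ⟨κ, h0, h1⟩ := hw.supp
  exact ⟨κ, h0, hw.sc.sm.continuous, hw.even, h1⟩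

/-- from the pair functional to the integral against `F` -/
theorem stl_int (RH : RiemannHypothesis) {w : ℝ → ℝ} (hw : EW w) {ℓ : ℝ}
    (h : Tendsto (QP w) atTop (𝓝 ℓ)) : Tendsto (fun T => ∫ α, w α * Fr T α) atTop (𝓝 ℓ) := by
  obtain ⟨κ, h0, hR⟩ := hw.ce
  obtain ⟨C, T0, hC, hT0, herr⟩ := F_err RH
  obtain ⟨D, hD0, hD⟩ := ew_decay hw
  have hct : CT w = ct w := funext (CT_ct w)
  have h1 : Tendsto (fun T => (∫ α, w α * Fr T α) - QP w T) atTop (𝓝 0) := by
    have h2 : Tendsto (fun T => D * (C / (Real.log T) ^ 2)) atTop (𝓝 (D * 0)) := by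
      apply Tendsto.const_mul
      apply Tendsto.div_atTop tendsto_const_nhds
      exact (tendsto_pow_atTop (by norm_num)).comp Real.tendsto_log_atTop
    rw [mul_zero] at h2
    refine squeeze_zero_norm' ?_ h2
    filter_upwards [eventually_ge_atTop T0] with T hT
    have h5 := herr T hT κ w D hR hD0 (fun x => by rw [← CT_ct]; exact hD x)
    rw [Real.norm_eq_abs]
    unfold QP
    rw [hct]
    exact h5
  have h2 := h1.add h
  rw [zero_add] at h2
  refine h2.congr fun T => ?_
  ring

/-- bound of the mean of `F` -/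
theorem stl_bdd (RH : RiemannHypothesis) (hA : S_APP)
    (hQ : ∀ w : ℝ → ℝ, EW w → (∀ x, 0 ≤ CT w x) → Tendsto (QP w) atTop (𝓝 (Lam w))) {b : ℝ}
    (hb : 1 ≤ b) : ∃ B : ℝ, 0 ≤ B ∧ ∀ᶠ T in atTop, ∫ α in (1 : ℝ)..(b + 1), Fr T α ≤ B := by
  obtain ⟨w, hw, hw0, hws, hwc, hwa⟩ := hA (2 * (b + 1)) (1 / 4) (by linarith) (by norm_num)
    (by norm_num)
  have h1 := stl_int RH hw (hQ w hw hwc)
  obtain ⟨κ, hκ, hR⟩ := hw.ce
  refine ⟨4 * (|Lam w| + 1), by positivity, ?_⟩
  filter_upwards [h1.eventually_lt_const (lt_add_one (Lam w)), eventually_ge_atTop (1 : ℝ)]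
    with T h2 hT
  have hFc := Fr_cont T
  have h3 : ∫ α in (1 : ℝ)..(b + 1), Fr T α ≤ ∫ α in (1 : ℝ)..(b + 1), 4 * (w α * Fr T α) := by
    refine intervalIntegral.integral_mono_on (by linarith) (hFc.intervalIntegrable _ _)
      ((continuous_const.mul (hR.cont.mul hFc)).intervalIntegrable _ _) fun α hα => ?_
    have h4 := Fr_nonneg hT α
    have h5 : 1 / 4 ≤ w α := by
      have h6 := (abs_le.1 (hwa α)).1
      have h7 : 1 / 2 ≤ max 0 (1 - |α| / (2 * (b + 1))) := by
        refine le_trans ?_ (le_max_right _ _)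
        rw [abs_of_nonneg (by linarith [hα.1])]
        have : α / (2 * (b + 1)) ≤ 1 / 2 := by
          rw [div_le_div_iff₀ (by linarith) (by norm_num)]
          linarith [hα.2]
        linarith
      linarith
    nlinarith
  have h4 : ∫ α in (1 : ℝ)..(b + 1), w α * Fr T α ≤ ∫ α, w α * Fr T α := by
    rw [intervalIntegral.integral_of_le (by linarith)]
    exact setIntegral_le_integral (hR.mul_int hFc)
      (Eventually.of_forall fun α => mul_nonneg (hw0 α) (Fr_nonneg hT α))
  rw [intervalIntegral.integral_const_mul] at h3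
  have h5 := le_abs_self (Lam w)
  linarith

/-- the means of `F` against the tents -/
theorem stl_tent (RH : RiemannHypothesis) (hA : S_APP)
    (hQ : ∀ w : ℝ → ℝ, EW w → (∀ x, 0 ≤ CT w x) → Tendsto (QP w) atTop (𝓝 (Lam w))) {b : ℝ}
    (hb : 1 ≤ b) :
    Tendsto (fun T => ∫ α in (1 : ℝ)..b, (1 - α / b) * (Fr T α - 1)) atTop (𝓝 0) := by
  have hb0 : 0 < b := by linarith
  obtain ⟨B, hB0, hB⟩ := stl_bdd RH hA hQ hb
  obtain ⟨C, T1, hC, hT1, hnear⟩ := Fr_near RH
  rw [Metric.tendsto_nhds]
  intro ε hε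
  -- the choice of the parameters
  obtain ⟨δ, hδ⟩ : ∃ δ : ℝ, δ = min 1 (ε / (4 * (B + b + 1))) := ⟨_, rfl⟩
  have hδ0 : 0 < δ := by rw [hδ]; exact lt_min one_pos (by positivity)
  have hδ1 : δ ≤ 1 := by rw [hδ]; exact min_le_left _ _
  have hδ2 : δ * (B + b) ≤ ε / 4 := by
    have h1 : δ ≤ ε / (4 * (B + b + 1)) := by rw [hδ]; exact min_le_right _ _
    calc δ * (B + b) ≤ ε / (4 * (B + b + 1)) * (B + b + 1) :=
          mul_le_mul h1 (by linarith) (by linarith) (by positivity)
      _ = ε / 4 := by field_simp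
  obtain ⟨η, hη⟩ : ∃ η : ℝ, η = min (1 / 2) (ε / (8 * (C + 1))) := ⟨_, rfl⟩
  have hη0 : 0 < η := by rw [hη]; exact lt_min (by norm_num) (by positivity)
  have hη1 : η ≤ 1 / 2 := by rw [hη]; exact min_le_left _ _
  have hη2 : 2 * (C + 1) * η ≤ ε / 4 := by
    have h1 : η ≤ ε / (8 * (C + 1)) := by rw [hη]; exact min_le_right _ _
    calc 2 * (C + 1) * η ≤ 2 * (C + 1) * (ε / (8 * (C + 1))) :=
          mul_le_mul_of_nonneg_left h1 (by positivity)
      _ = ε / 4 := by field_simp; ring
  obtain ⟨w, hw, hw0, hws, hwc, hwa⟩ := hA b δ hb hδ0 hδ1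
  obtain ⟨χ, hχ, hχ1, hχ0, hχle⟩ := exists_chi (lam := 1 - η) (kap := 1 - η / 2) (by linarith)
    (by linarith)
  obtain ⟨κ, hκ, hR⟩ := hw.ce
  -- the part with small support
  have hw1 : EW (fun α => w α * χ α) := by
    refine ⟨⟨hw.sc.sm.mul hχ.smooth, hw.sc.cs.mul_right⟩, fun x => ?_⟩
    rw [hw.even, hχ.even]
  have l0 := stl_int RH hw (hQ w hw hwc)
  have l1 := stl_int RH hw1 (mont RH (κ := 1 - η / 2) (by linarith) (by linarith) hw1
    (fun x hx => by rw [hχ.supp x hx, mul_zero]))
  have l2 := l0.sub l1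
  have hR1 : CE κ (fun α => w α * χ α) :=
    ⟨hR.cont.mul hχ.cont, hw1.even, fun x hx => by rw [hR.supp x hx, zero_mul]⟩
  have hmc : Continuous fun α : ℝ => min |α| 1 := by fun_prop
  have hw2 : ∀ x, |w x * (1 - χ x)| ≤ 2 := by
    intro x
    have h1 : |w x| ≤ 2 := by
      have h2 := (abs_le.1 (hwa x)).2
      have h3 : max 0 (1 - |x| / b) ≤ 1 := max_le zero_le_one (by
        have : 0 ≤ |x| / b := by positivity
        linarith)
      rw [abs_of_nonneg (hw0 x)]
      linarith
    have h2 : |1 - χ x| ≤ 1 := by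
      rw [abs_le]
      constructor <;> linarith [hχ0 x, hχle x]
    rw [abs_mul]
    calc |w x| * |1 - χ x| ≤ 2 * 1 := mul_le_mul h1 h2 (abs_nonneg _) (by norm_num)
      _ = 2 := by norm_num
  filter_upwards [Metric.tendsto_nhds.1 l2 (ε / 4) (by positivity), hB,
    eventually_ge_atTop T1] with T c1 c2 c3
  have hT10 : 10 ≤ T := hT1.trans c3
  have hFc := Fr_cont T
  obtain ⟨g, hg⟩ : ∃ g : ℝ → ℝ, g = fun α => w α * (1 - χ α) * (Fr T α - min |α| 1) := ⟨_, rfl⟩
  have hgc : Continuous g := by
    rw [hg]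
    exact (hR.cont.mul (continuous_const.sub hχ.cont)).mul (hFc.sub hmc)
  have e1 : ((∫ α, w α * Fr T α) - ∫ α, w α * χ α * Fr T α) -
      (Lam w - Lam (fun α => w α * χ α)) = ∫ α, g α := by
    have i1 := hR.mul_int hFc
    have i2 := hR1.mul_int hFc
    have i3 := hR.mul_int hmc
    have i4 := hR1.mul_int hmc
    unfold Lam
    have hz : w 0 - w 0 * χ 0 = 0 := by
      rw [hχ1 0 (by rw [abs_zero]; linarith), mul_one, sub_self]
    have e : (∫ α, g α) = ((∫ α, w α * Fr T α) - ∫ α, w α * χ α * Fr T α) -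
        ((∫ α, w α * min |α| 1) - ∫ α, w α * χ α * min |α| 1) := by
      have i5 : Integrable (fun α => w α * Fr T α - w α * χ α * Fr T α) volume := i1.sub i2
      have i6 : Integrable (fun α => w α * min |α| 1 - w α * χ α * min |α| 1) volume := i3.sub i4
      rw [← integral_sub i1 i2, ← integral_sub i3 i4, ← integral_sub i5 i6]
      refine integral_congr_ae (Eventually.of_forall fun α => ?_)
      simp only [hg]
      ring
    rw [e]
    linarith
  rw [Real.dist_eq, e1] at c1
  have hA1 : 1 ≤ b + δ := by linarith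
  have e2 : ∫ α, g α = 2 * ∫ α in (0 : ℝ)..(b + δ), g α := by
    apply int_even hgc
    · intro x
      rw [hg]
      simp only
      rw [hw.even, hχ.even, Fr_neg, abs_neg]
    · linarith
    · intro x hx
      rw [hg]
      simp only
      rw [hws x hx, zero_mul, zero_mul]
  have e3 : ∫ α in (0 : ℝ)..(b + δ), g α = (∫ α in (0 : ℝ)..(1 - η), g α) +
      (∫ α in (1 - η)..1, g α) + ∫ α in (1 : ℝ)..(b + δ), g α := by
    rw [intervalIntegral.integral_add_adjacent_intervals (hgc.intervalIntegrable _ _)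
      (hgc.intervalIntegrable _ _), intervalIntegral.integral_add_adjacent_intervals
      (hgc.intervalIntegrable _ _) (hgc.intervalIntegrable _ _)]
  have e4 : ∫ α in (0 : ℝ)..(1 - η), g α = 0 := by
    have : ∫ α in (0 : ℝ)..(1 - η), g α = ∫ α in (0 : ℝ)..(1 - η), (0 : ℝ) := by
      apply intervalIntegral.integral_congr
      intro α hα
      rw [Set.uIcc_of_le (by linarith)] at hα
      simp only
      rw [hg]
      simp only
      rw [hχ1 α (by rw [abs_of_nonneg hα.1]; exact hα.2), sub_self, mul_zero, zero_mul]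
    rw [this]
    simp
  have e5 : |∫ α in (1 - η)..1, g α| ≤ 2 * (C + 1) * η := by
    have h4 := intervalIntegral.norm_integral_le_of_norm_le_const (a := 1 - η) (b := 1)
      (f := g) (C := 2 * (C + 1)) (fun α hα => by
        rw [Set.uIoc_of_le (by linarith)] at hα
        rw [hg, Real.norm_eq_abs, abs_mul]
        have h5 := hnear T c3 α (by linarith [hα.1]) hα.2
        have h6 := Fr_nonneg (T := T) (by linarith) α
        have h7 : |Fr T α - min |α| 1| ≤ C + 1 := by
          have h8 : 0 ≤ min |α| 1 := le_min (abs_nonneg _) zero_le_one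
          have h9 : min |α| 1 ≤ 1 := min_le_right _ _
          rw [abs_le]
          constructor <;> linarith
        exact mul_le_mul (hw2 α) h7 (abs_nonneg _) (by norm_num))
    rw [Real.norm_eq_abs, show (1 : ℝ) - (1 - η) = η by ring, abs_of_pos hη0] at h4
    exact h4
  have e6 : ∫ α in (1 : ℝ)..(b + δ), g α = ∫ α in (1 : ℝ)..(b + δ), w α * (Fr T α - 1) := by
    apply intervalIntegral.integral_congr
    intro α hα
    rw [Set.uIcc_of_le hA1] at hα
    simp only
    rw [hg]
    simp only
    rw [abs_of_nonneg (by linarith [hα.1]), min_eq_right hα.1, hχ.supp α (by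
      rw [abs_of_nonneg (by linarith [hα.1])]; linarith [hα.1]), sub_zero, mul_one]
  -- comparison with the tent
  obtain ⟨τ, hτ⟩ : ∃ τ : ℝ → ℝ, τ = fun α => max 0 (1 - |α| / b) := ⟨_, rfl⟩
  have hτc : Continuous τ := by
    rw [hτ]
    exact continuous_const.max (continuous_const.sub (continuous_abs.div_const _))
  have ii : ∀ (f : ℝ → ℝ), Continuous f → ∀ x y : ℝ,
      IntervalIntegrable (fun α => f α * (Fr T α - 1)) volume x y := fun f hf x y =>
    (hf.mul (hFc.sub continuous_const)).intervalIntegrable _ _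
  have e7 : ∫ α in (1 : ℝ)..(b + δ), τ α * (Fr T α - 1) =
      ∫ α in (1 : ℝ)..b, (1 - α / b) * (Fr T α - 1) := by
    rw [← intervalIntegral.integral_add_adjacent_intervals (ii τ hτc 1 b) (ii τ hτc b (b + δ))]
    have h1 : ∫ α in b..(b + δ), τ α * (Fr T α - 1) = 0 := by
      have : ∫ α in b..(b + δ), τ α * (Fr T α - 1) = ∫ α in b..(b + δ), (0 : ℝ) := by
        apply intervalIntegral.integral_congr
        intro α hα
        rw [Set.uIcc_of_le (by linarith)] at hα
        simp only
        have : τ α = 0 := by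
          rw [hτ]
          simp only
          rw [abs_of_nonneg (by linarith [hα.1])]
          apply max_eq_left
          have : 1 ≤ α / b := (one_le_div hb0).2 hα.1
          linarith
        rw [this, zero_mul]
      rw [this]
      simp
    rw [h1, add_zero]
    apply intervalIntegral.integral_congr
    intro α hα
    rw [Set.uIcc_of_le hb] at hα
    simp only
    have : τ α = 1 - α / b := by
      rw [hτ]
      simp only
      rw [abs_of_nonneg (by linarith [hα.1])]
      apply max_eq_right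
      have : α / b ≤ 1 := (div_le_one hb0).2 hα.2
      linarith
    rw [this]
  have e8 : |(∫ α in (1 : ℝ)..(b + δ), w α * (Fr T α - 1)) -
      ∫ α in (1 : ℝ)..(b + δ), τ α * (Fr T α - 1)| ≤ δ * (B + b) := by
    rw [← intervalIntegral.integral_sub (ii w hR.cont _ _) (ii τ hτc _ _)]
    have h1 : |∫ α in (1 : ℝ)..(b + δ), (w α * (Fr T α - 1) - τ α * (Fr T α - 1))| ≤
        ∫ α in (1 : ℝ)..(b + δ), δ * (Fr T α + 1) := by
      refine (intervalIntegral.abs_integral_le_integral_abs hA1).trans ?_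
      refine intervalIntegral.integral_mono_on hA1
        (((ii w hR.cont _ _).sub (ii τ hτc _ _)).abs)
        ((continuous_const.mul (hFc.add continuous_const)).intervalIntegrable _ _)
        fun α hα => ?_
      have h2 : |w α - τ α| ≤ δ := by
        rw [hτ]
        exact hwa α
      have h3 := Fr_nonneg (T := T) (by linarith) α
      have h4 : |Fr T α - 1| ≤ Fr T α + 1 := by
        rw [abs_le]
        constructor <;> linarith
      rw [← sub_mul, abs_mul]
      exact mul_le_mul h2 h4 (abs_nonneg _) hδ0.le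
    refine h1.trans ?_
    rw [intervalIntegral.integral_const_mul]
    refine mul_le_mul_of_nonneg_left ?_ hδ0.le
    have i1 : IntervalIntegrable (Fr T) volume 1 (b + δ) := hFc.intervalIntegrable _ _
    rw [intervalIntegral.integral_add i1 intervalIntegrable_const,
      intervalIntegral.integral_const, smul_eq_mul, mul_one]
    have h5 : ∫ α in (1 : ℝ)..(b + δ), Fr T α ≤ ∫ α in (1 : ℝ)..(b + 1), Fr T α := by
      rw [← intervalIntegral.integral_add_adjacent_intervals i1
        (hFc.intervalIntegrable (b + δ) (b + 1))]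
      have : 0 ≤ ∫ α in (b + δ)..(b + 1), Fr T α :=
        intervalIntegral.integral_nonneg (by linarith) fun α _ => Fr_nonneg (by linarith) α
      linarith
    linarith
  rw [Real.dist_eq, sub_zero, ← e7]
  rw [e2, e3, e4, zero_add, e6, abs_lt] at c1
  rw [abs_le] at e5 e8
  rw [abs_lt]
  constructor <;> linarith [c1.1, c1.2, e5.1, e5.2, e8.1, e8.2]

theorem stl : S_STL := by
  intro RH hA hQ t ht
  rcases ht.eq_or_lt with h1 | h1
  · rw [← h1]
    simp_rw [ST_one]
    exact tendsto_const_nhds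
  · refine stl_tauber (S := fun T t => H479.P.ST T t) (fun T => ST_cont T) ?_ ?_ h1
    · filter_upwards [eventually_ge_atTop (1 : ℝ)] with T hT s t hst
      exact ST_add_mono hT hst
    · intro b hb
      have h2 := (stl_tent RH hA hQ hb).const_mul b
      rw [mul_zero] at h2
      refine h2.congr fun T => ?_
      have hg : Continuous fun α => Fr T α - 1 := (Fr_cont T).sub continuous_const
      have h3 := parts hg b
      have h4 : ∀ t, H479.P.ST T t = ∫ α in (1 : ℝ)..t, (Fr T α - 1) := fun t => rfl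
      simp_rw [h4]
      rw [← h3, ← intervalIntegral.integral_const_mul]
      apply intervalIntegral.integral_congr
      intro α _
      simp only
      have hb0 : b ≠ 0 := by linarith
      field_simp

end H479.V
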