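import Pool.Agent.H479.V.Stm2
import Pool.Agent.H479.P.Lm
import Pool.Graph.R_pool_sql_team_seeded_63374d34.N415.PV_7
import Pool.Graph.R_pool_sql_team_seeded_63374d34.N278.PV_2

/-! # From the variance to the pair functional (proved by helper181) -/

open MeasureTheory Filter Topology

namespace Pool.Agent.H181.PV

/-- weak convergence on `[1, A]` -/
theorem weak {f : ℝ → ℝ → ℝ} (hf0 : ∀ᶠ T in atTop, ∀ α, 0 ≤ f T α)
    (hfi : ∀ᶠ T in atTop, ∀ a b : ℝ, IntervalIntegrable (f T) volume a b)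
    (h : ∀ t : ℝ, 1 ≤ t → Tendsto (fun T => ∫ α in (1 : ℝ)..t, f T α) atTop (𝓝 (t - 1)))
    {A : ℝ} (hA : 1 ≤ A) {R : ℝ → ℝ} (hR : Continuous R) :
    Tendsto (fun T => ∫ α in (1 : ℝ)..A, R α * f T α) atTop (𝓝 (∫ α in (1 : ℝ)..A, R α)) := by
  rw [Metric.tendsto_nhds]
  intro ε hε
  obtain ⟨η, hη⟩ : ∃ η : ℝ, η = ε / (4 * A) := ⟨_, rfl⟩
  have hη0 : 0 < η := by rw [hη]; positivity
  have huc : UniformContinuousOn R (Set.Icc 1 A) :=
    isCompact_Icc.uniformContinuousOn_of_continuous hR.continuousOn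
  rw [Metric.uniformContinuousOn_iff] at huc
  obtain ⟨δ, hδ0, hδ⟩ := huc η hη0
  obtain ⟨N, hN⟩ := exists_nat_gt ((A - 1) / δ)
  have hN0 : (0 : ℝ) < N := lt_of_le_of_lt (div_nonneg (by linarith) hδ0.le) hN
  obtain ⟨s, hs⟩ : ∃ s : ℝ, s = (A - 1) / N := ⟨_, rfl⟩
  have hs0 : 0 ≤ s := by rw [hs]; exact div_nonneg (by linarith) hN0.le
  have hsδ : s < δ := by
    rw [hs, div_lt_iff₀ hN0]
    rwa [div_lt_iff₀ hδ0, mul_comm] at hN
  have hNs : N * s = A - 1 := by
    rw [hs]
    field_simp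
  obtain ⟨t, ht⟩ : ∃ t : ℕ → ℝ, t = fun i : ℕ => 1 + (i : ℝ) * s := ⟨_, rfl⟩
  have ht0 : t 0 = 1 := by rw [ht]; simp
  have htN : t N = A := by
    rw [ht]
    show 1 + N * s = A
    rw [hNs]
    ring
  have htm : ∀ i, t i ≤ t (i + 1) := by
    intro i
    rw [ht]
    simp only
    push_cast
    nlinarith
  have hts : ∀ i, t (i + 1) - t i = s := by
    intro i
    rw [ht]
    simp only
    push_cast
    ring
  have ht1 : ∀ i, 1 ≤ t i := by
    intro i
    rw [ht]
    simp only
    have : (0 : ℝ) ≤ i * s := by positivity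
    linarith
  have htA : ∀ i, i < N → t (i + 1) ≤ A := by
    intro i hi
    rw [ht]
    simp only
    have h1 : ((i + 1 : ℕ) : ℝ) ≤ N := by exact_mod_cast hi
    have := mul_le_mul_of_nonneg_right h1 hs0
    linarith
  -- the increments
  have hinc : ∀ i, Tendsto (fun T => ∫ α in (t i)..(t (i + 1)), f T α) atTop (𝓝 s) := by
    intro i
    have h1 := (h (t (i + 1)) (ht1 _)).sub (h (t i) (ht1 _))
    have e : t (i + 1) - 1 - (t i - 1) = s := by rw [← hts i]; ring
    rw [e] at h1
    refine h1.congr' ?_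
    filter_upwards [hfi] with T hT
    rw [intervalIntegral.integral_interval_sub_left (hT _ _) (hT _ _)]
  have hsum : Tendsto (fun T => ∑ i ∈ Finset.range N, R (t i) * ((∫ α in (t i)..(t (i + 1)), f T α) - s))
      atTop (𝓝 0) := by
    have h1 : Tendsto (fun T => ∑ i ∈ Finset.range N, R (t i) * ((∫ α in (t i)..(t (i + 1)), f T α) - s))
      atTop (𝓝 (∑ i ∈ Finset.range N, R (t i) * (s - s))) :=
      tendsto_finsetSum _ fun i _ => ((hinc i).sub_const s).const_mul _
    simpa using h1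
  have hAA := h A hA
  filter_upwards [hf0, hfi, Metric.tendsto_nhds.1 hsum (ε / 4) (by positivity),
    Metric.tendsto_nhds.1 hAA 1 one_pos] with T hT0 hTi hTs hTA
  rw [Real.dist_eq, sub_zero] at hTs
  rw [Real.dist_eq] at hTA ⊢
  have hint : ∀ a b : ℝ, IntervalIntegrable (fun α => R α * (f T α - 1)) volume a b := fun a b =>
    ((hTi a b).sub intervalIntegrable_const).continuousOn_mul hR.continuousOn
  have hint2 : ∀ a b : ℝ, IntervalIntegrable (fun α => R α * f T α) volume a b := fun a b =>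
    (hTi a b).continuousOn_mul hR.continuousOn
  have e1 : (∫ α in (1 : ℝ)..A, R α * f T α) - ∫ α in (1 : ℝ)..A, R α =
      ∫ α in (1 : ℝ)..A, R α * (f T α - 1) := by
    rw [← intervalIntegral.integral_sub (hint2 _ _) (hR.intervalIntegrable _ _)]
    apply intervalIntegral.integral_congr
    intro α _
    simp only
    ring
  have e2 : ∫ α in (1 : ℝ)..A, R α * (f T α - 1) =
      ∑ i ∈ Finset.range N, ∫ α in (t i)..(t (i + 1)), R α * (f T α - 1) := by
    rw [intervalIntegral.sum_integral_adjacent_intervals fun i _ => hint _ _, ht0, htN]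
  have e3 : ∀ i ∈ Finset.range N, |(∫ α in (t i)..(t (i + 1)), R α * (f T α - 1)) -
      R (t i) * ((∫ α in (t i)..(t (i + 1)), f T α) - s)| ≤
      η * ((∫ α in (t i)..(t (i + 1)), f T α) + s) := by
    intro i hi
    rw [Finset.mem_range] at hi
    have e4 : (∫ α in (t i)..(t (i + 1)), f T α) - s = ∫ α in (t i)..(t (i + 1)), (f T α - 1) := by
      rw [intervalIntegral.integral_sub (hTi _ _) intervalIntegrable_const]
      simp [hts]
    have e5 : (∫ α in (t i)..(t (i + 1)), f T α) + s = ∫ α in (t i)..(t (i + 1)), (f T α + 1) := by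
      rw [intervalIntegral.integral_add (hTi _ _) intervalIntegrable_const]
      simp [hts]
    rw [e4, e5, ← intervalIntegral.integral_const_mul, ← intervalIntegral.integral_const_mul,
      ← intervalIntegral.integral_sub (hint _ _)
        (((hTi _ _).sub intervalIntegrable_const).const_mul _)]
    refine (intervalIntegral.abs_integral_le_integral_abs (htm i)).trans ?_
    refine intervalIntegral.integral_mono_on (htm i)
      (((hint _ _).sub (((hTi _ _).sub intervalIntegrable_const).const_mul _)).abs)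
      (((hTi _ _).add intervalIntegrable_const).const_mul _) fun x hx => ?_
    have h6 : R x * (f T x - 1) - R (t i) * (f T x - 1) = (R x - R (t i)) * (f T x - 1) := by ring
    rw [h6, abs_mul]
    have h7 : |R x - R (t i)| ≤ η := by
      have hx1 : x ∈ Set.Icc 1 A := ⟨(ht1 i).trans hx.1, hx.2.trans (htA i hi)⟩
      have hx2 : t i ∈ Set.Icc 1 A := ⟨ht1 i, (htm i).trans (htA i hi)⟩
      have := hδ x hx1 (t i) hx2 (by
        rw [Real.dist_eq, abs_of_nonneg (by linarith [hx.1])]
        have := hts i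
        linarith [hx.2])
      rw [Real.dist_eq] at this
      exact this.le
    have h8 : |f T x - 1| ≤ f T x + 1 := by
      have := hT0 x
      rw [abs_le]
      constructor <;> linarith
    exact mul_le_mul h7 h8 (abs_nonneg _) hη0.le
  have e6 : |(∑ i ∈ Finset.range N, ∫ α in (t i)..(t (i + 1)), R α * (f T α - 1)) -
      ∑ i ∈ Finset.range N, R (t i) * ((∫ α in (t i)..(t (i + 1)), f T α) - s)| ≤
      η * (2 * A) := by
    rw [← Finset.sum_sub_distrib]
    refine (Finset.abs_sum_le_sum_abs _ _).trans ?_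
    refine (Finset.sum_le_sum e3).trans ?_
    rw [← Finset.mul_sum, Finset.sum_add_distrib, 
      intervalIntegral.sum_integral_adjacent_intervals fun i _ => hTi _ _, ht0, htN,
      Finset.sum_const, Finset.card_range, nsmul_eq_mul, hNs]
    refine mul_le_mul_of_nonneg_left ?_ hη0.le
    have := (abs_lt.1 hTA).2
    linarith
  rw [e1, e2]
  have h9 : η * (2 * A) = ε / 2 := by
    rw [hη]
    field_simp
    norm_num
  rw [h9] at e6
  have h10 := abs_sub_abs_le_abs_sub
    (∑ i ∈ Finset.range N, ∫ α in (t i)..(t (i + 1)), R α * (f T α - 1))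
    (∑ i ∈ Finset.range N, R (t i) * ((∫ α in (t i)..(t (i + 1)), f T α) - s))
  linarith


open H479.P H479.V
open H479.U hiding mz_nonneg
open Pool.Agent.Y744 TH803TW
open Pool.Agent.N804 (SC CT)
open Pool.Agent.N804.PV (DT GV ph aT)

lemma ft_nonneg {T : ℝ} (hT : 1 < T) (α : ℝ) : 0 ≤ ft T α := by
  unfold ft
  have := Real.log_pos hT
  positivity

lemma ft_ii {T : ℝ} (hT : 1 < T) (a b : ℝ) : IntervalIntegrable (ft T) volume a b := by
  have hm : Measurable (ft T) := by
    unfold ft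
    have := (Pool.Agent.N278.PV.meas_DT T).comp (measurable_id.mul_const (Real.log T))
    exact (this.pow_const 2).const_mul _
  have hL := Real.log_pos hT
  rw [intervalIntegrable_iff]
  have : IsFiniteMeasure (volume.restrict (Set.uIoc a b)) := by
    unfold Set.uIoc
    infer_instance
  refine Integrable.of_bound (C := T / Real.log T *
    (Pool.Agent.N278.PV.C1 * Real.exp (max a b * Real.log T / 2)) ^ 2) hm.aestronglyMeasurable ?_
  filter_upwards [ae_restrict_mem measurableSet_uIoc] with x hx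
  rw [Real.norm_eq_abs, abs_of_nonneg (ft_nonneg hT x)]
  unfold ft
  refine mul_le_mul_of_nonneg_left ?_ (by positivity)
  rw [← sq_abs]
  refine pow_le_pow_left₀ (abs_nonneg _) ?_ 2
  refine (Pool.Agent.N278.PV.DT_bound hT.le _).trans ?_
  refine mul_le_mul_of_nonneg_left (Real.exp_le_exp.2 ?_) Pool.Agent.N278.PV.C1_pos.le
  have h1 : x ≤ max a b := hx.2
  have := mul_le_mul_of_nonneg_right h1 hL.le
  linarith

/-- the density just below `1` -/
lemma ft_near : ∃ C : ℝ, 0 < C ∧ ∀ η : ℝ, 0 < η → η < 1 / 2 → ∀ᶠ T : ℝ in atTop,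
    ∫ α in (1 - η)..1, ft T α ≤ C * η := by
  obtain ⟨C, hC, h⟩ := Pool.Agent.N415.PV7.main
  refine ⟨C, hC, fun η h0 h1 => ?_⟩
  filter_upwards [h η h0 h1, eventually_gt_atTop 1] with T hT hT1
  have hL := Real.log_pos hT1
  refine le_of_eq_of_le ?_ hT
  unfold ft
  rw [intervalIntegral.integral_const_mul]
  have := intervalIntegral.integral_comp_mul_right (a := 1 - η) (b := 1)
    (fun y => DT T y ^ 2) hL.ne'
  rw [this, smul_eq_mul, one_mul]
  field_simp

/-- an even function on the half-line -/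
noncomputable def hf (w : ℝ → ℝ) (x : ℝ) : ℝ := if 0 < x then 2 * w x else 0

lemma hf_pos (w : ℝ → ℝ) {x : ℝ} (hx : 0 < x) : hf w x = 2 * w x := if_pos hx

lemma hf_le (w : ℝ → ℝ) {x : ℝ} (hx : x ≤ 0) : hf w x = 0 := if_neg (not_lt.2 hx)

lemma hf_zero {w : ℝ → ℝ} {lam : ℝ} (hz : ∀ x, |x| ≤ lam → w x = 0) {x : ℝ} (hx : x ≤ lam) :
    hf w x = 0 := by
  rcases le_or_gt x 0 with h | h
  · exact hf_le w h
  · rw [hf_pos w h, hz x (by rwa [abs_of_pos h]), mul_zero]

lemma hf_sc {w : ℝ → ℝ} (hw : SC w) {lam : ℝ} (hlam : 0 < lam) (hz : ∀ x, |x| ≤ lam → w x = 0) :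
    SC (hf w) := by
  refine ⟨?_, ?_⟩
  · rw [contDiff_iff_contDiffAt]
    intro x
    rcases lt_or_ge x lam with h | h
    · refine (contDiffAt_const (c := (0 : ℝ))).congr_of_eventuallyEq ?_
      filter_upwards [Iio_mem_nhds h] with y hy
      exact hf_zero hz hy.le
    · have h1 : ContDiffAt ℝ (⊤ : ℕ∞) (fun y => 2 * w y) x := contDiffAt_const.mul hw.sm.contDiffAt
      refine h1.congr_of_eventuallyEq ?_
      filter_upwards [Ioi_mem_nhds (lt_of_lt_of_le hlam h)] with y hy
      exact hf_pos w hy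
  · refine hw.cs.mono ?_
    intro x hx
    rw [Function.mem_support] at hx ⊢
    intro h0
    apply hx
    unfold hf
    rw [h0, mul_zero, ite_self]

/-- integral of an even function -/
lemma int_half {g : ℝ → ℝ} (hg : Integrable g) (he : ∀ x, g (-x) = g x) :
    ∫ x, g x = ∫ x, hf g x := by
  have h1 : ∫ x, hf g x = ∫ x in Set.Ioi (0 : ℝ), 2 * g x := by
    rw [← integral_indicator measurableSet_Ioi]
    refine integral_congr_ae (Eventually.of_forall fun x => ?_)
    simp only [hf, Set.indicator, Set.mem_Ioi]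
  have h2 := integral_comp_abs (f := g)
  have h3 : ∀ x, g |x| = g x := by
    intro x
    rcases abs_choice x with h | h <;> rw [h]
    exact he x
  simp_rw [h3] at h2
  rw [h1, h2, integral_const_mul]

lemma CT_half {w : ℝ → ℝ} (hw : SC w) (he : ∀ x, w (-x) = w x) : CT w = CT (hf w) := by
  funext x
  unfold CT
  rw [int_half (hw.int_cos x)]
  · refine integral_congr_ae (Eventually.of_forall fun α => ?_)
    unfold hf
    simp only
    split_ifs
    · ring
    · rw [zero_mul]
  · intro α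
    rw [he]
    congr 1
    rw [show 2 * Real.pi * -α * x = -(2 * Real.pi * α * x) by ring, Real.cos_neg]

lemma RP_congr {w w' : ℝ → ℝ} (h : CT w = CT w') : RP w = RP w' := by
  unfold RP
  rw [h]

lemma RP_add {w w0 w1 : ℝ → ℝ} (h : ∀ x, CT w x = CT w0 x + CT w1 x) (T : ℝ) :
    RP w T = RP w0 T + RP w1 T := by
  unfold RP
  rw [← Finset.sum_add_distrib]
  refine Finset.sum_congr rfl fun s _ => ?_
  rw [← Finset.sum_add_distrib]
  refine Finset.sum_congr rfl fun s' _ => ?_
  rw [h]
  ring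

lemma int_supp {g : ℝ → ℝ} {a b : ℝ} (hab : a ≤ b) (h1 : ∀ x, x ≤ a → g x = 0)
    (h2 : ∀ x, b < x → g x = 0) : ∫ x, g x = ∫ x in a..b, g x := by
  rw [intervalIntegral.integral_of_le hab]
  refine (setIntegral_eq_integral_of_forall_compl_eq_zero fun x hx => ?_).symm
  by_cases h : x ≤ a
  · exact h1 x h
  · exact h2 x (by
      by_contra hc
      exact hx ⟨not_le.1 h, not_lt.1 hc⟩)

theorem two : S_TWO := by
  intro RH hE hft w hw
  obtain ⟨κ0, hκ0, hs0⟩ := hw.supp
  obtain ⟨κ, hκ⟩ : ∃ κ : ℝ, κ = max κ0 1 := ⟨_, rfl⟩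
  have hκ1 : 1 ≤ κ := by rw [hκ]; exact le_max_right _ _
  have hs : ∀ x, κ < |x| → w x = 0 := fun x hx =>
    hs0 x (lt_of_le_of_lt (by rw [hκ]; exact le_max_left _ _) hx)
  have hTK : TK κ w := ⟨hw.sc.sm, hw.even, hs⟩
  obtain ⟨M, hM0, hM⟩ := TK_bdd hTK
  obtain ⟨C, hC, hnear⟩ := ft_near
  rw [Metric.tendsto_nhds]
  intro ε hε
  obtain ⟨η, hη⟩ : ∃ η : ℝ, η = min (1 / 4) (ε / (8 * (M + 1) * (C + 1))) := ⟨_, rfl⟩
  have hη0 : 0 < η := by rw [hη]; exact lt_min (by norm_num) (by positivity)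
  have hη4 : η ≤ 1 / 4 := by rw [hη]; exact min_le_left _ _
  have hη1 : 2 * M * (C * η) + 2 * M * η ≤ ε / 4 := by
    have h1 : η ≤ ε / (8 * (M + 1) * (C + 1)) := by rw [hη]; exact min_le_right _ _
    have h2 : 2 * M * (C * η) + 2 * M * η = 2 * (M * (C + 1)) * η := by ring
    have h3 : 2 * (M * (C + 1)) * η ≤ 2 * ((M + 1) * (C + 1)) * (ε / (8 * (M + 1) * (C + 1))) := by
      apply mul_le_mul _ h1 hη0.le (by positivity)
      have : M * (C + 1) ≤ (M + 1) * (C + 1) :=
        mul_le_mul_of_nonneg_right (by linarith) (by linarith)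
      linarith
    have h4 : 2 * ((M + 1) * (C + 1)) * (ε / (8 * (M + 1) * (C + 1))) = ε / 4 := by
      field_simp
      norm_num
    linarith
  obtain ⟨χ, hχ, hχ1, hχ0, hχle⟩ := exists_chi (lam := 1 - η) (kap := 1 - η / 2) (by linarith)
    (by linarith)
  have hw0TK : TK (1 - η / 2) (fun α => w α * χ α) := TK_mul hTK hχ
  obtain ⟨w0, hw0d⟩ : ∃ w0 : ℝ → ℝ, w0 = fun α => w α * χ α := ⟨_, rfl⟩
  rw [← hw0d] at hw0TK
  have hw0TK' : TK κ w0 := hw0TK.mono (by linarith)
  have hw1TK := TK_sub hTK hw0TK'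
  obtain ⟨w1, hw1d⟩ : ∃ w1 : ℝ → ℝ, w1 = fun α => w α - w0 α := ⟨_, rfl⟩
  rw [← hw1d] at hw1TK
  have hw0 : EW w0 := ⟨⟨hw0TK.smooth, hw0TK.hcs⟩, hw0TK.even⟩
  have hw1 : EW w1 := ⟨⟨hw1TK.smooth, hw1TK.hcs⟩, hw1TK.even⟩
  have hz : ∀ x, |x| ≤ 1 - η → w1 x = 0 := by
    intro x hx
    rw [hw1d, hw0d]
    simp only
    rw [hχ1 x hx]
    ring
  have hw1w : ∀ x, 1 - η / 2 < |x| → w1 x = w x := by
    intro x hx
    rw [hw1d, hw0d]
    simp only
    rw [hχ.supp x hx]
    ring
  have hw1b : ∀ x, |w1 x| ≤ M := by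
    intro x
    rw [hw1d, hw0d]
    simp only
    have h1 : w x - w x * χ x = w x * (1 - χ x) := by ring
    rw [h1, abs_mul]
    have h2 : |1 - χ x| ≤ 1 := by
      rw [abs_le]
      constructor <;> linarith [hχ0 x, hχle x]
    calc |w x| * |1 - χ x| ≤ M * 1 := mul_le_mul (hM x) h2 (abs_nonneg _) hM0
      _ = M := mul_one M
  have hhfb : ∀ x, |hf w1 x| ≤ 2 * M := by
    intro x
    unfold hf
    split_ifs
    · rw [abs_mul, abs_of_pos (by norm_num : (0 : ℝ) < 2)]
      linarith [hw1b x]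
    · rw [abs_zero]
      linarith
  have hsc := hf_sc hw1.sc (by linarith : 0 < 1 - η) hz
  -- decomposition
  have hCT : ∀ x, CT w x = CT w0 x + CT (hf w1) x := by
    intro x
    rw [← CT_half hw1.sc hw1.even]
    unfold CT
    rw [← integral_add (hw0.sc.int_cos x) (hw1.sc.int_cos x)]
    refine integral_congr_ae (Eventually.of_forall fun α => ?_)
    simp only
    rw [hw1d]
    ring
  have hRP := RP_add hCT
  -- limits
  have t1 : Tendsto (RP w0) atTop (𝓝 (Lam w0)) :=
    ab RH w0 (Lam w0) hw0 (mont RH (κ := 1 - η / 2) (by linarith) (by linarith) hw0 hw0TK.supp)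
  have t2 := hE RH (hf w1) hsc (fun x hx => hf_zero hz (by linarith))
  have hft0 : ∀ᶠ T : ℝ in atTop, ∀ α, 0 ≤ ft T α := by
    filter_upwards [eventually_gt_atTop 1] with T hT α using ft_nonneg hT α
  have hfti : ∀ᶠ T : ℝ in atTop, ∀ a b : ℝ, IntervalIntegrable (ft T) volume a b := by
    filter_upwards [eventually_gt_atTop 1] with T hT a b using ft_ii hT a b
  have t3 := weak hft0 hfti hft hκ1 hw.sc.cont
  -- the predicted value
  obtain ⟨g, hg⟩ : ∃ g : ℝ → ℝ, g = fun α => w1 α * min |α| 1 := ⟨_, rfl⟩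
  have hmc : Continuous fun α : ℝ => min |α| 1 := by fun_prop
  have hgi : Integrable g := by
    rw [hg]
    exact hw1TK.mul_int hmc
  have hge : ∀ x, g (-x) = g x := by
    intro x
    rw [hg]
    simp only
    rw [hw1.even, abs_neg]
  have hfg : ∀ x, hf g x = hf w1 x * min |x| 1 := by
    intro x
    unfold hf
    rw [hg]
    split_ifs
    · ring
    · ring
  have hfgc : Continuous (hf g) := by
    have : hf g = fun x => hf w1 x * min |x| 1 := funext hfg
    rw [this]
    exact hsc.cont.mul hmc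
  have hsupp1 : ∀ x, x ≤ 1 - η → hf w1 x = 0 := fun x hx => hf_zero hz hx
  have hsupp2 : ∀ x, κ < x → hf w1 x = 0 := by
    intro x hx
    rw [hf_pos w1 (by linarith), hw1TK.supp x (by rwa [abs_of_pos (by linarith)]), mul_zero]
  have hLam : Lam w = Lam w0 + (∫ α in (1 - η)..1, hf g α) + 2 * ∫ α in (1 : ℝ)..κ, w α := by
    have h1 : ∫ α, w α * min |α| 1 = (∫ α, w0 α * min |α| 1) + ∫ α, g α := by
      rw [← integral_add (hw0TK.mul_int hmc) hgi]
      refine integral_congr_ae (Eventually.of_forall fun α => ?_)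
      simp only
      rw [hg, hw1d]
      ring
    have h2 : w0 0 = w 0 := by
      rw [hw0d]
      simp only
      rw [hχ1 0 (by rw [abs_zero]; linarith), mul_one]
    have h3 : ∫ α, g α = (∫ α in (1 - η)..1, hf g α) + 2 * ∫ α in (1 : ℝ)..κ, w α := by
      rw [int_half hgi hge, int_supp (a := 1 - η) (b := κ) (by linarith)
        (fun x hx => by rw [hfg, hsupp1 x hx, zero_mul])
        (fun x hx => by rw [hfg, hsupp2 x hx, zero_mul]),
        ← intervalIntegral.integral_add_adjacent_intervals (b := 1)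
          (hfgc.intervalIntegrable _ _) (hfgc.intervalIntegrable _ _)]
      congr 1
      rw [← intervalIntegral.integral_const_mul]
      apply intervalIntegral.integral_congr
      intro x hx
      rw [Set.uIcc_of_le hκ1] at hx
      simp only
      rw [hfg, hf_pos w1 (by linarith [hx.1]), abs_of_nonneg (by linarith [hx.1]),
        min_eq_right hx.1, hw1w x (by rw [abs_of_nonneg (by linarith [hx.1])]; linarith [hx.1]),
        mul_one]
    unfold Lam
    rw [h1, h2, h3]
    ring
  have hJ : |∫ α in (1 - η)..1, hf g α| ≤ 2 * M * η := by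
    have h1 := intervalIntegral.norm_integral_le_of_norm_le_const (a := 1 - η) (b := 1)
      (f := hf g) (C := 2 * M) (fun x _ => by
        rw [hfg, Real.norm_eq_abs, abs_mul]
        have h2 : |min |x| 1| ≤ 1 := by
          rw [abs_of_nonneg (le_min (abs_nonneg _) zero_le_one)]
          exact min_le_right _ _
        calc |hf w1 x| * |min |x| 1| ≤ 2 * M * 1 :=
              mul_le_mul (hhfb x) h2 (abs_nonneg _) (by linarith)
          _ = 2 * M := mul_one _)
    rwa [Real.norm_eq_abs, show (1 : ℝ) - (1 - η) = η by ring, abs_of_pos hη0] at h1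
  -- conclusion
  filter_upwards [Metric.tendsto_nhds.1 t1 (ε / 8) (by positivity),
    Metric.tendsto_nhds.1 t2 (ε / 8) (by positivity),
    Metric.tendsto_nhds.1 t3 (ε / 8) (by positivity), hft0, hfti,
    hnear η hη0 (by linarith)] with T a1 a2 a3 a4 a5 a6
  rw [Real.dist_eq] at a1 a3 ⊢
  rw [Real.dist_eq, sub_zero] at a2
  have hint : ∀ a b : ℝ, IntervalIntegrable (fun α => hf w1 α * ft T α) volume a b := fun a b =>
    (a5 a b).continuousOn_mul hsc.cont.continuousOn
  have e1 : ∫ α, hf w1 α * ft T α = (∫ α in (1 - η)..1, hf w1 α * ft T α) +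
      2 * ∫ α in (1 : ℝ)..κ, w α * ft T α := by
    rw [int_supp (a := 1 - η) (b := κ) (by linarith)
        (fun x hx => by rw [hsupp1 x hx, zero_mul])
        (fun x hx => by rw [hsupp2 x hx, zero_mul]),
        ← intervalIntegral.integral_add_adjacent_intervals (b := 1) (hint _ _) (hint _ _)]
    congr 1
    rw [← intervalIntegral.integral_const_mul]
    apply intervalIntegral.integral_congr
    intro x hx
    rw [Set.uIcc_of_le hκ1] at hx
    simp only
    rw [hf_pos w1 (by linarith [hx.1]),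
      hw1w x (by rw [abs_of_nonneg (by linarith [hx.1])]; linarith [hx.1])]
    ring
  have e2 : |∫ α in (1 - η)..1, hf w1 α * ft T α| ≤ 2 * M * (C * η) := by
    have h1 : |∫ α in (1 - η)..1, hf w1 α * ft T α| ≤ ∫ α in (1 - η)..1, 2 * M * ft T α := by
      refine (intervalIntegral.abs_integral_le_integral_abs (by linarith)).trans ?_
      refine intervalIntegral.integral_mono_on (by linarith) (hint _ _).abs
        ((a5 _ _).const_mul _) fun x _ => ?_
      rw [abs_mul, abs_of_nonneg (a4 x)]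
      exact mul_le_mul_of_nonneg_right (hhfb x) (a4 x)
    refine h1.trans ?_
    rw [intervalIntegral.integral_const_mul]
    exact mul_le_mul_of_nonneg_left a6 (by linarith)
  rw [hRP, hLam]
  rw [e1] at a2
  rw [abs_lt] at a1 a2 a3 ⊢
  rw [abs_le] at e2 hJ
  constructor <;> linarith [a1.1, a1.2, a2.1, a2.2, a3.1, a3.2, e2.1, e2.2, hJ.1, hJ.2]

end Pool.Agent.H181.PV
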