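import Pool.Agent.H479.V.Stm
import Pool.Graph.R_pool_sql_team_seeded_f72693b1.W8.WP.EF1
import Pool.Graph.R_pool_sql_team_seeded_f72693b1.W45.WP.EF2

/-!
# The explicit formula for the smoothed error of the primes in short intervals
-/

open MeasureTheory Filter Topology

namespace H479.V

open Pool.Agent.N804 (SC CT)
open Pool.Agent.N804.PV (DT GV ph aT)

namespace WE

open Pool.Agent.W187.WP

/-- the length of the intervals on the logarithmic scale -/
noncomputable def kp (T : ℝ) : ℝ := Real.log (1 + 1 / T)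

variable {T η y : ℝ} {β : ℝ → ℝ}

theorem inv_pos' (hT : 2 ≤ T) : 0 < 1 / T := by positivity

theorem inv_le' (hT : 2 ≤ T) : 1 / T ≤ 1 / 2 := by
  rw [div_le_div_iff₀ (by linarith) (by norm_num)]
  linarith

theorem kp_pos (hT : 2 ≤ T) : 0 < kp T := Real.log_pos (by linarith [inv_pos' hT])

theorem kp_le (hT : 2 ≤ T) : kp T ≤ 1 / 2 := by
  have h1 := Real.log_le_sub_one_of_pos (show 0 < 1 + 1 / T by linarith [inv_pos' hT])
  have h2 := inv_le' hT
  unfold kp
  linarith

theorem exp_kp (hT : 2 ≤ T) : Real.exp (kp T) = 1 + 1 / T :=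
  Real.exp_log (by linarith [inv_pos' hT])

/-- the test function -/
noncomputable def gg (T y : ℝ) (β : ℝ → ℝ) (u : ℝ) : ℝ :=
  ∫ v in (0 : ℝ)..(kp T), Real.exp (v / 2) * β (y + v - u)

/-- the kernel -/
noncomputable def kk (T : ℝ) : ℝ → ℝ := (Set.Ioc 0 (kp T)).indicator fun v => Real.exp (v / 2)

theorem gg_eq (hT : 2 ≤ T) (hβ : EW β) (u : ℝ) :
    gg T y β u = ∫ t, kk T t * β (u - y - t) := by
  unfold gg kk
  rw [intervalIntegral.integral_of_le (kp_pos hT).le, ← integral_indicator measurableSet_Ioc]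
  refine integral_congr_ae (Eventually.of_forall fun t => ?_)
  show _ = _ * _
  have h1 : β (u - y - t) = β (y + t - u) := by
    rw [← hβ.even (y + t - u)]
    congr 1
    ring
  rw [h1]
  by_cases ht : t ∈ Set.Ioc 0 (kp T)
  · rw [Set.indicator_of_mem ht, Set.indicator_of_mem ht]
  · rw [Set.indicator_of_notMem ht, Set.indicator_of_notMem ht, zero_mul]

theorem kk_int (T : ℝ) : Integrable (kk T) := by
  unfold kk
  rw [integrable_indicator_iff measurableSet_Ioc]
  exact (Continuous.integrableOn_Icc (by fun_prop)).mono_set Set.Ioc_subset_Icc_self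

theorem gg_conv (hT : 2 ≤ T) (hβ : EW β) (u : ℝ) :
    gg T y β u = (convolution (kk T) β (ContinuousLinearMap.mul ℝ ℝ) volume) (u - y) := by
  rw [gg_eq hT hβ]
  rfl

theorem gg_smooth (hT : 2 ≤ T) (hβ : EW β) : ContDiff ℝ 2 (gg T y β) := by
  have h1 : ContDiff ℝ 2 (convolution (kk T) β (ContinuousLinearMap.mul ℝ ℝ) volume) :=
    hβ.sc.cs.contDiff_convolution_right _ (kk_int T).locallyIntegrable
      (hβ.sc.sm.of_le (by exact_mod_cast le_top))
  have h2 : gg T y β = fun u => (convolution (kk T) β (ContinuousLinearMap.mul ℝ ℝ) volume) (u - y) := by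
    funext u
    exact gg_conv hT hβ u
  rw [h2]
  exact h1.comp (contDiff_id.sub contDiff_const)

theorem gg_zero (hT : 2 ≤ T) (hB : Bp η β) {u : ℝ} (hu : u < y - η ∨ y + kp T + η < u) :
    gg T y β u = 0 := by
  unfold gg
  have h1 : ∫ v in (0 : ℝ)..(kp T), Real.exp (v / 2) * β (y + v - u) =
      ∫ v in (0 : ℝ)..(kp T), (0 : ℝ) := by
    refine intervalIntegral.integral_congr fun v hv => ?_
    rw [Set.uIcc_of_le (kp_pos hT).le] at hv
    show Real.exp (v / 2) * β (y + v - u) = 0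
    rw [hB.supp, mul_zero]
    rcases hu with hu | hu
    · exact lt_of_lt_of_le (by linarith [hv.1]) (le_abs_self _)
    · exact lt_of_lt_of_le (by linarith [hv.2]) (neg_le_abs _)
  rw [h1, intervalIntegral.integral_zero]

theorem gg_nonneg (hT : 2 ≤ T) (hB : Bp η β) (u : ℝ) : 0 ≤ gg T y β u :=
  intervalIntegral.integral_nonneg (kp_pos hT).le fun v _ =>
    mul_nonneg (Real.exp_pos _).le (hB.nonneg _)

theorem gg_cpt (hT : 2 ≤ T) (hB : Bp η β) : HasCompactSupport (gg T y β) := by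
  refine HasCompactSupport.of_support_subset_isCompact
    (isCompact_Icc (a := y - η) (b := y + kp T + η)) fun u hu => ?_
  by_contra h
  rw [Set.mem_Icc, not_and_or, not_le, not_le] at h
  exact hu (gg_zero hT hB h)

/-- the complex test function -/
noncomputable def gC (T y : ℝ) (β : ℝ → ℝ) (u : ℝ) : ℂ := (gg T y β u : ℂ)

theorem gC_smooth (hT : 2 ≤ T) (hβ : EW β) : ContDiff ℝ 2 (gC T y β) :=
  Complex.ofRealCLM.contDiff.comp (gg_smooth hT hβ)

theorem gC_cpt (hT : 2 ≤ T) (hB : Bp η β) : HasCompactSupport (gC T y β) := by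
  have := (gg_cpt (y := y) hT hB).comp_left (g := fun x : ℝ => (x : ℂ)) Complex.ofReal_zero
  exact this

theorem lap_gC (hT : 2 ≤ T) (hB : Bp η β) (z : ℂ) :
    lap (gC T y β) z = Complex.exp (z * y) * lap (fun x => (β x : ℂ)) z * aT T (1 / 2 + z) := by
  have hβc : Continuous β := hB.ew.sc.cont
  have hf : Integrable fun v : ℝ => (kk T v : ℂ) * Complex.exp (z * v) := by
    have h1 : (fun v : ℝ => (kk T v : ℂ) * Complex.exp (z * v)) =
        (Set.Ioc 0 (kp T)).indicator fun v : ℝ => ((Real.exp (v / 2) : ℝ) : ℂ) * Complex.exp (z * v) := by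
      funext v
      unfold kk
      by_cases hv : v ∈ Set.Ioc 0 (kp T)
      · rw [Set.indicator_of_mem hv, Set.indicator_of_mem hv]
      · rw [Set.indicator_of_notMem hv, Set.indicator_of_notMem hv, Complex.ofReal_zero, zero_mul]
    rw [h1, integrable_indicator_iff measurableSet_Ioc]
    exact (Continuous.integrableOn_Icc (by fun_prop)).mono_set Set.Ioc_subset_Icc_self
  have hg : Integrable fun s : ℝ => (β s : ℂ) * Complex.exp (z * s) := by
    refine Continuous.integrable_of_hasCompactSupport (by fun_prop) ?_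
    have h1 : HasCompactSupport fun s : ℝ => (β s : ℂ) :=
      hB.ew.sc.cs.comp_left (g := fun x : ℝ => (x : ℂ)) Complex.ofReal_zero
    exact h1.mul_right
  have h2 := integral_convolution (μ := volume) (ν := volume) (ContinuousLinearMap.mul ℝ ℂ) hf hg
  have h3 : ∀ x : ℝ, (convolution (fun v : ℝ => (kk T v : ℂ) * Complex.exp (z * v))
      (fun s : ℝ => (β s : ℂ) * Complex.exp (z * s)) (ContinuousLinearMap.mul ℝ ℂ) volume) x =
      gC T y β (x + y) * Complex.exp (z * x) := by
    intro x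
    show ∫ t : ℝ, ((kk T t : ℂ) * Complex.exp (z * t)) *
      ((β (x - t) : ℂ) * Complex.exp (z * ((x - t : ℝ) : ℂ))) = _
    unfold gC
    rw [gg_eq hT hB.ew, ← integral_complex_ofReal, ← integral_mul_const]
    refine integral_congr_ae (Eventually.of_forall fun t => ?_)
    show _ = _
    have h4 : Complex.exp (z * x) = Complex.exp (z * t) * Complex.exp (z * ((x - t : ℝ) : ℂ)) := by
      rw [← Complex.exp_add]
      congr 1
      push_cast
      ring
    rw [h4, add_sub_cancel_right]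
    push_cast
    ring
  simp_rw [h3] at h2
  have h5 : lap (gC T y β) z = Complex.exp (z * y) * ∫ x : ℝ, gC T y β (x + y) * Complex.exp (z * x) := by
    unfold lap
    rw [← integral_const_mul, ← integral_add_right_eq_self (fun u : ℝ => gC T y β u * Complex.exp (z * u)) y]
    refine integral_congr_ae (Eventually.of_forall fun t => ?_)
    beta_reduce
    have h6 : Complex.exp (z * ((t + y : ℝ) : ℂ)) = Complex.exp (z * y) * Complex.exp (z * t) := by
      rw [← Complex.exp_add]
      congr 1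
      push_cast
      ring
    rw [h6]
    ring
  have h7 : ∫ v : ℝ, (kk T v : ℂ) * Complex.exp (z * v) = aT T (1 / 2 + z) := by
    unfold aT
    rw [show Real.log (1 + 1 / T) = kp T from rfl, intervalIntegral.integral_of_le (kp_pos hT).le,
      ← integral_indicator measurableSet_Ioc]
    refine integral_congr_ae (Eventually.of_forall fun v => ?_)
    beta_reduce
    unfold kk
    by_cases hv : v ∈ Set.Ioc 0 (kp T)
    · rw [Set.indicator_of_mem hv, Set.indicator_of_mem hv, Complex.ofReal_exp, ← Complex.exp_add]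
      congr 1
      push_cast
      ring
    · rw [Set.indicator_of_notMem hv, Set.indicator_of_notMem hv, Complex.ofReal_zero, zero_mul]
  rw [h5, h2, h7, ContinuousLinearMap.mul_apply']
  show _ = Complex.exp (z * y) * (∫ s : ℝ, (β s : ℂ) * Complex.exp (z * s)) * _
  ring

/-! ### the terms of the right side -/

/-- the weight -/
noncomputable def HH (y : ℝ) (β : ℝ → ℝ) (v : ℝ) : ℝ := β v * Real.exp (-((y + v) / 2))

/-- the set of the `v` for which `x` is in the window -/
def Sn (T y x : ℝ) : Set ℝ := {v | y + v < x ∧ x ≤ y + v + kp T}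

theorem Sn_meas (T y x : ℝ) : MeasurableSet (Sn T y x) := by
  have h1 : MeasurableSet {v : ℝ | y + v < x} := measurableSet_lt (by fun_prop) (by fun_prop)
  have h2 : MeasurableSet {v : ℝ | x ≤ y + v + kp T} :=
    measurableSet_le (by fun_prop) (by fun_prop)
  exact h1.inter h2

theorem HH_int (hB : Bp η β) : Integrable (HH y β) := by
  unfold HH
  have hβc : Continuous β := hB.ew.sc.cont
  exact Continuous.integrable_of_hasCompactSupport (by fun_prop) hB.ew.sc.cs.mul_right

theorem gg_log (hT : 2 ≤ T) (hB : Bp η β) (x : ℝ) :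
    gg T y β x = Real.exp (x / 2) * ∫ v, (Sn T y x).indicator (HH y β) v := by
  rw [gg_eq hT hB.ew, ← integral_const_mul,
    ← integral_sub_left_eq_self (fun t : ℝ => kk T t * β (x - y - t)) volume (x - y)]
  refine integral_congr_ae (Eventually.of_forall fun v => ?_)
  beta_reduce
  rw [sub_sub_cancel]
  by_cases hv : v ∈ Sn T y x
  · have h1 : x - y - v ∈ Set.Ioc 0 (kp T) := by
      unfold Sn at hv
      exact ⟨by linarith [hv.1], by linarith [hv.2]⟩
    unfold kk
    rw [Set.indicator_of_mem hv, Set.indicator_of_mem h1]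
    unfold HH
    rw [mul_left_comm, ← Real.exp_add, mul_comm]
    congr 2
    ring
  · have h1 : x - y - v ∉ Set.Ioc 0 (kp T) := by
      intro h
      apply hv
      exact ⟨by linarith [h.1], by linarith [h.2]⟩
    unfold kk
    rw [Set.indicator_of_notMem hv, Set.indicator_of_notMem h1, zero_mul, mul_zero]

theorem psi_eq {X : ℝ} {N : ℕ} (hX : 0 ≤ X) (hN : ⌊X⌋₊ ≤ N) :
    Chebyshev.psi X = ∑ n ∈ Finset.Ioc 0 N,
      if (n : ℝ) ≤ X then ArithmeticFunction.vonMangoldt n else 0 := by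
  rw [Chebyshev.psi, ← Finset.sum_filter]
  congr 1
  ext n
  simp only [Finset.mem_filter, Finset.mem_Ioc]
  constructor
  · rintro ⟨h0, h1⟩
    exact ⟨⟨h0, h1.trans hN⟩, (Nat.le_floor_iff hX).1 h1⟩
  · rintro ⟨⟨h0, _⟩, h1⟩
    exact ⟨h0, Nat.le_floor h1⟩

theorem psi_diff (hT : 2 ≤ T) (hη : η ≤ 1) (hB : Bp η β) (v : ℝ) :
    HH y β v * (Chebyshev.psi (Real.exp (y + v) * (1 + 1 / T)) - Chebyshev.psi (Real.exp (y + v))) =
      ∑ n ∈ Finset.Ioc 0 ⌊Real.exp (y + 2)⌋₊, ArithmeticFunction.vonMangoldt n *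
        (Sn T y (Real.log n)).indicator (HH y β) v := by
  by_cases hv : η < |v|
  · have h0 : HH y β v = 0 := by
      unfold HH
      rw [hB.supp v hv, zero_mul]
    rw [h0, zero_mul]
    symm
    refine Finset.sum_eq_zero fun n _ => ?_
    by_cases h1 : v ∈ Sn T y (Real.log n)
    · rw [Set.indicator_of_mem h1, h0, mul_zero]
    · rw [Set.indicator_of_notMem h1, mul_zero]
  · rw [not_lt] at hv
    have hv1 : v ≤ 1 := (le_abs_self v).trans (hv.trans hη)
    have hk := kp_le hT
    have hk0 := kp_pos hT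
    rw [← exp_kp hT, ← Real.exp_add]
    rw [psi_eq (N := ⌊Real.exp (y + 2)⌋₊) (Real.exp_pos _).le
        (Nat.floor_le_floor (Real.exp_le_exp.2 (by linarith))),
      psi_eq (N := ⌊Real.exp (y + 2)⌋₊) (Real.exp_pos _).le
        (Nat.floor_le_floor (Real.exp_le_exp.2 (by linarith))),
      ← Finset.sum_sub_distrib, Finset.mul_sum]
    refine Finset.sum_congr rfl fun n hn => ?_
    have hn0 : (0 : ℝ) < n := by exact_mod_cast (Finset.mem_Ioc.1 hn).1
    have e1 : ((n : ℝ) ≤ Real.exp (y + v + kp T)) ↔ Real.log n ≤ y + v + kp T :=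
      (Real.log_le_iff_le_exp hn0).symm
    have e2 : ((n : ℝ) ≤ Real.exp (y + v)) ↔ Real.log n ≤ y + v :=
      (Real.log_le_iff_le_exp hn0).symm
    by_cases h1 : v ∈ Sn T y (Real.log n)
    · have h1' : y + v < Real.log n ∧ Real.log n ≤ y + v + kp T := h1
      rw [Set.indicator_of_mem h1, if_pos (e1.2 h1'.2), if_neg fun h => absurd (e2.1 h) (not_le.2 h1'.1),
        sub_zero]
      ring
    · rw [Set.indicator_of_notMem h1, mul_zero]
      by_cases h2 : Real.log n ≤ y + v
      · rw [if_pos (e1.2 (by linarith)), if_pos (e2.2 h2), sub_self, mul_zero]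
      · rw [if_neg fun h => h1 ⟨not_le.1 h2, e1.1 h⟩, if_neg fun h => h2 (e2.1 h), sub_self, mul_zero]

theorem int_psi (hT : 2 ≤ T) (hη : η ≤ 1) (hB : Bp η β) :
    Integrable (fun v => HH y β v *
      (Chebyshev.psi (Real.exp (y + v) * (1 + 1 / T)) - Chebyshev.psi (Real.exp (y + v)))) ∧
    ∫ v, HH y β v *
      (Chebyshev.psi (Real.exp (y + v) * (1 + 1 / T)) - Chebyshev.psi (Real.exp (y + v))) =
      ∑ n ∈ Finset.Ioc 0 ⌊Real.exp (y + 2)⌋₊, ArithmeticFunction.vonMangoldt n *
        ∫ v, (Sn T y (Real.log n)).indicator (HH y β) v := by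
  have hI : ∀ n : ℕ, Integrable fun v => ArithmeticFunction.vonMangoldt n *
      (Sn T y (Real.log n)).indicator (HH y β) v := fun n =>
    ((HH_int hB).indicator (Sn_meas T y _)).const_mul _
  simp_rw [psi_diff hT hη hB]
  refine ⟨integrable_finsetSum _ fun n _ => hI n, ?_⟩
  rw [integral_finsetSum _ fun n _ => hI n]
  exact Finset.sum_congr rfl fun n _ => integral_const_mul _ _

/-- the sum over the primes -/
theorem prime_sum (hT : 2 ≤ T) (hη : η ≤ 1) (hy : 3 ≤ y) (hB : Bp η β) :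
    ∑' n : ℕ, ((ArithmeticFunction.vonMangoldt n / Real.sqrt n : ℝ) : ℂ) *
      (gC T y β (Real.log n) + gC T y β (-Real.log n)) =
    ((∫ v, HH y β v *
      (Chebyshev.psi (Real.exp (y + v) * (1 + 1 / T)) - Chebyshev.psi (Real.exp (y + v))) : ℝ) : ℂ) := by
  have hk := kp_le hT
  have hneg : ∀ n : ℕ, gC T y β (-Real.log n) = 0 := by
    intro n
    unfold gC
    rw [gg_zero hT hB (Or.inl (by linarith [Real.log_natCast_nonneg n])), Complex.ofReal_zero]
  rw [tsum_eq_sum (s := Finset.Ioc 0 ⌊Real.exp (y + 2)⌋₊), (int_psi hT hη hB).2, Complex.ofReal_sum]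
  · refine Finset.sum_congr rfl fun n hn => ?_
    have hn0 : (0 : ℝ) < n := by exact_mod_cast (Finset.mem_Ioc.1 hn).1
    rw [hneg, add_zero]
    unfold gC
    rw [← Complex.ofReal_mul, gg_log hT hB]
    congr 1
    have h1 : Real.exp (Real.log n / 2) = Real.sqrt n := by
      rw [Real.sqrt_eq_rpow, Real.rpow_def_of_pos hn0]
      congr 1
      ring
    have h2 : Real.sqrt n ≠ 0 := (Real.sqrt_pos.2 hn0).ne'
    rw [h1]
    field_simp
  · intro n hn
    rw [Finset.mem_Ioc, not_and_or, not_lt, not_le] at hn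
    rcases hn with hn | hn
    · have : n = 0 := by omega
      subst this
      simp
    · rw [hneg, add_zero]
      have h1 : Real.exp (y + 2) < n := (Nat.floor_lt (Real.exp_pos _).le).1 hn
      have h2 : y + 2 < Real.log n := (Real.lt_log_iff_exp_lt ((Real.exp_pos _).trans h1)).2 h1
      unfold gC
      rw [gg_zero hT hB (Or.inr (by linarith)), Complex.ofReal_zero, mul_zero]

theorem aT_one (hT : 2 ≤ T) : aT T 1 = ((1 / T : ℝ) : ℂ) := by
  unfold aT
  rw [show Real.log (1 + 1 / T) = kp T from rfl]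
  have h1 : ∀ v : ℝ, Complex.exp ((v : ℂ) * 1) = ((Real.exp v : ℝ) : ℂ) := by
    intro v
    rw [mul_one, Complex.ofReal_exp]
  simp_rw [h1]
  rw [intervalIntegral.integral_ofReal, integral_exp, exp_kp hT, Real.exp_zero]
  congr 1
  ring

/-- the first term -/
theorem first_term (hT : 2 ≤ T) (hη : η ≤ 1) (hy : 3 ≤ y) (hB : Bp η β) :
    ∫ v in Set.Ioi (0 : ℝ), (gC T y β v + gC T y β (-v)) * ((Real.exp (v / 2) : ℝ) : ℂ) =
      ((∫ v, HH y β v * (Real.exp (y + v) / T) : ℝ) : ℂ) := by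
  have h1 : ∫ v in Set.Ioi (0 : ℝ), (gC T y β v + gC T y β (-v)) * ((Real.exp (v / 2) : ℝ) : ℂ) =
      ∫ v in Set.Ioi (0 : ℝ), gC T y β v * Complex.exp (1 / 2 * v) := by
    refine setIntegral_congr_fun measurableSet_Ioi fun v hv => ?_
    have hv0 : (0 : ℝ) < v := hv
    have h2 : gC T y β (-v) = 0 := by
      unfold gC
      rw [gg_zero hT hB (Or.inl (by linarith)), Complex.ofReal_zero]
    beta_reduce
    rw [h2, add_zero, Complex.ofReal_exp]
    congr 2
    push_cast
    ring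
  have h3 : ∫ v in Set.Ioi (0 : ℝ), gC T y β v * Complex.exp (1 / 2 * v) = lap (gC T y β) (1 / 2) := by
    unfold lap
    refine setIntegral_eq_integral_of_forall_compl_eq_zero fun v hv => ?_
    have hv0 : v ≤ 0 := not_lt.1 hv
    unfold gC
    rw [gg_zero hT hB (Or.inl (by linarith)), Complex.ofReal_zero, zero_mul]
  have h4 : lap (fun x => (β x : ℂ)) (1 / 2) = ((∫ x, β x * Real.exp (x / 2) : ℝ) : ℂ) := by
    unfold lap
    rw [← integral_complex_ofReal]
    refine integral_congr_ae (Eventually.of_forall fun v => ?_)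
    beta_reduce
    push_cast
    congr 2
    ring
  rw [h1, h3, lap_gC hT hB, h4, show (1 / 2 : ℂ) + 1 / 2 = 1 by norm_num, aT_one hT,
    show Complex.exp (1 / 2 * (y : ℂ)) = ((Real.exp (y / 2) : ℝ) : ℂ) by
      rw [Complex.ofReal_exp]; congr 1; push_cast; ring,
    ← Complex.ofReal_mul, ← Complex.ofReal_mul]
  congr 1
  rw [mul_assoc, ← integral_mul_const, ← integral_const_mul]
  refine integral_congr_ae (Eventually.of_forall fun v => ?_)
  beta_reduce
  unfold HH
  have h5 : Real.exp (y + v) = Real.exp (y / 2) * Real.exp (v / 2) * Real.exp ((y + v) / 2) := by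
    rw [← Real.exp_add, ← Real.exp_add]
    congr 1
    ring
  rw [h5, Real.exp_neg]
  have h6 := (Real.exp_pos ((y + v) / 2)).ne'
  field_simp

/-- the terms of the last sum -/
noncomputable def tn (T y : ℝ) (β : ℝ → ℝ) (n : ℕ) : ℝ :=
  ∫ v in Set.Ioi (0 : ℝ), gg T y β v * Real.exp (-(2 * ((n : ℝ) + 1) + 1 / 2) * v)

theorem int_gg (hT : 2 ≤ T) (hB : Bp η β) : ∫ v, gg T y β v ≤ 1 / T := by
  have h1 := lap_gC (y := y) hT hB 0
  have h2 : lap (gC T y β) 0 = ((∫ v, gg T y β v : ℝ) : ℂ) := by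
    unfold lap
    rw [← integral_complex_ofReal]
    refine integral_congr_ae (Eventually.of_forall fun v => ?_)
    beta_reduce
    rw [zero_mul, Complex.exp_zero, mul_one]
    rfl
  have h3 : lap (fun x => (β x : ℂ)) 0 = 1 := by
    unfold lap
    have h4 : ∀ u : ℝ, (β u : ℂ) * Complex.exp (0 * u) = ((β u : ℝ) : ℂ) := by
      intro u
      rw [zero_mul, Complex.exp_zero, mul_one]
    simp_rw [h4]
    rw [integral_complex_ofReal, hB.one, Complex.ofReal_one]
  have h5 : aT T (1 / 2 + 0) = ((∫ v in (0 : ℝ)..(kp T), Real.exp (v / 2) : ℝ) : ℂ) := by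
    unfold aT
    rw [← intervalIntegral.integral_ofReal]
    show ∫ v in (0 : ℝ)..(kp T), Complex.exp ((v : ℂ) * (1 / 2 + 0)) = _
    refine intervalIntegral.integral_congr fun v _ => ?_
    beta_reduce
    rw [Complex.ofReal_exp]
    congr 1
    push_cast
    ring
  rw [h2, h3, h5, zero_mul, Complex.exp_zero, one_mul, one_mul] at h1
  rw [Complex.ofReal_injective h1]
  have h6 : ∫ v in (0 : ℝ)..(kp T), Real.exp (v / 2) ≤ ∫ v in (0 : ℝ)..(kp T), Real.exp v := by
    refine intervalIntegral.integral_mono_on (kp_pos hT).le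
      (Continuous.intervalIntegrable (by fun_prop) _ _)
      (Continuous.intervalIntegrable (by fun_prop) _ _) fun v hv => ?_
    exact Real.exp_le_exp.2 (by linarith [hv.1])
  rw [integral_exp, exp_kp hT, Real.exp_zero] at h6
  linarith

theorem gg_int (hT : 2 ≤ T) (hB : Bp η β) : Integrable (gg T y β) :=
  (gg_smooth hT hB.ew).continuous.integrable_of_hasCompactSupport (gg_cpt hT hB)

theorem tn_bound (hT : 2 ≤ T) (hη : η ≤ 1) (hy : 3 ≤ y) (hB : Bp η β) (n : ℕ) :
    0 ≤ tn T y β n ∧ tn T y β n ≤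
      (1 / T * Real.exp (-(5 / 2 * (y - 1)))) * (1 / 2 : ℝ) ^ n := by
  have hc : Continuous (gg T y β) := (gg_smooth hT hB.ew).continuous
  have h0 : ∀ v, 0 ≤ gg T y β v * Real.exp (-(2 * ((n : ℝ) + 1) + 1 / 2) * v) := fun v =>
    mul_nonneg (gg_nonneg hT hB v) (Real.exp_pos _).le
  refine ⟨integral_nonneg h0, ?_⟩
  have hle : ∀ v, gg T y β v * Real.exp (-(2 * ((n : ℝ) + 1) + 1 / 2) * v) ≤
      gg T y β v * Real.exp (-(2 * ((n : ℝ) + 1) + 1 / 2) * (y - 1)) := by
    intro v
    rcases lt_or_ge v (y - 1) with hv | hv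
    · rw [gg_zero hT hB (Or.inl (by linarith)), zero_mul, zero_mul]
    · refine mul_le_mul_of_nonneg_left (Real.exp_le_exp.2 ?_) (gg_nonneg hT hB v)
      have : (0 : ℝ) ≤ n := Nat.cast_nonneg n
      nlinarith
  have hI2 : Integrable fun v => gg T y β v * Real.exp (-(2 * ((n : ℝ) + 1) + 1 / 2) * (y - 1)) :=
    (gg_int hT hB).mul_const _
  have hI1 : Integrable fun v => gg T y β v * Real.exp (-(2 * ((n : ℝ) + 1) + 1 / 2) * v) :=
    Continuous.integrable_of_hasCompactSupport (by fun_prop) (gg_cpt hT hB).mul_right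
  have h1 : tn T y β n ≤ ∫ v, gg T y β v * Real.exp (-(2 * ((n : ℝ) + 1) + 1 / 2) * v) :=
    setIntegral_le_integral hI1 (Eventually.of_forall h0)
  have h2 := integral_mono hI1 hI2 hle
  rw [integral_mul_const] at h2
  have h3 := int_gg (y := y) hT hB
  have h4 : Real.exp (-(2 * ((n : ℝ) + 1) + 1 / 2) * (y - 1)) ≤
      Real.exp (-(5 / 2 * (y - 1))) * (1 / 2 : ℝ) ^ n := by
    have h5 : Real.exp (-(2 * ((n : ℝ) + 1) + 1 / 2) * (y - 1)) =
        Real.exp (-(5 / 2 * (y - 1))) * Real.exp (-(2 * (y - 1))) ^ n := by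
      rw [← Real.exp_nat_mul, ← Real.exp_add]
      congr 1
      ring
    rw [h5]
    refine mul_le_mul_of_nonneg_left (pow_le_pow_left₀ (Real.exp_pos _).le ?_ n) (Real.exp_pos _).le
    have h6 : Real.exp (-(2 * (y - 1))) ≤ Real.exp (-1) := Real.exp_le_exp.2 (by linarith)
    have h7 : Real.exp (-1) ≤ 1 / 2 := by
      rw [Real.exp_neg, inv_eq_one_div]
      exact one_div_le_one_div_of_le (by norm_num) (by linarith [Real.add_one_le_exp (1 : ℝ)])
    exact h6.trans h7
  calc tn T y β n ≤ (∫ v, gg T y β v) * Real.exp (-(2 * ((n : ℝ) + 1) + 1 / 2) * (y - 1)) := h1.trans h2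
    _ ≤ 1 / T * (Real.exp (-(5 / 2 * (y - 1))) * (1 / 2 : ℝ) ^ n) :=
        mul_le_mul h3 h4 (Real.exp_pos _).le (inv_pos' hT).le
    _ = _ := by ring

theorem tsum_tn (hT : 2 ≤ T) (hη : η ≤ 1) (hy : 3 ≤ y) (hB : Bp η β) :
    |∑' n, tn T y β n| ≤ 4 / T * Real.exp (-(5 / 2 * (y - 1))) := by
  have h1 : HasSum (fun n : ℕ => (1 / T * Real.exp (-(5 / 2 * (y - 1)))) * (1 / 2 : ℝ) ^ n)
      ((1 / T * Real.exp (-(5 / 2 * (y - 1)))) * 2) := hasSum_geometric_two.mul_left _
  have h2 := tsum_of_norm_bounded h1 fun n => by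
    rw [Real.norm_of_nonneg (tn_bound hT hη hy hB n).1]
    exact (tn_bound hT hη hy hB n).2
  rw [Real.norm_eq_abs] at h2
  refine h2.trans ?_
  have h3 : 0 < Real.exp (-(5 / 2 * (y - 1))) := Real.exp_pos _
  have h4 := inv_pos' hT
  have h5 : 4 / T = 4 * (1 / T) := by ring
  rw [h5]
  nlinarith [mul_pos h4 h3]

theorem last_term (hT : 2 ≤ T) (hη : η ≤ 1) (hy : 3 ≤ y) (hB : Bp η β) :
    ∑' n : ℕ, (gC T y β 0 / ((n : ℂ) + 1) - ∫ v in Set.Ioi (0 : ℝ), (gC T y β v + gC T y β (-v)) *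
      ((Real.exp (-(2 * ((n : ℝ) + 1) + 1 / 2) * v) : ℝ) : ℂ)) = -((∑' n, tn T y β n : ℝ) : ℂ) := by
  rw [Complex.ofReal_tsum, ← tsum_neg]
  refine tsum_congr fun n => ?_
  have h0 : gC T y β 0 = 0 := by
    unfold gC
    rw [gg_zero hT hB (Or.inl (by linarith)), Complex.ofReal_zero]
  rw [h0, zero_div, zero_sub]
  congr 1
  unfold tn
  rw [← integral_complex_ofReal]
  refine setIntegral_congr_fun measurableSet_Ioi fun v hv => ?_
  have hv0 : (0 : ℝ) < v := hv
  have h2 : gC T y β (-v) = 0 := by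
    unfold gC
    rw [gg_zero hT hB (Or.inl (by linarith)), Complex.ofReal_zero]
  beta_reduce
  rw [h2, add_zero, Complex.ofReal_mul]
  rfl

theorem WW_eq (hT : 2 ≤ T) (hη : η ≤ 1) (hy : 3 ≤ y) (hB : Bp η β) :
    WW (gC T y β) = ((-(∫ v, β v * DT T (y + v)) - ∑' n, tn T y β n : ℝ) : ℂ) := by
  have h0 : gC T y β 0 = 0 := by
    unfold gC
    rw [gg_zero hT hB (Or.inl (by linarith)), Complex.ofReal_zero]
  unfold WW
  rw [first_term hT hη hy hB, prime_sum hT hη hy hB, last_term hT hη hy hB, h0, mul_zero,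
    sub_zero]
  have h1 : ∫ v, β v * DT T (y + v) = (∫ v, HH y β v *
      (Chebyshev.psi (Real.exp (y + v) * (1 + 1 / T)) - Chebyshev.psi (Real.exp (y + v)))) -
      ∫ v, HH y β v * (Real.exp (y + v) / T) := by
    have hI : Integrable fun v => HH y β v * (Real.exp (y + v) / T) := by
      have hβc : Continuous β := hB.ew.sc.cont
      unfold HH
      refine Continuous.integrable_of_hasCompactSupport (by fun_prop) ?_
      exact (hB.ew.sc.cs.mul_right).mul_right
    rw [← integral_sub (int_psi hT hη hB).1 hI]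
    refine integral_congr_ae (Eventually.of_forall fun v => ?_)
    beta_reduce
    unfold DT HH
    ring
  rw [h1]
  push_cast
  ring

end WE

theorem weil : S_WEIL := by
  intro T η y β hT _ hη hB hy
  refine ⟨∑' n, WE.tn T y β n, WE.tsum_tn hT hη hy hB, ?_⟩
  have h1 := Pool.Agent.W8.WP.ef1 (WE.gC T y β) (WE.gC_smooth hT hB.ew) (WE.gC_cpt hT hB)
  rw [Pool.Agent.W45.WP.ef2 (WE.gC T y β) (WE.gC_smooth hT hB.ew) (WE.gC_cpt hT hB),
    WE.WW_eq hT hη hy hB] at h1
  have h2 : ∀ ρ : Pool.Agent.W187.WP.Zr,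
      Pool.Agent.W187.WP.lap (WE.gC T y β) ((ρ : ℂ) - 1 / 2) =
        Complex.exp (((ρ : ℂ) - 1 / 2) * y) *
          Pool.Agent.W187.WP.lap (fun x => (β x : ℂ)) ((ρ : ℂ) - 1 / 2) * aT T ρ := by
    intro ρ
    rw [WE.lap_gC hT hB, add_sub_cancel]
  simp_rw [h2] at h1
  exact h1

end H479.V
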