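import Pool.Agent.H479.V.Fin
import Pool.Agent.H479.V.One
import Pool.Agent.H479.V.App
import Pool.Agent.H479.V.Weil
import Pool.Agent.H479.V.Lim
import Pool.Agent.H479.V.C2
import Pool.Agent.H479.V.Low
import Pool.Agent.H479.V.Two
import Pool.Agent.H479.V.Stl
import Pool.Agent.H479.V.Cnv
import Pool.Agent.H479.V.Gvf
import Pool.Agent.H479.V.Dg
import Pool.Agent.H479.V.Ta
import Pool.Graph.R_pool_sql_team_seeded_63374d34.N490.PV_6

open MeasureTheory Filter Topology

namespace H479.V

open H479.P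
open H479.U hiding mz_nonneg
open Pool.Agent.Y744 TH803TW
open Pool.Agent.N804 (SC CT)
open Pool.Agent.N804.PV (DT GV ph aT)

theorem efl : S_EFL := LMa.lim weil c2

/-- bounded variance implies the Riemann hypothesis -/
theorem RH_of_OS (h : OS) : RiemannHypothesis := by
  refine Pool.Agent.N490.PV6.main 1 one_pos (Eventually.of_forall fun b hb => ?_)
  obtain ⟨T0, h0⟩ := eventually_atTop.1 (h (max 1 (b - 1)) b (le_max_left _ _)
    (max_lt hb (by linarith)) 1 one_pos)
  exact ⟨b - max 1 (b - 1) + 1, T0, fun T hT => h0 T hT⟩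

lemma UBf_of_OS (h : OS) : UBf atTop ft := by
  intro a b ha hab ε hε
  filter_upwards [h a b ha hab ε hε, eventually_gt_atTop 1] with T hT hT1
  rwa [gvf T a b hT1 (by linarith) hab.le] at hT

theorem lim_of_OS (h : OS) : ∀ t : ℝ, 1 ≤ t →
    Tendsto (fun T => ∫ α in (1 : ℝ)..t, ft T α) atTop (𝓝 (t - 1)) := by
  have RH := RH_of_OS h
  refine one atTop ft ?_ ?_ (UBf_of_OS h) (low1 RH efl dg app (UBf_of_OS h))
  · filter_upwards [eventually_gt_atTop 1] with T hT α using ft_nonneg hT α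
  · filter_upwards [eventually_gt_atTop 1] with T hT a b _ _ using ft_ii hT a b

theorem TS_of_OS (h : OS) : TS := by
  intro u v hu huv
  have h1 := lim_of_OS h u hu
  have h2 := lim_of_OS h v (by linarith)
  have h3 := h2.sub h1
  have e : v - 1 - (u - 1) = v - u := by ring
  rw [e] at h3
  refine h3.congr' ?_
  filter_upwards [eventually_gt_atTop 1] with T hT
  rw [gvf T u v hT (by linarith) huv.le]
  have := intervalIntegral.integral_add_adjacent_intervals (ft_ii hT 1 u) (ft_ii hT u v)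
  linarith

theorem Aa_of_OS (h : OS) (y : ℝ) : Tendsto (fun T => Aa T y) atTop (𝓝 (AG y)) := by
  have RH := RH_of_OS h
  have hR := Pool.Agent.H181.PV.two RH efl (lim_of_OS h)
  have hQ : ∀ w : ℝ → ℝ, EW w → (∀ x, 0 ≤ CT w x) → Tendsto (QP w) atTop (𝓝 (Lam w)) :=
    fun w hw hp => ta RH w (Lam w) hw hp (hR w hw)
  have hS := stl RH app hQ
  exact H479.P.rig RH le_rfl (fun κ K h' hK hh' => H479.P.testA RH le_rfl hS hK hh') y

theorem TS_of_Aa (RH : RiemannHypothesis) (h : ∀ y, Tendsto (fun T => Aa T y) atTop (𝓝 (AG y))) :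
    TS := by
  have hU := upper_of_Aa RH le_rfl h
  have hS : ∀ t, 1 ≤ t → Tendsto (fun T => H479.P.ST T t) atTop (𝓝 0) := fun t ht =>
    ST_lim RH le_rfl hU ht
  have hR : ∀ w : ℝ → ℝ, EW w → Tendsto (RP w) atTop (𝓝 (Lam w)) := fun w hw =>
    ab RH w (Lam w) hw (QP_of_ST RH hS hw)
  have hC := cnv RH efl hR
  intro u v hu huv
  refine (hC u v hu huv).congr' ?_
  filter_upwards [eventually_gt_atTop 1] with T hT
  exact (gvf T u v hT (by linarith) huv.le).symm

end H479.V
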