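import Pool.Agent.H479.V.Fv

open MeasureTheory Filter Topology

namespace H479.V

open H479.P
open H479.U hiding mz_nonneg
open Pool.Agent.Y744 TH803TW
open Pool.Agent.N804 (SC CT)
open Pool.Agent.N804.PV (DT GV ph aT S_ABEL S_ABELB S_TAU)

/-! ### sets of pairs -/

noncomputable def AP (T : ℝ) : Finset (ℂ × ℂ) := Zt (T ^ 2) ×ˢ Zt (T ^ 2)

noncomputable def pp (T : ℝ) (q : ℂ × ℂ) : ℝ := max q.1.im q.2.im / T

noncomputable def cw (f : ℝ → ℝ) (T : ℝ) (q : ℂ × ℂ) : ℝ :=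
  mz q.1 * mz q.2 * (2 / (T * Real.log T) * f ((q.1.im - q.2.im) * Real.log T / (2 * Real.pi)))

lemma im_pos {U : ℝ} {s : ℂ} (h : s ∈ Zt U) : 0 < s.im := (mem_Zt.1 h).2.2.1

lemma im_le {U : ℝ} {s : ℂ} (h : s ∈ Zt U) : s.im ≤ U := (mem_Zt.1 h).2.2.2.1

lemma Zt_mono {U V : ℝ} (h : U ≤ V) : Zt U ⊆ Zt V := by
  intro s hs
  rw [mem_Zt] at hs ⊢
  exact ⟨hs.1, hs.2.1, hs.2.2.1, hs.2.2.2.1.trans h, hs.2.2.2.2⟩

lemma mem_Zt_iff {U V : ℝ} (h : U ≤ V) {s : ℂ} : s ∈ Zt U ↔ s ∈ Zt V ∧ s.im ≤ U := by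
  constructor
  · intro hs
    exact ⟨Zt_mono h hs, im_le hs⟩
  · rintro ⟨hs, h1⟩
    rw [mem_Zt] at hs ⊢
    exact ⟨hs.1, hs.2.1, hs.2.2.1, h1, hs.2.2.2.2⟩

/-- restriction of a double sum to a smaller height -/
lemma cut {U V : ℝ} (h : U ≤ V) (F : ℂ × ℂ → ℝ) :
    ∑ q ∈ Zt V ×ˢ Zt V, (if max q.1.im q.2.im ≤ U then F q else 0) =
      ∑ s ∈ Zt U, ∑ s' ∈ Zt U, F (s, s') := by
  classical
  rw [← Finset.sum_filter, ← Finset.sum_product']
  apply Finset.sum_congr _ fun _ _ => rfl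
  ext q
  rw [Finset.mem_filter, Finset.mem_product, Finset.mem_product, max_le_iff, mem_Zt_iff h,
    mem_Zt_iff h]
  tauto

lemma RP_eq (w : ℝ → ℝ) (T : ℝ) : RP w T = ∑ q ∈ AP T, ph (pp T q) * cw (CT w) T q := by
  unfold RP AP
  rw [Finset.sum_product]
  refine Finset.sum_congr rfl fun s _ => Finset.sum_congr rfl fun s' _ => ?_
  unfold pp cw
  ring

lemma pp_pos {T : ℝ} (hT : 0 < T) {q : ℂ × ℂ} (hq : q ∈ AP T) : 0 < pp T q := by
  unfold AP at hq
  rw [Finset.mem_product] at hq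
  exact div_pos (lt_of_lt_of_le (im_pos hq.1) (le_max_left _ _)) hT

/-! ### close pairs -/

lemma PP1_half {ι : Type*} (S : Finset ι) {m x : ι → ℝ} (hm : ∀ s, 0 ≤ m s) {L : ℝ} (hL : 0 < L) :
    PP1 S m x L ≤ 6400 * PP1 S m x (2 * L) := by
  have hpi := Real.pi_pos
  have hpi3 := Real.pi_gt_three
  obtain ⟨f, hf⟩ : ∃ f : ℝ → ℝ, f = fun y => if |y| ≤ 1 / Real.pi then 1 else 0 := ⟨_, rfl⟩
  have hfb : ∀ y, |f y| ≤ 2 / (1 + y ^ 2) := by
    intro y
    rw [hf]
    simp only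
    split_ifs with h
    · rw [abs_one, le_div_iff₀ (by positivity)]
      have h1 : |y| ≤ 1 := h.trans (by rw [div_le_one hpi]; linarith)
      have h2 : y ^ 2 ≤ 1 := by
        rw [← sq_abs]
        exact pow_le_one₀ (abs_nonneg _) h1
      linarith
    · rw [abs_zero]
      positivity
  have h1 := QS_abs_bound (x := x) S S hm hfb (Λ := 2 * L) (lam := 1) (by positivity) one_pos
  have e : PP1 S m x L = ∑ s ∈ S, ∑ s' ∈ S, m s * m s' * |f ((x s - x s') * (2 * L) / (2 * Real.pi))| := by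
    unfold PP1
    refine Finset.sum_congr rfl fun s _ => Finset.sum_congr rfl fun s' _ => ?_
    congr 1
    rw [hf]
    simp only
    have e1 : (x s - x s') * (2 * L) / (2 * Real.pi) = (x s - x s') * L / Real.pi := by
      field_simp
    have e2 : |(x s - x s') * (2 * L) / (2 * Real.pi)| ≤ 1 / Real.pi ↔ |x s - x s'| ≤ 1 / L := by
      rw [e1, abs_div, abs_mul, abs_of_pos hL, abs_of_pos hpi, div_le_div_iff_of_pos_right hpi,
        le_div_iff₀ hL]
    by_cases h : |x s - x s'| ≤ 1 / L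
    · rw [if_pos h, if_pos (e2.2 h), abs_one]
    · rw [if_neg h, if_neg (fun hc => h (e2.1 hc)), abs_zero]
  rw [e]
  refine h1.trans (le_of_eq ?_)
  ring

/-- close pairs at all scales from half the logarithm on -/
lemma PPh (RH : RiemannHypothesis) : ∃ C V0 : ℝ, 0 < C ∧ 20 ≤ V0 ∧ ∀ U : ℝ, V0 ≤ U → ∀ Λ : ℝ,
    Real.log U / 2 ≤ Λ → PP1 (Zt U) mz (fun s => s.im) Λ ≤ C * (U * Real.log U) := by
  obtain ⟨C, B0, V0, hC, hB0, hV0, hblk, hloc⟩ := PP_bound RH
  refine ⟨6400 * (B0 + C + 1), V0, by positivity, hV0, fun U hU Λ hΛ => ?_⟩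
  have hU20 : 20 ≤ U := hV0.trans hU
  have hL1 : 1 ≤ Real.log U := by
    rw [Real.le_log_iff_exp_le (by linarith)]
    linarith [Real.exp_one_lt_d9]
  have h1 := PP1_anti (x := fun s : ℂ => s.im) (Zt U) mz_nonneg (L := Real.log U / 2)
    (by positivity) hΛ
  have h2 := PP1_half (x := fun s : ℂ => s.im) (Zt U) mz_nonneg (L := Real.log U / 2) (by positivity)
  rw [show 2 * (Real.log U / 2) = Real.log U by ring] at h2
  have h3 := hloc U hU (Real.log U) le_rfl
  have h4 : B0 ≤ B0 * (U * Real.log U) := le_mul_of_one_le_right hB0 (by nlinarith)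
  have h5 : 0 ≤ U * Real.log U := by positivity
  calc PP1 (Zt U) mz (fun s => s.im) Λ ≤ 6400 * (B0 + C * (U * Real.log U)) := by linarith
    _ ≤ 6400 * (B0 + C + 1) * (U * Real.log U) := by nlinarith

/-- the bound for the pairs with a decreasing weight -/
lemma Bbound (RH : RiemannHypothesis) {D : ℝ} (hD : 0 ≤ D) : ∃ B T0 : ℝ, 0 ≤ B ∧ 20 ≤ T0 ∧
    ∀ T : ℝ, T0 ≤ T → ∀ v : ℝ, 0 < v →
      ∑ q ∈ AP T, (if pp T q ≤ v then cw (fun y => D / (1 + y ^ 2)) T q else 0) ≤ B * (1 + v) := by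
  obtain ⟨C, V0, hC, hV0, hPP⟩ := PPh RH
  obtain ⟨M0, hM0⟩ : ∃ M0 : ℝ, M0 = (∑ s ∈ Zt V0, mz s) * ∑ s ∈ Zt V0, mz s := ⟨_, rfl⟩
  have hM00 : 0 ≤ M0 := by
    rw [hM0]
    exact mul_self_nonneg _
  refine ⟨2 * (D * M0) + 2 * (3200 * D * (2 * C)), V0, by positivity, hV0, fun T hT v hv => ?_⟩
  have hT20 : 20 ≤ T := hV0.trans hT
  have hT0 : 0 < T := by linarith
  have hL1 : 1 ≤ Real.log T := by
    rw [Real.le_log_iff_exp_le (by linarith)]
    linarith [Real.exp_one_lt_d9]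
  have hTT : T ≤ T ^ 2 := by nlinarith
  obtain ⟨U, hU⟩ : ∃ U : ℝ, U = min (v * T) (T ^ 2) := ⟨_, rfl⟩
  have hU1 : U ≤ v * T := by rw [hU]; exact min_le_left _ _
  have hU2 : U ≤ T ^ 2 := by rw [hU]; exact min_le_right _ _
  have hU0 : 0 < U := by rw [hU]; exact lt_min (by positivity) (by positivity)
  have e1 : ∑ q ∈ AP T, (if pp T q ≤ v then cw (fun y => D / (1 + y ^ 2)) T q else 0) =
      ∑ s ∈ Zt U, ∑ s' ∈ Zt U, cw (fun y => D / (1 + y ^ 2)) T (s, s') := by
    rw [← cut hU2]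
    refine Finset.sum_congr rfl fun q hq => ?_
    unfold AP at hq
    rw [Finset.mem_product] at hq
    have h1 : pp T q ≤ v ↔ max q.1.im q.2.im ≤ U := by
      unfold pp
      rw [div_le_iff₀ hT0, hU, le_min_iff]
      constructor
      · intro h
        exact ⟨h, max_le (im_le hq.1) (im_le hq.2)⟩
      · exact fun h => h.1
    by_cases h : pp T q ≤ v
    · rw [if_pos h, if_pos (h1.1 h)]
    · rw [if_neg h, if_neg (fun hc => h (h1.2 hc))]
  have e2 : ∑ s ∈ Zt U, ∑ s' ∈ Zt U, cw (fun y => D / (1 + y ^ 2)) T (s, s') =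
      2 / (T * Real.log T) * ∑ s ∈ Zt U, ∑ s' ∈ Zt U, mz s * mz s' *
        |(fun y => D / (1 + y ^ 2)) ((s.im - s'.im) * Real.log T / (2 * Real.pi))| := by
    rw [Finset.mul_sum]
    refine Finset.sum_congr rfl fun s _ => ?_
    rw [Finset.mul_sum]
    refine Finset.sum_congr rfl fun s' _ => ?_
    simp only
    rw [abs_of_nonneg (by positivity)]
    unfold cw
    simp only
    ring
  rw [e1, e2]
  have hTL : 0 < T * Real.log T := by positivity
  have hTL1 : 1 ≤ T * Real.log T := by nlinarith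
  rcases lt_or_ge U V0 with h | h
  · have h1 : ∑ s ∈ Zt U, ∑ s' ∈ Zt U, mz s * mz s' *
        |(fun y => D / (1 + y ^ 2)) ((s.im - s'.im) * Real.log T / (2 * Real.pi))| ≤ D * M0 := by
      have h2 : ∀ s ∈ Zt U, ∀ s' ∈ Zt U, mz s * mz s' *
        |(fun y => D / (1 + y ^ 2)) ((s.im - s'.im) * Real.log T / (2 * Real.pi))| ≤
          mz s * mz s' * D := by
        intro s _ s' _
        refine mul_le_mul_of_nonneg_left ?_ (mul_nonneg (mz_nonneg _) (mz_nonneg _))
        simp only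
        rw [abs_of_nonneg (by positivity)]
        exact div_le_self hD (by nlinarith [sq_nonneg ((s.im - s'.im) * Real.log T / (2 * Real.pi))])
      have h3 : ∑ s ∈ Zt U, mz s ≤ ∑ s ∈ Zt V0, mz s :=
        Finset.sum_le_sum_of_subset_of_nonneg (Zt_mono h.le) fun s _ _ => mz_nonneg s
      have h4 : 0 ≤ ∑ s ∈ Zt U, mz s := Finset.sum_nonneg fun s _ => mz_nonneg s
      calc _ ≤ ∑ s ∈ Zt U, ∑ s' ∈ Zt U, mz s * mz s' * D :=
            Finset.sum_le_sum fun s hs => Finset.sum_le_sum fun s' hs' => h2 s hs s' hs'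
        _ = D * ((∑ s ∈ Zt U, mz s) * ∑ s ∈ Zt U, mz s) := by
            rw [Finset.sum_mul_sum, Finset.mul_sum]
            refine Finset.sum_congr rfl fun s _ => ?_
            rw [Finset.mul_sum]
            exact Finset.sum_congr rfl fun s' _ => by ring
        _ ≤ D * M0 := by
            rw [hM0]
            exact mul_le_mul_of_nonneg_left (mul_le_mul h3 h3 h4 (h4.trans h3)) hD
    have h5 : 2 / (T * Real.log T) ≤ 2 := div_le_self (by norm_num) hTL1
    calc _ ≤ 2 * (D * M0) := mul_le_mul h5 h1 (Finset.sum_nonneg fun s _ => Finset.sum_nonneg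
            fun s' _ => mul_nonneg (mul_nonneg (mz_nonneg _) (mz_nonneg _)) (abs_nonneg _)) (by norm_num)
      _ ≤ (2 * (D * M0) + 2 * (3200 * D * (2 * C))) * 1 := by
          have : 0 ≤ 2 * (3200 * D * (2 * C)) := by positivity
          linarith
      _ ≤ _ := mul_le_mul_of_nonneg_left (by linarith) (by positivity)
  · have hlU : Real.log U ≤ 2 * Real.log T := by
      have := Real.log_le_log hU0 hU2
      rwa [Real.log_pow, Nat.cast_ofNat] at this
    have h1 := hPP U h (Real.log T) (by linarith)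
    have h2 := QS_abs_bound (x := fun s : ℂ => s.im) (Zt U) (Zt U) mz_nonneg
      (f := fun y => D / (1 + y ^ 2)) (K := D) (fun y => by rw [abs_of_nonneg (by positivity)])
      (Λ := Real.log T) (lam := 1) (by positivity) one_pos
    have h3 : ∑ s ∈ Zt U, ∑ s' ∈ Zt U, mz s * mz s' *
        |(fun y => D / (1 + y ^ 2)) ((s.im - s'.im) * Real.log T / (2 * Real.pi))| ≤
        3200 * D * (2 * C) * (v * (T * Real.log T)) := by
      refine h2.trans ?_
      have h4 : C * (U * Real.log U) ≤ 2 * C * (v * (T * Real.log T)) := by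
        have h5 : U * Real.log U ≤ (v * T) * (2 * Real.log T) :=
          mul_le_mul hU1 hlU (Real.log_nonneg (by linarith)) (by positivity)
        calc C * (U * Real.log U) ≤ C * ((v * T) * (2 * Real.log T)) :=
              mul_le_mul_of_nonneg_left h5 hC.le
          _ = _ := by ring
      calc 1600 * D * (1 * PP1 (Zt U) mz (fun s => s.im) (Real.log T) + 1 / 1 *
            PP1 (Zt U) mz (fun s => s.im) (Real.log T))
          = 3200 * D * PP1 (Zt U) mz (fun s => s.im) (Real.log T) := by ring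
        _ ≤ 3200 * D * (2 * C * (v * (T * Real.log T))) :=
            mul_le_mul_of_nonneg_left (h1.trans h4) (by positivity)
        _ = _ := by ring
    calc _ ≤ 2 / (T * Real.log T) * (3200 * D * (2 * C) * (v * (T * Real.log T))) :=
          mul_le_mul_of_nonneg_left h3 (by positivity)
      _ = 2 * (3200 * D * (2 * C)) * v := by
          field_simp
      _ ≤ (2 * (D * M0) + 2 * (3200 * D * (2 * C))) * v := by
          have : 0 ≤ 2 * (D * M0) := by positivity
          nlinarith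
      _ ≤ _ := mul_le_mul_of_nonneg_left (by linarith) (by positivity)

end H479.V
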