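import Pool.Agent.H479.V.Stm2
import Pool.Agent.H479.P.Cv

open MeasureTheory Filter Topology

namespace H479.V

open H479.P
open H479.U hiding mz_nonneg
open Pool.Agent.Y744 TH803TW
open Pool.Agent.N804 (SC CT)
open Pool.Agent.N804.PV (DT GV ph aT)

lemma AG_of_nonneg {y : ℝ} (hy : 0 ≤ y) : AG y = 1 + 2 * gp y := by
  unfold AG
  rw [if_neg (by linarith)]

/-- the counting function and the pairs of different ordinates -/
lemma Aa_split (T : ℝ) {y : ℝ} (hy : 0 ≤ y) :
    Aa T y = Aa T 0 + 2 * (PC T (Set.Ioc 0 y) / Xf T) := by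
  have e3 : PC T (Set.Icc 0 y) = PC T {x | |x| ≤ 0} + PC T (Set.Ioc 0 y) := by
    rw [← PC_union T]
    · congr 1
      ext x
      simp only [Set.mem_Icc, Set.mem_union, Set.mem_ofPred_eq, abs_nonpos_iff, Set.mem_Ioc]
      constructor
      · rintro ⟨h1, h2⟩
        rcases h1.eq_or_lt with h | h
        · exact Or.inl h.symm
        · exact Or.inr ⟨h, h2⟩
      · rintro (rfl | ⟨h1, h2⟩)
        · exact ⟨le_rfl, hy⟩
        · exact ⟨h1.le, h2⟩
    · rw [Set.disjoint_left]
      rintro x (h1 : |x| ≤ 0) h2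
      rw [abs_nonpos_iff] at h1
      rw [h1] at h2
      exact lt_irrefl _ h2.1
  unfold Aa
  rw [PC_abs T hy, e3]
  ring

/-- **the pairs of different ordinates determine the diagonal** -/
theorem Aa_of_NP (RH : RiemannHypothesis)
    (h : ∀ y : ℝ, 0 < y → Tendsto (fun T => PC T (Set.Ioc 0 y) / Xf T) atTop (𝓝 (gp y))) (y : ℝ) :
    Tendsto (fun T => Aa T y) atTop (𝓝 (AG y)) := by
  have h' : ∀ y : ℝ, 0 ≤ y → Tendsto (fun T => PC T (Set.Ioc 0 y) / Xf T) atTop (𝓝 (gp y)) := by
    intro y hy
    rcases hy.eq_or_lt with rfl | hy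
    · rw [gp_zero]
      have e : (fun T => PC T (Set.Ioc 0 0) / Xf T) = fun _ => 0 := by
        funext T
        have : PC T (Set.Ioc 0 0) = 0 := by
          unfold PC
          simp
        rw [this, zero_div]
      rw [e]
      exact tendsto_const_nhds
    · exact h y hy
  have h0 : Tendsto (fun T => Aa T 0) atTop (𝓝 1) := by
    obtain ⟨C0, T0, hT0, hb⟩ := Aa_bound RH
    rw [tendsto_iff_ultrafilter]
    intro g hg
    have hTg : ∀ᶠ T in (g : Filter ℝ), T0 ≤ T := hg (eventually_ge_atTop _)
    have h1 : ((g.map fun T => Aa T 0 : Ultrafilter ℝ) : Filter ℝ) ≤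
        𝓟 (Set.Icc (-(C0 * (1 + 0 ^ 2))) (C0 * (1 + 0 ^ 2))) := by
      rw [le_principal_iff]
      have h2 : ∀ᶠ T in (g : Filter ℝ), Aa T 0 ∈
          Set.Icc (-(C0 * (1 + 0 ^ 2))) (C0 * (1 + 0 ^ 2)) := by
        filter_upwards [hTg] with T hT1
        exact abs_le.1 (hb T hT1 0)
      exact h2
    obtain ⟨d, _, hd⟩ := isCompact_Icc.ultrafilter_le_nhds _ h1
    have hd' : Tendsto (fun T => Aa T 0) (g : Filter ℝ) (𝓝 d) := hd
    obtain ⟨A', hA'⟩ : ∃ A' : ℝ → ℝ, A' = fun y => AG y + (d - 1) * (Set.Ici (0 : ℝ)).indicator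
      (fun _ => 1) y := ⟨_, rfl⟩
    have hlim : ∀ y, Tendsto (fun T => Aa T y) (g : Filter ℝ) (𝓝 (A' y)) := by
      intro y
      rcases lt_or_ge y 0 with hy | hy
      · have e1 : A' y = 0 := by
          rw [hA']
          simp only
          rw [Set.indicator_of_notMem (show y ∉ Set.Ici (0 : ℝ) from not_le.2 hy)]
          unfold AG
          rw [if_pos hy]
          ring
        have e2 : (fun T => Aa T y) = fun _ => 0 := funext fun T => Aa_neg T y hy
        rw [e1, e2]
        exact tendsto_const_nhds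
      · have e1 : A' y = d + 2 * gp y := by
          rw [hA']
          simp only
          rw [Set.indicator_of_mem (show y ∈ Set.Ici (0 : ℝ) from hy), AG_of_nonneg hy]
          ring
        rw [e1]
        refine (hd'.add (((h' y hy).mono_left hg).const_mul 2)).congr fun T => ?_
        exact (Aa_split T hy).symm
    have hmono : ∀ T, T0 ≤ T → Monotone (Aa T) := fun T hT => Aa_mono (by linarith)
    have hmA : Monotone A' := by
      intro a b hab
      refine le_of_tendsto_of_tendsto (hlim a) (hlim b) ?_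
      filter_upwards [hTg] with T hT1 using hmono T hT1 hab
    -- a test function
    obtain ⟨χ, hχ, hχ1, hχ0, hχle⟩ := exists_chi (lam := 1 / 4) (kap := 1 / 2) (by norm_num) (by norm_num)
    have hw : EW χ := ⟨⟨hχ.smooth, HasCompactSupport.of_support_subset_isCompact
      (isCompact_Icc (a := -(1 / 2 : ℝ)) (b := 1 / 2)) fun x hx => by
        by_contra hc
        refine hx (hχ.supp x ?_)
        rw [Set.mem_Icc, ← abs_le, not_le] at hc
        exact hc⟩, hχ.even⟩
    obtain ⟨hh, K, hh0, hK, he, hf⟩ := ew_fav (κ := 1 / 2) (by norm_num) hw hχ.supp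
    have hm := mont RH (κ := 1 / 2) (by norm_num) (by norm_num) hw hχ.supp
    obtain ⟨D, hD⟩ := test_decay hK hh
    have hwm : Measurable fun y => ct K (y + hh) - ct K (y - hh) :=
      ((hK.ct_cont.comp (by fun_prop)).sub (hK.ct_cont.comp (by fun_prop))).measurable
    have h3 : Tendsto (fun T => ∫ y, Aa T y * (ct K (y + hh) - ct K (y - hh))) atTop
        (𝓝 (-Lam χ)) := by
      refine hm.neg.congr fun T => ?_
      rw [Aa_int hK hh0]
      unfold QP
      rw [hf, div_eq_inv_mul]
    have h4 := lim_int' hmono hb hwm hD (l := atTop) h3 hg hg hmA hlim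
    have h5 := AG_Lam hK hh0
    rw [he] at h5
    have hwi := dfav_int hK hh
    have hi1 : Integrable fun y => AG y * (ct K (y + hh) - ct K (y - hh)) := by
      have hDi : Integrable fun y : ℝ => 2 * D * (1 + y ^ 2)⁻¹ :=
        integrable_inv_one_add_sq.const_mul _
      refine hDi.mono' (AG_meas.mul hwm).aestronglyMeasurable (Eventually.of_forall fun y => ?_)
      rw [Real.norm_eq_abs, abs_mul]
      have h1 : 0 < 1 + y ^ 2 := by positivity
      calc |AG y| * |ct K (y + hh) - ct K (y - hh)| ≤ (2 * (1 + y ^ 2)) * (D / (1 + y ^ 2) ^ 2) := by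
            gcongr
            · exact AG_bound y
            · exact hD y
        _ = 2 * D * (1 + y ^ 2)⁻¹ := by field_simp
    have h6 : ∫ y, A' y * (ct K (y + hh) - ct K (y - hh)) =
        (∫ y, AG y * (ct K (y + hh) - ct K (y - hh))) + (d - 1) * -(fav K hh 0) := by
      have e1 : ∀ y, A' y * (ct K (y + hh) - ct K (y - hh)) =
          AG y * (ct K (y + hh) - ct K (y - hh)) + (d - 1) *
          (Set.Ici (0 : ℝ)).indicator (fun y => ct K (y + hh) - ct K (y - hh)) y := by
        intro y
        rw [hA']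
        simp only
        by_cases hy : y ∈ Set.Ici (0 : ℝ)
        · rw [Set.indicator_of_mem hy, Set.indicator_of_mem hy]
          ring
        · rw [Set.indicator_of_notMem hy, Set.indicator_of_notMem hy]
          ring
      simp_rw [e1]
      rw [integral_add hi1 ((hwi.indicator measurableSet_Ici).const_mul _), integral_const_mul,
        integral_indicator measurableSet_Ici, integral_Ici_eq_integral_Ioi, tail_int hK hh0]
    rw [h4, h5] at h6
    have h7 : fav K hh 0 = ∫ x, χ x := by
      rw [← hf]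
      unfold CT
      congr 1
      funext x
      simp
    have h8 : 0 < ∫ x, χ x := by
      have hi : Integrable χ := hχ.integrable
      have h9 : ∫ x in (-(1 / 4 : ℝ))..(1 / 4), (1 : ℝ) ≤ ∫ x, χ x := by
        rw [intervalIntegral.integral_of_le (by norm_num)]
        calc ∫ x in Set.Ioc (-(1 / 4 : ℝ)) (1 / 4), (1 : ℝ) = ∫ x in Set.Ioc (-(1 / 4 : ℝ)) (1 / 4), χ x := by
              refine setIntegral_congr_fun measurableSet_Ioc fun x hx => ?_
              exact (hχ1 x (abs_le.2 ⟨hx.1.le, hx.2⟩)).symm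
          _ ≤ ∫ x, χ x := setIntegral_le_integral hi (Eventually.of_forall hχ0)
      rw [intervalIntegral.integral_const] at h9
      norm_num at h9
      linarith
    have h9 : d = 1 := by
      rw [h7] at h6
      have h10 : (d - 1) * (∫ x, χ x) = 0 := by linarith
      rcases mul_eq_zero.1 h10 with h | h
      · linarith
      · exact absurd h h8.ne'
    rw [h9] at hd'
    exact hd'
  rcases lt_or_ge y 0 with hy | hy
  · have e1 : AG y = 0 := by
      unfold AG
      rw [if_pos hy]
    have e2 : (fun T => Aa T y) = fun _ => 0 := funext fun T => Aa_neg T y hy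
    rw [e1, e2]
    exact tendsto_const_nhds
  · rw [AG_of_nonneg hy]
    refine (h0.add ((h' y hy).const_mul 2)).congr fun T => ?_
    exact (Aa_split T hy).symm

end H479.V
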