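import Pool.Agent.H479.V.Asm
import Pool.Agent.H479.V.C2

open MeasureTheory Filter Topology

namespace H479.V

open H479.P
open H479.U hiding mz_nonneg
open Pool.Agent.Y744 TH803TW
open Pool.Agent.N804 (SC CT)
open Pool.Agent.N804.PV (DT GV ph aT)

/-- the nontrivial zeros of `ζ` -/
def nz : Set ℂ := {s : ℂ | riemannZeta s = 0 ∧ 0 < s.re ∧ s.re < 1}

/-- `N*(T, a)` -/
noncomputable def Nst (T a : ℝ) : ℕ :=
  ∑ᶠ s ∈ {s : ℂ | s ∈ nz ∧ 0 < s.im ∧ s.im ≤ T}, ∑ᶠ s' ∈ {s' : ℂ | s' ∈ nz ∧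
    0 < s.im - s'.im ∧ s.im - s'.im ≤ 2 * Real.pi * a / Real.log T},
      analyticOrderNatAt riemannZeta s * analyticOrderNatAt riemannZeta s'

lemma Nst_PC (a : ℝ) (ha : 0 < a) : ∀ᶠ T in atTop, (Nst T a : ℝ) = PC T (Set.Ioc 0 a) := by
  classical
  obtain ⟨h0, hh0, hlow⟩ := C2L.low
  have hpi := Real.pi_pos
  have hL : ∀ᶠ T : ℝ in atTop, 2 * Real.pi * a / h0 < Real.log T :=
    Real.tendsto_log_atTop.eventually_gt_atTop _
  filter_upwards [hL, eventually_gt_atTop 1] with T hT hT1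
  have hlog : 0 < Real.log T := Real.log_pos hT1
  have hsmall : 2 * Real.pi * a / Real.log T < h0 := by
    rw [div_lt_iff₀ hlog]
    rw [div_lt_iff₀ hh0] at hT
    linarith
  have e1 : {s : ℂ | s ∈ nz ∧ 0 < s.im ∧ s.im ≤ T} = ↑(Zt T) := by
    ext s
    rw [Finset.mem_coe, mem_Zt]
    show (riemannZeta s = 0 ∧ 0 < s.re ∧ s.re < 1) ∧ 0 < s.im ∧ s.im ≤ T ↔
      0 < s.re ∧ s.re < 1 ∧ 0 < s.im ∧ s.im ≤ T ∧ riemannZeta s = 0
    tauto
  have e2 : ∀ s ∈ Zt T, {s' : ℂ | s' ∈ nz ∧ 0 < s.im - s'.im ∧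
      s.im - s'.im ≤ 2 * Real.pi * a / Real.log T} =
      ↑((Zt T).filter fun s' => dd T s s' ∈ Set.Ioc 0 a) := by
    intro s hs
    have hs1 := mem_Zt.1 hs
    have hs2 : h0 ≤ s.im := hlow s ⟨hs1.2.2.2.2, hs1.1, hs1.2.1⟩ hs1.2.2.1
    have hdd : ∀ s' : ℂ, dd T s s' ∈ Set.Ioc 0 a ↔
        (0 < s.im - s'.im ∧ s.im - s'.im ≤ 2 * Real.pi * a / Real.log T) := by
      intro s'
      unfold dd
      rw [Set.mem_Ioc, le_div_iff₀ hlog, div_le_iff₀ (by positivity : 0 < 2 * Real.pi)]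
      constructor
      · rintro ⟨h1, h2⟩
        refine ⟨?_, by linarith⟩
        by_contra hc
        push Not at hc
        have : (s.im - s'.im) * Real.log T / (2 * Real.pi) ≤ 0 :=
          div_nonpos_of_nonpos_of_nonneg (mul_nonpos_of_nonpos_of_nonneg hc hlog.le) (by positivity)
        linarith
      · rintro ⟨h1, h2⟩
        exact ⟨by positivity, by linarith⟩
    ext s'
    rw [Finset.mem_coe, Finset.mem_filter, hdd, mem_Zt]
    show (riemannZeta s' = 0 ∧ 0 < s'.re ∧ s'.re < 1) ∧ _ ↔ _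
    constructor
    · rintro ⟨⟨a1, a2, a3⟩, a4, a5⟩
      refine ⟨⟨a2, a3, by linarith, by linarith [hs1.2.2.2.1], a1⟩, a4, a5⟩
    · rintro ⟨⟨a2, a3, _, _, a1⟩, a4, a5⟩
      exact ⟨⟨a1, a2, a3⟩, a4, a5⟩
  unfold Nst
  rw [e1, finsum_mem_coe_finset]
  unfold PC
  push_cast
  refine Finset.sum_congr rfl fun s hs => ?_
  rw [e2 s hs, finsum_mem_coe_finset]
  push_cast
  rw [Finset.sum_filter]
  refine Finset.sum_congr rfl fun s' _ => ?_
  by_cases h : dd T s s' ∈ Set.Ioc 0 a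
  · rw [if_pos h, Set.indicator_of_mem h, mul_one]
    rfl
  · rw [if_neg h, Set.indicator_of_notMem h, mul_zero]

lemma gp_sin (a : ℝ) :
    gp a = ∫ u in (0 : ℝ)..a, (1 - (Real.sin (Real.pi * u) / (Real.pi * u)) ^ 2) := by
  unfold gp
  refine intervalIntegral.integral_congr_ae ?_
  have h0 : ∀ᵐ u : ℝ, u ≠ 0 := by
    have : ({0} : Set ℝ).Countable := Set.countable_singleton 0
    exact this.ae_notMem volume
  filter_upwards [h0] with u hu _
  unfold gd
  rw [Real.sinc_of_ne_zero (mul_ne_zero Real.pi_ne_zero hu)]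

/-- the conjecture for `N*` in terms of the counting functions -/
lemma PCC_iff {a : ℝ} (ha : 0 < a) : Tendsto (fun T => (Nst T a : ℝ) / (T * Real.log T)) atTop
    (𝓝 (1 / (2 * Real.pi) * ∫ u in (0 : ℝ)..a, (1 - (Real.sin (Real.pi * u) / (Real.pi * u)) ^ 2))) ↔
    Tendsto (fun T => PC T (Set.Ioc 0 a) / Xf T) atTop (𝓝 (gp a)) := by
  have hpi := Real.pi_pos
  rw [← gp_sin]
  have e : (fun T => (Nst T a : ℝ) / (T * Real.log T)) =ᶠ[atTop]
      fun T => 1 / (2 * Real.pi) * (PC T (Set.Ioc 0 a) / Xf T) := by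
    filter_upwards [Nst_PC a ha, eventually_gt_atTop 1] with T hT hT1
    have hL : 0 < Real.log T := Real.log_pos hT1
    rw [hT]
    unfold Xf
    field_simp
  rw [tendsto_congr' e]
  constructor
  · intro h
    have h1 := h.const_mul (2 * Real.pi)
    have e2 : 2 * Real.pi * (1 / (2 * Real.pi) * gp a) = gp a := by field_simp
    rw [e2] at h1
    refine h1.congr fun T => ?_
    field_simp
  · intro h
    exact h.const_mul _

/-- the conjecture for the differences and for `N*` -/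
theorem Aa_iff (RH : RiemannHypothesis) :
    (∀ a : ℝ, 0 < a → Tendsto (fun T => (Nst T a : ℝ) / (T * Real.log T)) atTop
      (𝓝 (1 / (2 * Real.pi) * ∫ u in (0 : ℝ)..a, (1 - (Real.sin (Real.pi * u) / (Real.pi * u)) ^ 2)))) ↔
    ∀ y, Tendsto (fun T => Aa T y) atTop (𝓝 (AG y)) := by
  constructor
  · intro h
    exact Aa_of_NP RH fun y hy => (PCC_iff hy).1 (h y hy)
  · intro h a ha
    rw [PCC_iff ha]
    have h1 := ((h a).sub (h 0)).div_const 2
    have e1 : (AG a - AG 0) / 2 = gp a := by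
      rw [AG_of_nonneg ha.le, AG_of_nonneg le_rfl, gp_zero]
      ring
    rw [e1] at h1
    refine h1.congr fun T => ?_
    rw [Aa_split T ha.le]
    ring

/-- one-sided windows -/
def OS : Prop := ∀ u v : ℝ, 1 ≤ u → u < v → ∀ ε : ℝ, 0 < ε → ∀ᶠ T in atTop, GV T u v ≤ v - u + ε

/-- two-sided windows -/
def TS : Prop := ∀ u v : ℝ, 1 ≤ u → u < v → Tendsto (fun T => GV T u v) atTop (𝓝 (v - u))

lemma OS_of_TS (h : TS) : OS := by
  intro u v hu huv ε hε
  filter_upwards [(tendsto_order.1 (h u v hu huv)).2 (v - u + ε) (by linarith)] with T hT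
  exact hT.le

end H479.V
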