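import Pool.Agent.H479.V.Stm
import Pool.Graph.R_pool_sql_team_seeded_63374d34.N482.PV_ABEL

open MeasureTheory Filter Topology

namespace H479.V

open H479.P
open H479.U hiding mz_nonneg
open Pool.Agent.Y744 TH803TW
open Pool.Agent.N804 (SC CT)
open Pool.Agent.N804.PV (DT GV ph aT)

lemma sinc_pos {x : ℝ} (hx : |x| < Real.pi) : 0 < Real.sinc x := by
  rcases lt_trichotomy x 0 with h | rfl | h
  · rw [Real.sinc_of_ne_zero h.ne]
    rw [abs_of_neg h] at hx
    have h1 : 0 < Real.sin (-x) := Real.sin_pos_of_pos_of_lt_pi (by linarith) hx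
    rw [Real.sin_neg] at h1
    exact div_pos_of_neg_of_neg (by linarith) h
  · rw [Real.sinc_zero]
    exact one_pos
  · rw [Real.sinc_of_ne_zero h.ne']
    rw [abs_of_pos h] at hx
    exact div_pos (Real.sin_pos_of_pos_of_lt_pi h hx) h

/-- every even test function is a window average -/
lemma ew_kav {κ : ℝ} (hκ : 0 ≤ κ) {w : ℝ → ℝ} (hw : EW w) (hs : ∀ x, κ < |x| → w x = 0) :
    ∃ (h : ℝ) (K : ℝ → ℝ), 0 < h ∧ TK κ K ∧ Kav K h = w := by
  obtain ⟨h, hh⟩ : ∃ h : ℝ, h = 1 / (8 * (κ + 1)) := ⟨_, rfl⟩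
  have hh0 : 0 < h := by rw [hh]; positivity
  have hpi := Real.pi_pos
  have hsm : ∀ α : ℝ, |α| < κ + 1 → 0 < Real.sinc (2 * Real.pi * h * α) := by
    intro α hα
    apply sinc_pos
    rw [abs_mul, abs_of_pos (by positivity : 0 < 2 * Real.pi * h)]
    have h1 : 2 * Real.pi * h * |α| ≤ 2 * Real.pi * h * (κ + 1) :=
      mul_le_mul_of_nonneg_left hα.le (by positivity)
    have h2 : 2 * Real.pi * h * (κ + 1) = Real.pi / 4 := by
      rw [hh]
      field_simp
      ring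
    linarith
  refine ⟨h, fun α => w α / (2 * h * Real.sinc (2 * Real.pi * h * α)), hh0, ⟨?_, ?_, ?_⟩, ?_⟩
  · rw [contDiff_iff_contDiffAt]
    intro α
    rcases lt_or_ge |α| (κ + 1) with h1 | h1
    · have hc : ContDiffAt ℝ (⊤ : ℕ∞) (fun α : ℝ => 2 * h * Real.sinc (2 * Real.pi * h * α)) α := by
        refine ContDiffAt.mul contDiffAt_const ?_
        have := Pool.Agent.N482.PV.sinc_smooth.comp
          (contDiff_const.mul contDiff_id : ContDiff ℝ (⊤ : ℕ∞) fun α : ℝ => 2 * Real.pi * h * α)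
        exact this.contDiffAt
      exact hw.sc.sm.contDiffAt.div hc (by have := hsm α h1; positivity)
    · have h2 : ∀ᶠ x in 𝓝 α, κ < |x| := by
        have : ContinuousAt (fun x : ℝ => |x|) α := continuous_abs.continuousAt
        exact this.eventually (lt_mem_nhds (by linarith))
      refine (contDiffAt_const (c := (0 : ℝ))).congr_of_eventuallyEq ?_
      filter_upwards [h2] with x hx
      rw [hs x hx, zero_div]
  · intro x
    have e : 2 * Real.pi * h * -x = -(2 * Real.pi * h * x) := by ring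
    show w (-x) / _ = _
    rw [e, Real.sinc_neg, hw.even]
  · intro x hx
    show w x / _ = 0
    rw [hs x hx, zero_div]
  · funext α
    show w α / (2 * h * Real.sinc (2 * Real.pi * h * α)) * (2 * h * Real.sinc (2 * Real.pi * h * α)) =
      w α
    rcases lt_or_ge |α| (κ + 1) with h1 | h1
    · have := hsm α h1
      exact div_mul_cancel₀ _ (by positivity)
    · rw [hs α (by linarith)]
      ring

lemma CT_ct (w : ℝ → ℝ) (y : ℝ) : CT w y = ct w y := by
  unfold CT ct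
  congr 1
  funext α
  congr 2
  ring

lemma EW.supp {w : ℝ → ℝ} (hw : EW w) : ∃ κ : ℝ, 0 ≤ κ ∧ ∀ x, κ < |x| → w x = 0 := by
  obtain ⟨R, hR⟩ := hw.sc.cs.isCompact.isBounded.subset_closedBall 0
  refine ⟨max R 0, le_max_right _ _, fun x hx => ?_⟩
  by_contra h0
  have h1 : x ∈ tsupport w := subset_tsupport _ h0
  have h2 := hR h1
  rw [Metric.mem_closedBall, Real.dist_eq, sub_zero] at h2
  have := le_max_left R 0
  linarith

/-- the package for the library's lemmas -/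
lemma ew_fav {κ : ℝ} (hκ : 0 ≤ κ) {w : ℝ → ℝ} (hw : EW w) (hs : ∀ x, κ < |x| → w x = 0) :
    ∃ (h : ℝ) (K : ℝ → ℝ), 0 < h ∧ TK κ K ∧ Kav K h = w ∧ CT w = fav K h := by
  obtain ⟨h, K, hh, hK, he⟩ := ew_kav hκ hw hs
  refine ⟨h, K, hh, hK, he, ?_⟩
  funext y
  rw [CT_ct, ← he]
  exact (fav_eq hK hh y).symm

lemma ew_decay {w : ℝ → ℝ} (hw : EW w) : ∃ D : ℝ, 0 ≤ D ∧ ∀ y, |CT w y| ≤ D / (1 + y ^ 2) ^ 2 := by
  obtain ⟨κ, hκ, hs⟩ := hw.supp
  obtain ⟨h, K, hh, hK, he, hf⟩ := ew_fav hκ hw hs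
  rw [hf]
  exact fav_decay hK hh

lemma ew_scale {w : ℝ → ℝ} (hw : EW w) : ∃ C : ℝ, 0 ≤ C ∧ ∀ y s : ℝ, 1 ≤ s →
    |CT w (s * y) - CT w y| ≤ C * (s - 1) / (1 + y ^ 2) := by
  obtain ⟨κ, hκ, hs⟩ := hw.supp
  obtain ⟨h, K, hh, hK, he, hf⟩ := ew_fav hκ hw hs
  rw [hf]
  exact fav_scale hK h

end H479.V
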