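import Pool.Agent.H479.V.Sh

open MeasureTheory Filter Topology

namespace H479.V

open H479.P
open H479.U hiding mz_nonneg
open Pool.Agent.Y744 TH803TW
open Pool.Agent.N804 (SC CT)
open Pool.Agent.N804.PV (DT GV ph aT S_ABEL S_ABELB S_TAU)

/-- Montgomery's theorem for even smooth test functions with support in `(-1, 1)` -/
theorem mont (RH : RiemannHypothesis) {κ : ℝ} (hκ0 : 0 < κ) (hκ : κ < 1) {w : ℝ → ℝ} (hw : EW w)
    (hs : ∀ x, κ < |x| → w x = 0) : Tendsto (QP w) atTop (𝓝 (Lam w)) := by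
  obtain ⟨h, K, hh, hK, he, hf⟩ := ew_fav hκ0.le hw hs
  have h1 := mont_lim RH (NTf_fav hK hκ0 hκ hh)
  rw [mont_fav hK hκ hh] at h1
  obtain ⟨D, hD0, hD⟩ := fav_decay hK hh
  have e : ∀ y, ct (Kav K h) y = fav K h y := fun y => (fav_eq hK hh y).symm
  have h2 := main_gen (CE_Kav hK h) (D := D) (fun x => by rw [e]; exact hD x)
  simp_rw [e] at h2
  rw [h2, he] at h1
  unfold QP
  rw [hf]
  exact h1

/-- from the convergence of the mean of `F` to all even smooth test functions -/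
theorem QP_of_ST (RH : RiemannHypothesis) (hS : ∀ t, 1 ≤ t → Tendsto (fun T => H479.P.ST T t) atTop (𝓝 0))
    {w : ℝ → ℝ} (hw : EW w) : Tendsto (QP w) atTop (𝓝 (Lam w)) := by
  obtain ⟨κ, hκ, hs⟩ := hw.supp
  obtain ⟨h, K, hh, hK, he, hf⟩ := ew_fav hκ hw hs
  have h1 := testA RH le_rfl hS hK hh
  rw [he] at h1
  unfold QP
  rw [hf]
  exact h1

end H479.V
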