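import Pool.Agent.H479.V.Ab

open MeasureTheory Filter Topology

namespace H479.V

open H479.P
open H479.U hiding mz_nonneg
open Pool.Agent.Y744 TH803TW
open Pool.Agent.N804 (SC CT)
open Pool.Agent.N804.PV (DT GV ph aT S_ABEL S_ABELB S_TAU)

/-- a change of the scale -/
lemma scale2 {ι : Type*} (S : Finset ι) {m x : ι → ℝ} (hm : ∀ s, 0 ≤ m s) {f : ℝ → ℝ} {C : ℝ} (hC : 0 ≤ C)
    (hs : ∀ y s, 1 ≤ s → |f (s * y) - f y| ≤ C * (s - 1) / (1 + y ^ 2)) {L L' : ℝ} (hL : 0 < L)
    (hL' : 0 < L') :
    |QS S S m x f L' - QS S S m x f L| ≤ 3200 * (C * (|L' - L| / min L L')) * PP1 S m x (min L L') := by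
  rcases le_total L L' with h | h
  · have h1 := scale_err S hm hC hs (x := x) hL (s := L' / L) (by rwa [le_div_iff₀ hL, one_mul])
    rw [div_mul_cancel₀ _ hL.ne'] at h1
    rw [min_eq_left h, abs_of_nonneg (by linarith : 0 ≤ L' - L)]
    have e : L' / L - 1 = (L' - L) / L := by field_simp
    rwa [e] at h1
  · have h1 := scale_err S hm hC hs (x := x) hL' (s := L / L') (by rwa [le_div_iff₀ hL', one_mul])
    rw [div_mul_cancel₀ _ hL'.ne'] at h1
    rw [min_eq_right h, abs_sub_comm, abs_sub_comm L', abs_of_nonneg (by linarith : 0 ≤ L - L')]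
    have e : L / L' - 1 = (L - L') / L' := by field_simp
    rwa [e] at h1

lemma QP_scale (RH : RiemannHypothesis) {w : ℝ → ℝ} (hw : EW w) {v : ℝ} (hv : 0 < v) :
    Tendsto (fun T => (Q2 (CT w) (v * T) (Real.log T) - Q2 (CT w) (v * T) (Real.log (v * T))) / Xf (v * T))
      atTop (𝓝 0) := by
  obtain ⟨C, hC, hs⟩ := ew_scale hw
  obtain ⟨C2, V0, hC2, hV0, hPP⟩ := PPh RH
  have hvT : Tendsto (fun T : ℝ => v * T) atTop atTop := tendsto_id.const_mul_atTop hv
  have hlog := Real.tendsto_log_atTop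
  have hpi := Real.pi_pos
  have key : ∀ᶠ T : ℝ in atTop, ‖(Q2 (CT w) (v * T) (Real.log T) - Q2 (CT w) (v * T)
      (Real.log (v * T))) / Xf (v * T)‖ ≤ (3200 * C * (2 * |Real.log v|) * C2 * (2 * Real.pi)) * (Real.log T)⁻¹ := by
    filter_upwards [eventually_ge_atTop 20, hvT.eventually_ge_atTop V0,
      hlog.eventually_ge_atTop (2 * |Real.log v| + 2)] with T hT hT2 hT3
    have hT0 : 0 < T := by linarith
    have hvT0 : 0 < v * T := by positivity
    have hL : 0 < Real.log T := by have := abs_nonneg (Real.log v); linarith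
    have e1 : Real.log (v * T) = Real.log v + Real.log T := Real.log_mul hv.ne' hT0.ne'
    have h1 := neg_abs_le (Real.log v)
    have h2 := le_abs_self (Real.log v)
    have hL' : 0 < Real.log (v * T) := by rw [e1]; linarith
    have hmin : Real.log T / 2 ≤ min (Real.log (v * T)) (Real.log T) :=
      le_min (by rw [e1]; linarith) (by linarith)
    have hmin2 : Real.log (v * T) / 2 ≤ min (Real.log (v * T)) (Real.log T) :=
      le_min (by linarith) (by rw [e1]; linarith)
    have hmin0 : 0 < min (Real.log (v * T)) (Real.log T) := by linarith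
    have a1 := scale2 (Zt (v * T)) (m := mz) (x := fun s : ℂ => s.im) mz_nonneg hC hs hL' hL
    have a2 := hPP (v * T) hT2 _ hmin2
    have hX : Xf (v * T) = v * T * Real.log (v * T) / (2 * Real.pi) := rfl
    have hX0 : 0 < Xf (v * T) := by rw [hX]; positivity
    rw [norm_div, Real.norm_eq_abs, Real.norm_eq_abs, abs_of_pos hX0, div_le_iff₀ hX0]
    have e2 : Real.log T - Real.log (v * T) = -Real.log v := by rw [e1]; ring
    rw [e2, abs_neg] at a1
    refine a1.trans ?_
    have a3 : |Real.log v| / min (Real.log (v * T)) (Real.log T) ≤ 2 * |Real.log v| * (Real.log T)⁻¹ := by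
      rw [div_le_iff₀ hmin0]
      calc |Real.log v| = 2 * |Real.log v| * (Real.log T)⁻¹ * (Real.log T / 2) := by field_simp
        _ ≤ _ := mul_le_mul_of_nonneg_left hmin (by positivity)
    calc 3200 * (C * (|Real.log v| / min (Real.log (v * T)) (Real.log T))) *
          PP1 (Zt (v * T)) mz (fun s => s.im) (min (Real.log (v * T)) (Real.log T))
        ≤ 3200 * (C * (2 * |Real.log v| * (Real.log T)⁻¹)) * (C2 * (v * T * Real.log (v * T))) := by
          refine mul_le_mul ?_ a2 ?_ (by positivity)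
          · exact mul_le_mul_of_nonneg_left (mul_le_mul_of_nonneg_left a3 hC) (by norm_num)
          · unfold PP1
            refine Finset.sum_nonneg fun s _ => Finset.sum_nonneg fun s' _ => ?_
            refine mul_nonneg (mul_nonneg (mz_nonneg _) (mz_nonneg _)) ?_
            split_ifs <;> norm_num
      _ = _ := by
          rw [hX]
          field_simp
  have h0 : Tendsto (fun T : ℝ => (3200 * C * (2 * |Real.log v|) * C2 * (2 * Real.pi)) * (Real.log T)⁻¹)
      atTop (𝓝 0) := by
    have := (hlog.inv_tendsto_atTop).const_mul (3200 * C * (2 * |Real.log v|) * C2 * (2 * Real.pi))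
    rw [mul_zero] at this
    exact this
  exact squeeze_zero_norm' key h0

lemma logq {v : ℝ} (hv : 0 < v) : Tendsto (fun T : ℝ => Real.log (v * T) / Real.log T) atTop (𝓝 1) := by
  have hlog := Real.tendsto_log_atTop
  have h1 : Tendsto (fun T : ℝ => Real.log v * (Real.log T)⁻¹ + 1) atTop (𝓝 1) := by
    have := ((hlog.inv_tendsto_atTop).const_mul (Real.log v)).add_const 1
    rw [mul_zero, zero_add] at this
    exact this
  refine h1.congr' ?_
  filter_upwards [eventually_gt_atTop 1] with T hT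
  have hL := Real.log_pos hT
  rw [Real.log_mul hv.ne' (by linarith)]
  field_simp

/-- the sharp cutoff at the height `v T` -/
lemma sharp (RH : RiemannHypothesis) {w : ℝ → ℝ} (hw : EW w) {ℓ : ℝ}
    (h : Tendsto (QP w) atTop (𝓝 ℓ)) {v : ℝ} (hv : 0 < v) :
    Tendsto (fun T => ∑ q ∈ AP T, (if pp T q ≤ v then cw (CT w) T q else 0)) atTop
      (𝓝 (v * (ℓ / Real.pi))) := by
  have hpi := Real.pi_pos
  have hvT : Tendsto (fun T : ℝ => v * T) atTop atTop := tendsto_id.const_mul_atTop hv
  have h1 : Tendsto (fun T => QP w (v * T)) atTop (𝓝 ℓ) := h.comp hvT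
  have h2 := h1.add (QP_scale RH hw hv)
  rw [add_zero] at h2
  have h3 := ((logq hv).const_mul (v / Real.pi)).mul h2
  have e : v / Real.pi * 1 * ℓ = v * (ℓ / Real.pi) := by ring
  rw [e] at h3
  refine h3.congr' ?_
  filter_upwards [eventually_ge_atTop 20, eventually_ge_atTop v, hvT.eventually_gt_atTop 1]
    with T hT hT2 hT3
  have hT0 : 0 < T := by linarith
  have hL : 0 < Real.log T := Real.log_pos (by linarith)
  have hL' : 0 < Real.log (v * T) := Real.log_pos hT3
  have hU2 : v * T ≤ T ^ 2 := by nlinarith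
  have e1 : ∑ q ∈ AP T, (if pp T q ≤ v then cw (CT w) T q else 0) =
      ∑ s ∈ Zt (v * T), ∑ s' ∈ Zt (v * T), cw (CT w) T (s, s') := by
    rw [← cut hU2]
    refine Finset.sum_congr rfl fun q hq => ?_
    have h1 : pp T q ≤ v ↔ max q.1.im q.2.im ≤ v * T := by
      unfold pp
      rw [div_le_iff₀ hT0]
    by_cases h : pp T q ≤ v
    · rw [if_pos h, if_pos (h1.1 h)]
    · rw [if_neg h, if_neg (fun hc => h (h1.2 hc))]
  have e2 : ∑ s ∈ Zt (v * T), ∑ s' ∈ Zt (v * T), cw (CT w) T (s, s') =
      2 / (T * Real.log T) * Q2 (CT w) (v * T) (Real.log T) := by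
    unfold Q2 QS
    rw [Finset.mul_sum]
    refine Finset.sum_congr rfl fun s _ => ?_
    rw [Finset.mul_sum]
    refine Finset.sum_congr rfl fun s' _ => ?_
    unfold cw
    ring
  rw [e1, e2]
  unfold QP
  rw [← add_div, add_sub_cancel]
  have hX : Xf (v * T) = v * T * Real.log (v * T) / (2 * Real.pi) := rfl
  rw [hX]
  field_simp

/-- **AB** -/
theorem ab : S_AB := by
  intro RH w ℓ hw h
  obtain ⟨D, hD, hd⟩ := ew_decay hw
  obtain ⟨B, T0, hB, hT0, hb⟩ := Bbound RH hD
  have h1 := Pool.Agent.N482.PV.abel (ℂ × ℂ) (ℓ / Real.pi) B T0 AP pp (cw (CT w))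
    (cw (fun y => D / (1 + y ^ 2))) ?_ (fun T hT v hv => hb T hT v hv)
    (fun v hv => sharp RH hw h hv)
  · have e : Real.pi * (ℓ / Real.pi) = ℓ := by
      have := Real.pi_pos
      field_simp
    rw [e] at h1
    refine h1.congr fun T => ?_
    rw [RP_eq]
  · intro T hT q hq
    have hT20 : 20 ≤ T := hT0.trans hT
    have hL : 0 < Real.log T := Real.log_pos (by linarith)
    refine ⟨pp_pos (by linarith) hq, ?_⟩
    unfold cw
    have hm : 0 ≤ mz q.1 * mz q.2 := mul_nonneg (mz_nonneg _) (mz_nonneg _)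
    have h2 : 0 ≤ 2 / (T * Real.log T) := by positivity
    rw [abs_mul, abs_of_nonneg hm, abs_mul, abs_of_nonneg h2]
    refine mul_le_mul_of_nonneg_left (mul_le_mul_of_nonneg_left ?_ h2) hm
    refine (hd _).trans ?_
    apply div_le_div_of_nonneg_left hD (by positivity)
    have := sq_nonneg ((q.1.im - q.2.im) * Real.log T / (2 * Real.pi))
    nlinarith

end H479.V
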