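import Pool.Agent.H479.P.Cv
import Pool.Graph.R_pool_sql_team_seeded_63374d34.N804.CS
import Pool.Graph.R_pool_sql_team_seeded_63374d34.N804.PV.Def
import Pool.Graph.R_pool_sql_team_seeded_f72693b1.W187.WP.Stmts

/-!
# The variance of the primes and the pair correlation of the zeros: interface
-/

open MeasureTheory Filter Topology

namespace H479.V

open H479.P
open H479.U hiding mz_nonneg
open Pool.Agent.Y744 TH803TW
open Pool.Agent.N804 (SC CT)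
open Pool.Agent.N804.PV (DT GV ph aT)

noncomputable section

/-- even smooth functions of compact support -/
structure EW (w : ℝ → ℝ) : Prop where
  sc : SC w
  even : ∀ x, w (-x) = w x

/-- density of the variance of the primes, with respect to `α = log x / log T` -/
def ft (T α : ℝ) : ℝ := T / Real.log T * DT T (α * Real.log T) ^ 2

/-- the pair functional with the weight `ph` -/
def RP (w : ℝ → ℝ) (T : ℝ) : ℝ := ∑ s ∈ Zt (T ^ 2), ∑ s' ∈ Zt (T ^ 2), mz s * mz s' *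
  (2 / (T * Real.log T) * (ph (max s.im s'.im / T) *
    CT w ((s.im - s'.im) * Real.log T / (2 * Real.pi))))

/-- the pair functional with a sharp cutoff -/
def QP (w : ℝ → ℝ) (T : ℝ) : ℝ := Q2 (CT w) T (Real.log T) / Xf T

/-- a smooth even probability density with support in `[-η, η]` -/
structure Bp (η : ℝ) (β : ℝ → ℝ) : Prop where
  ew : EW β
  nonneg : ∀ x, 0 ≤ β x
  one : ∫ x, β x = 1
  supp : ∀ x, η < |x| → β x = 0

/-- WEIL: the explicit formula for the smoothed error of the primes in short intervals -/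
def S_WEIL : Prop := ∀ (T η y : ℝ) (β : ℝ → ℝ), 2 ≤ T → 0 < η → η ≤ 1 → Bp η β → 3 ≤ y →
  ∃ t : ℝ, |t| ≤ 4 / T * Real.exp (-(5 / 2 * (y - 1))) ∧
    HasSum (fun ρ : Pool.Agent.W187.WP.Zr => (Pool.Agent.W187.WP.mult ρ : ℂ) *
      (Complex.exp (((ρ : ℂ) - 1 / 2) * y) * Pool.Agent.W187.WP.lap (fun x => (β x : ℂ)) ((ρ : ℂ) - 1 / 2) *
        aT T ρ)) ((-(∫ v, β v * DT T (y + v)) - t : ℝ) : ℂ)

/-- the sum over all the zeros -/
def ZS (β : ℝ → ℝ) (T y : ℝ) : ℂ :=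
  ∑' ρ : Pool.Agent.W187.WP.Zr, (Pool.Agent.W187.WP.mult ρ : ℂ) *
      (Complex.exp (((ρ : ℂ) - 1 / 2) * y) * Pool.Agent.W187.WP.lap (fun x => (β x : ℂ)) ((ρ : ℂ) - 1 / 2) *
        aT T ρ)

/-- C2: the mean square of the smoothed sum over the zeros as a sum over pairs, uniformly in the smoothing -/
def S_C2 : Prop := RiemannHypothesis → ∀ w : ℝ → ℝ, SC w → ∃ D T0 : ℝ, 2 ≤ T0 ∧ ∀ T : ℝ, T0 ≤ T →
  ∀ (η : ℝ) (β : ℝ → ℝ), 0 < η → η ≤ 1 / T ^ 2 → Bp η β →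
    |T / Real.log T ^ 2 * (∫ y : ℝ, w (y / Real.log T) * (ZS β T y).re ^ 2) - RP w T| ≤
      D * T ^ (-(1 / 2) : ℝ)

/-- EFL: the mean square of the error of the primes in short intervals is a sum over pairs of zeros -/
def S_EFL : Prop := RiemannHypothesis → ∀ w : ℝ → ℝ, SC w → (∀ x, x < 1 / 2 → w x = 0) →
  Tendsto (fun T => (∫ α, w α * ft T α) - RP w T) atTop (𝓝 0)

/-- AB: from the sharp cutoff to the weight `ph` -/
def S_AB : Prop := RiemannHypothesis → ∀ (w : ℝ → ℝ) (ℓ : ℝ), EW w →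
  Tendsto (QP w) atTop (𝓝 ℓ) → Tendsto (RP w) atTop (𝓝 ℓ)

/-- TA: from the weight `ph` to the sharp cutoff -/
def S_TA : Prop := RiemannHypothesis → ∀ (w : ℝ → ℝ) (ℓ : ℝ), EW w → (∀ x, 0 ≤ CT w x) →
  Tendsto (RP w) atTop (𝓝 ℓ) → Tendsto (QP w) atTop (𝓝 ℓ)

/-- DG: the diagonal -/
def S_DG : Prop := ∀ w : ℝ → ℝ, EW w → (∀ x, 0 ≤ CT w x) → ∀ ε : ℝ, 0 < ε →
  ∀ᶠ T in atTop, (∫ x, w x) - ε ≤ RP w T

/-- one-sided bound for the windows in `[1, ∞)` -/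
def UBf (l : Filter ℝ) (f : ℝ → ℝ → ℝ) : Prop := ∀ a b : ℝ, 1 ≤ a → a < b → ∀ ε : ℝ, 0 < ε →
  ∀ᶠ T in l, ∫ α in a..b, f T α ≤ b - a + ε

/-- ONE: the one-sided argument -/
def S_ONE : Prop := ∀ (l : Filter ℝ) (f : ℝ → ℝ → ℝ), (∀ᶠ T in l, ∀ α, 0 ≤ f T α) →
  (∀ᶠ T in l, ∀ a b : ℝ, 1 ≤ a → a ≤ b → IntervalIntegrable (f T) volume a b) → UBf l f →
  (∀ b ε : ℝ, 1 < b → 0 < ε → ∀ᶠ T in l,
    -(1 / 6) - ε ≤ ∫ t in (1 : ℝ)..b, ((∫ α in (1 : ℝ)..t, f T α) - (t - 1))) →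
  ∀ t : ℝ, 1 ≤ t → Tendsto (fun T => ∫ α in (1 : ℝ)..t, f T α) l (𝓝 (t - 1))

/-- APP: smooth positive definite approximations of the tents -/
def S_APP : Prop := ∀ b δ : ℝ, 1 ≤ b → 0 < δ → δ ≤ 1 → ∃ w : ℝ → ℝ, EW w ∧ (∀ x, 0 ≤ w x) ∧
  (∀ x, b + δ < |x| → w x = 0) ∧ (∀ x, 0 ≤ CT w x) ∧ (∀ x, |w x - max 0 (1 - |x| / b)| ≤ δ)

end

end H479.V
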