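import Pool.Agent.H479.V.Mo

/-! # Interface, second part: assembly -/

open MeasureTheory Filter Topology

namespace H479.V

open H479.P
open H479.U hiding mz_nonneg
open Pool.Agent.Y744 TH803TW
open Pool.Agent.N804 (SC CT)
open Pool.Agent.N804.PV (DT GV ph aT)

/-- GVF: the variance as an integral of its density -/
def S_GVF : Prop := ∀ T u v : ℝ, 1 < T → 0 ≤ u → u ≤ v → GV T u v = ∫ α in u..v, ft T α

/-- LOW: the lower bound in the mean, from the diagonal -/
def S_LOW : Prop := RiemannHypothesis → S_EFL → S_DG → S_APP → UBf atTop ft →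
  ∀ b ε : ℝ, 1 < b → 0 < ε → ∀ᶠ T in atTop,
    -(1 / 6) - ε ≤ ∫ t in (1 : ℝ)..b, ((∫ α in (1 : ℝ)..t, ft T α) - (t - 1))

/-- TWO: from the variance to the pair functional -/
def S_TWO : Prop := RiemannHypothesis → S_EFL →
  (∀ t : ℝ, 1 ≤ t → Tendsto (fun T => ∫ α in (1 : ℝ)..t, ft T α) atTop (𝓝 (t - 1))) →
  ∀ w : ℝ → ℝ, EW w → Tendsto (RP w) atTop (𝓝 (Lam w))

/-- STL: from positive definite test functions to the means of `F` -/
def S_STL : Prop := RiemannHypothesis → S_APP →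
  (∀ w : ℝ → ℝ, EW w → (∀ x, 0 ≤ CT w x) → Tendsto (QP w) atTop (𝓝 (Lam w))) →
  ∀ t : ℝ, 1 ≤ t → Tendsto (fun T => H479.P.ST T t) atTop (𝓝 0)

/-- CNV: from the pair functional to the variance -/
def S_CNV : Prop := RiemannHypothesis → S_EFL →
  (∀ w : ℝ → ℝ, EW w → Tendsto (RP w) atTop (𝓝 (Lam w))) →
  ∀ u v : ℝ, 1 ≤ u → u < v → Tendsto (fun T => ∫ α in u..v, ft T α) atTop (𝓝 (v - u))

end H479.V
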